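import Pool.Agent.Lib.MP_f4f1a8_lc.Defs

/-!
# Basic properties of plain Kolmogorov complexity
-/

namespace Pool.Agent.Lib.MP_f4f1a8_lc

open Nat.Partrec (Code)

theorem C_le {U : List Bool →. List Bool} {y q : List Bool} (h : y ∈ U q) :
    C U y ≤ q.length :=
  Nat.sInf_le ⟨q, h, rfl⟩

theorem exists_mem_U {U : List Bool →. List Bool} (hU : Optimal U) :
    ∃ c, ∀ y, ∃ q, y ∈ U q ∧ q.length ≤ y.length + c := by
  obtain ⟨c, hc⟩ := hU.2 (fun y => Part.some y) Partrec.some
  exact ⟨c, fun y => hc y y (Part.mem_some y)⟩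

theorem C_le_length {U : List Bool →. List Bool} (hU : Optimal U) :
    ∃ c, ∀ y, C U y ≤ y.length + c := by
  obtain ⟨c, hc⟩ := exists_mem_U hU
  refine ⟨c, fun y => ?_⟩
  obtain ⟨q, hq, hl⟩ := hc y
  exact (C_le hq).trans hl

theorem exists_program {U : List Bool →. List Bool} (hU : Optimal U) (y : List Bool) :
    ∃ q, y ∈ U q ∧ q.length = C U y := by
  obtain ⟨c, hc⟩ := exists_mem_U hU
  obtain ⟨q, hq, -⟩ := hc y
  have hne : {m | ∃ q, y ∈ U q ∧ q.length = m}.Nonempty := ⟨q.length, q, hq, rfl⟩
  exact Nat.sInf_mem hne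

theorem sum_two_pow_range (m : ℕ) : (∑ k ∈ Finset.range m, 2 ^ k) + 1 = 2 ^ m := by
  induction m with
  | zero => simp
  | succ m ih =>
    rw [Finset.sum_range_succ, pow_succ]
    omega

theorem card_lt_of_C {U : List Bool →. List Bool} (hU : Optimal U) {n : ℕ}
    (F : Finset (Fin n → Bool)) (m : ℕ) (h : ∀ y ∈ F, C U (List.ofFn y) < m) :
    F.card < 2 ^ m := by
  classical
  choose g hg hgl using fun y : List Bool => exists_program hU y
  let φ : (Fin n → Bool) → (Σ k : ℕ, (Fin k → Bool)) := fun y =>
    ⟨(g (List.ofFn y)).length, fun i => (g (List.ofFn y)).get i⟩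
  have hφ : ∀ y ∈ F, φ y ∈ (Finset.range m).sigma
      (fun k => (Finset.univ : Finset (Fin k → Bool))) := by
    intro y hy
    simp only [φ, Finset.mem_sigma, Finset.mem_range, Finset.mem_univ, and_true]
    rw [hgl]
    exact h y hy
  have hinj : Set.InjOn φ (F : Set (Fin n → Bool)) := by
    intro y _ y' _ hyy
    have h1 : List.ofFn (φ y).2 = List.ofFn (φ y').2 := by rw [hyy]
    have h2 : g (List.ofFn y) = g (List.ofFn y') := by
      simpa [φ, List.ofFn_get] using h1
    have h3 := hg (List.ofFn y)
    have h4 := hg (List.ofFn y')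
    rw [← h2] at h4
    exact List.ofFn_injective (Part.mem_unique h3 h4)
  have hcard := Finset.card_le_card_of_injOn φ hφ hinj
  rw [Finset.card_sigma] at hcard
  have : ∑ k ∈ Finset.range m, (Finset.univ : Finset (Fin k → Bool)).card
      = ∑ k ∈ Finset.range m, 2 ^ k := by
    refine Finset.sum_congr rfl fun k _ => ?_
    simp
  rw [this] at hcard
  have := sum_two_pow_range m
  omega

/-- All strings of length at most `m`. -/
def strsLE : ℕ → List (List Bool)
  | 0 => [[]]
  | m + 1 => [] :: ((strsLE m).map (List.cons false) ++ (strsLE m).map (List.cons true))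

theorem mem_strsLE : ∀ {m : ℕ} {q : List Bool}, q ∈ strsLE m ↔ q.length ≤ m
  | 0, q => by simp [strsLE]
  | m + 1, [] => by simp [strsLE]
  | m + 1, b :: q => by
      have ih := @mem_strsLE m q
      cases b <;> simp [strsLE, ih]

theorem primrec_strsLE : Primrec strsLE := by
  have h : Primrec (fun n : ℕ => Nat.rec (motive := fun _ => List (List Bool)) [[]]
      (fun _ L => [] :: (L.map (List.cons false) ++ L.map (List.cons true))) n) := by
    refine Primrec.nat_rec₁ _ ?_
    refine Primrec.list_cons.comp (Primrec.const []) ?_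
    refine Primrec.list_append.comp ?_ ?_
    · exact Primrec.list_map Primrec.snd
        (Primrec.list_cons.comp (Primrec.const false) Primrec.snd)
    · exact Primrec.list_map Primrec.snd
        (Primrec.list_cons.comp (Primrec.const true) Primrec.snd)
  refine h.of_eq fun n => ?_
  induction n with
  | zero => rfl
  | succ n ih =>
    simp only [strsLE]
    rw [← ih]

theorem exists_stage {U : List Bool →. List Bool} (hU : Optimal U) :
    ∃ E : ℕ → List Bool → ℕ → Prop,
      PrimrecPred (fun a : ℕ × List Bool × ℕ => E a.1 a.2.1 a.2.2) ∧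
      (∀ m y k k', k ≤ k' → E m y k → E m y k') ∧
      ∀ m y, C U y ≤ m ↔ ∃ k, E m y k := by
  classical
  obtain ⟨c, hc⟩ := Code.exists_code.1 hU.1
  have hmem : ∀ q y : List Bool,
      Encodable.encode y ∈ Code.eval c (Encodable.encode q) ↔ y ∈ U q := by
    intro q y
    rw [hc]
    simp only [Encodable.encodek, Part.coe_some, Part.bind_some, Part.mem_map_iff]
    constructor
    · rintro ⟨a, ha, hay⟩
      rwa [← Encodable.encode_injective hay]
    · intro h
      exact ⟨y, h, rfl⟩
  refine ⟨fun m y k => ∃ q ∈ strsLE m,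
    Code.evaln k c (Encodable.encode q) = some (Encodable.encode y), ?_, ?_, ?_⟩
  · have hR : PrimrecRel (fun (q : List Bool) (b : List Bool × ℕ) =>
        Code.evaln b.2 c (Encodable.encode q) = some (Encodable.encode b.1)) := by
      refine Primrec.eq.comp ?_
        (Primrec.option_some.comp (Primrec.encode.comp (Primrec.fst.comp Primrec.snd)))
      exact Code.primrec_evaln.comp (Primrec.pair (Primrec.pair
        (Primrec.snd.comp Primrec.snd) (Primrec.const c))
        (Primrec.encode.comp Primrec.fst))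
    exact hR.exists_mem_list.comp (primrec_strsLE.comp Primrec.fst) Primrec.snd
  · rintro m y k k' hk ⟨q, hq, h⟩
    exact ⟨q, hq, Option.mem_def.1 (Code.evaln_mono hk (Option.mem_def.2 h))⟩
  · intro m y
    constructor
    · intro h
      obtain ⟨q, hq, hl⟩ := exists_program hU y
      obtain ⟨k, hk⟩ := Code.evaln_complete.1 ((hmem q y).2 hq)
      exact ⟨k, q, mem_strsLE.2 (by omega), Option.mem_def.1 hk⟩
    · rintro ⟨k, q, hq, h⟩
      have h1 := Code.evaln_sound (Option.mem_def.2 h)
      exact (C_le ((hmem q y).1 h1)).trans (mem_strsLE.1 hq)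

end Pool.Agent.Lib.MP_f4f1a8_lc
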