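import Pool.Agent.Lib.MP_f4f1a8_lc.Real

/-!
# MP_f4f1a8_lc, block family: systems, and the one-block system
-/

namespace Pool.Agent.Lib.MP_f4f1a8_lc

namespace Blk

open Finset SelectAux

/-- `(n, A)` is a `K`-system for the global size `N`: against all small bad sets there is a
point `x` near which complexities are bounded by `A` and which sees a point that is not bad
at every radius. -/
def Sys (U : List Bool →. List Bool) (N K n : ℕ) (A : ℕ → ℝ) : Prop :=
  ∀ Bad : ℕ → Finset (Fin n → Bool),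
    (∀ d ≤ N, ((Bad d).card : ℝ) * (N : ℝ) ^ K ≤ (2 : ℝ) ^ (A d)) →
    ∃ x : Fin n → Bool,
      (∀ y : Fin n → Bool,
        (C U (List.ofFn y) : ℝ) ≤ A (hammingDist x y) + K * Real.log N) ∧
      ∀ d ≤ N, ∃ y : Fin n → Bool, hammingDist x y ≤ d ∧ y ∉ Bad d

lemma hammingDist_le_n {n : ℕ} (x y : Fin n → Bool) : hammingDist x y ≤ n := by
  have := hammingDist_le_card_fintype (x := x) (y := y)
  simpa using this

lemma pow_ge_of_le {N K j : ℕ} (hN : 2 ≤ N) (h : j ≤ K) : (N : ℝ) ^ j ≤ (N : ℝ) ^ K := by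
  apply pow_le_pow_right₀ _ h
  exact_mod_cast (by omega : 1 ≤ N)

theorem base {U : List Bool →. List Bool} (hU : Optimal U) :
    ∃ K : ℕ, ∀ N n l t : ℕ, 2 ≤ N → n ≤ N → l ≤ n → t ≤ n →
      Sys U N K n (fun d => min (n : ℝ) (l + L n (t + d))) := by
  classical
  obtain ⟨c₀, hc₀⟩ := C_le_length hU
  obtain ⟨c₁, hc₁⟩ := descr_code hU
  obtain ⟨cs, hcs0, hcs⟩ := NL_exists_s 0
  obtain ⟨K, hK⟩ := exists_nat_ge (2 * (c₀ : ℝ) + 2 * c₁ + 8 * cs + 60)
  refine ⟨K, ?_⟩
  intro N n l t hN hn hl ht
  obtain ⟨s, hs, hs'⟩ := hcs N hN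
  have hl1 := one_le_log hN
  have hl0 : 0 ≤ Real.log N := by linarith
  have hc0l : (c₀ : ℝ) ≤ 2 * c₀ * Real.log N := by
    have : (0 : ℝ) ≤ c₀ := by positivity
    nlinarith
  have hc1l : (c₁ : ℝ) ≤ 2 * c₁ * Real.log N := by
    have : (0 : ℝ) ≤ c₁ := by positivity
    nlinarith
  have hcc0 : (0 : ℝ) ≤ c₀ := by positivity
  have hcc1 : (0 : ℝ) ≤ c₁ := by positivity
  have hKlog : (2 * (c₀ : ℝ) + 2 * c₁ + 8 * cs + 60) * Real.log N ≤ K * Real.log N :=
    mul_le_mul_of_nonneg_right hK hl0
  have hc0' : 0 ≤ 2 * (c₀ : ℝ) * Real.log N := by positivity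
  have hc1' : 0 ≤ 2 * (c₁ : ℝ) * Real.log N := by positivity
  have hcs' : 0 ≤ 8 * cs * Real.log N := by positivity
  have hK12 : 12 ≤ K := by
    have : (12 : ℝ) ≤ K := by linarith
    exact_mod_cast this
  have hN0 : (0 : ℝ) < N := by exact_mod_cast (by omega : 0 < N)
  have hN2 : (2 : ℝ) ≤ N := by exact_mod_cast hN
  have hNK : (0 : ℝ) < (N : ℝ) ^ K := by positivity
  have hnl : (n : ℝ) ≤ N := by exact_mod_cast hn
  intro Bad hBad
  rcases lt_or_ge n (2 * t) with hcase | hcase
  · -- large `t`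
    have hAn : ∀ d, (n : ℝ) - 1 ≤ min (n : ℝ) (l + L n (t + d)) := by
      intro d
      have h4 := real_half n (show n / 2 ≤ t + d by omega)
      have : (0 : ℝ) ≤ l := by positivity
      apply le_min <;> linarith
    have hex : ∃ x : Fin n → Bool, x ∉ (range (N + 1)).biUnion Bad := by
      by_contra hcon
      push Not at hcon
      have h1 : (2 : ℝ) ^ n ≤ (((range (N + 1)).biUnion Bad).card : ℝ) := by
        have h2 : (univ : Finset (Fin n → Bool)).card ≤ ((range (N + 1)).biUnion Bad).card :=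
          card_le_card (fun x _ => hcon x)
        rw [card_univ] at h2
        simp only [Fintype.card_pi, Fintype.card_bool, prod_const, card_univ,
          Fintype.card_fin] at h2
        exact_mod_cast h2
      have h3 : (((range (N + 1)).biUnion Bad).card : ℝ) * (N : ℝ) ^ K ≤ (N + 1) * 2 ^ n := by
        have h4 : (((range (N + 1)).biUnion Bad).card : ℝ) ≤
            ∑ d ∈ range (N + 1), ((Bad d).card : ℝ) := by
          exact_mod_cast card_biUnion_le
        calc (((range (N + 1)).biUnion Bad).card : ℝ) * (N : ℝ) ^ K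
            ≤ (∑ d ∈ range (N + 1), ((Bad d).card : ℝ)) * (N : ℝ) ^ K :=
              mul_le_mul_of_nonneg_right h4 hNK.le
          _ = ∑ d ∈ range (N + 1), ((Bad d).card : ℝ) * (N : ℝ) ^ K := by
              rw [Finset.sum_mul]
          _ ≤ ∑ d ∈ range (N + 1), (2 : ℝ) ^ n := by
              apply Finset.sum_le_sum
              intro d hd
              refine (hBad d (by rw [mem_range] at hd; omega)).trans ?_
              have h5 : (2 : ℝ) ^ (min (n : ℝ) (l + L n (t + d))) ≤ (2 : ℝ) ^ (n : ℝ) :=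
                Real.rpow_le_rpow_of_exponent_le (by norm_num) (min_le_left _ _)
              rwa [Real.rpow_natCast] at h5
          _ = (N + 1) * 2 ^ n := by
              rw [Finset.sum_const, card_range, nsmul_eq_mul]; push_cast; ring
      have h6 : ((N : ℝ) + 1) < (N : ℝ) ^ K := by
        have h7 := pow_ge_of_le hN (show 2 ≤ K by omega)
        nlinarith
      have h8 : (2 : ℝ) ^ n * (N : ℝ) ^ K ≤ (N + 1) * 2 ^ n :=
        (mul_le_mul_of_nonneg_right h1 hNK.le).trans h3
      have h9 : (0 : ℝ) < (2 : ℝ) ^ n := by positivity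
      nlinarith
    obtain ⟨x, hx⟩ := hex
    refine ⟨x, ?_, ?_⟩
    · intro y
      have h2 : (C U (List.ofFn y) : ℝ) ≤ n + c₀ := by
        have := hc₀ (List.ofFn y)
        rw [List.length_ofFn] at this
        exact_mod_cast this
      have h3 := hAn (hammingDist x y)
      show (C U (List.ofFn y) : ℝ) ≤
        min (n : ℝ) (l + L n (t + hammingDist x y)) + K * Real.log N
      nlinarith
    · intro d hd
      refine ⟨x, by simp, fun hxd => hx ?_⟩
      exact mem_biUnion.2 ⟨d, mem_range.2 (by omega), hxd⟩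
  · -- the code construction
    obtain ⟨T, hT, hTd⟩ := hc₁ n l
    set A : ℕ → ℝ := fun ρ => min (n : ℝ) (l + L n ρ) with hA
    have hAρ : ∀ d, A (t + d) ≤ A (min (t + d) (n / 2)) + 1 := by
      intro d
      rcases le_total (t + d) (n / 2) with h | h
      · rw [min_eq_left h]; linarith
      · rw [min_eq_right h]
        have h1 := real_half n (le_refl (n / 2))
        have h2 : A (t + d) ≤ n := min_le_left _ _
        have h3 : (0 : ℝ) ≤ l := by positivity
        have h4 : (n : ℝ) - 1 ≤ A (n / 2) := by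
          apply le_min <;> linarith
        linarith
    have hpow : ∀ ρ, (2 : ℝ) ^ (A ρ) ≤ min ((2 : ℝ) ^ l * vol n ρ) ((2 : ℝ) ^ n) := by
      intro ρ
      apply le_min
      · have h1 : (2 : ℝ) ^ (A ρ) ≤ (2 : ℝ) ^ ((l : ℝ) + L n ρ) :=
          Real.rpow_le_rpow_of_exponent_le (by norm_num) (min_le_right _ _)
        refine h1.trans (le_of_eq ?_)
        rw [Real.rpow_add (by norm_num), Real.rpow_natCast]
        congr 1
        unfold L
        rw [Real.rpow_logb (by norm_num) (by norm_num) (NL_pos n ρ)]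
      · have h1 : (2 : ℝ) ^ (A ρ) ≤ (2 : ℝ) ^ (n : ℝ) :=
          Real.rpow_le_rpow_of_exponent_le (by norm_num) (min_le_left _ _)
        rwa [Real.rpow_natCast] at h1
    set Bad' : ℕ → Finset (Fin n → Bool) := fun ρ =>
      ((range (N + 1)).filter (fun d => min (t + d) (n / 2) = ρ)).biUnion Bad with hBad'
    have hB : ∀ ρ, t ≤ ρ → 2 * ρ ≤ n →
        (Bad' ρ).card * (8 * (n + 1) ^ 3) ≤ min (2 ^ l * vol n ρ) (2 ^ n) := by
      intro ρ _ _
      have h3 : ((Bad' ρ).card : ℝ) * (N : ℝ) ^ K ≤ (N + 1) * (2 * (2 : ℝ) ^ (A ρ)) := by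
        have h4 : ((Bad' ρ).card : ℝ) ≤
            ∑ d ∈ (range (N + 1)).filter (fun d => min (t + d) (n / 2) = ρ),
              ((Bad d).card : ℝ) := by
          exact_mod_cast card_biUnion_le
        calc ((Bad' ρ).card : ℝ) * (N : ℝ) ^ K
            ≤ (∑ d ∈ (range (N + 1)).filter (fun d => min (t + d) (n / 2) = ρ),
                ((Bad d).card : ℝ)) * (N : ℝ) ^ K :=
              mul_le_mul_of_nonneg_right h4 hNK.le
          _ = ∑ d ∈ (range (N + 1)).filter (fun d => min (t + d) (n / 2) = ρ),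
                ((Bad d).card : ℝ) * (N : ℝ) ^ K := by
              rw [Finset.sum_mul]
          _ ≤ ∑ d ∈ (range (N + 1)).filter (fun d => min (t + d) (n / 2) = ρ),
                2 * (2 : ℝ) ^ (A ρ) := by
              apply Finset.sum_le_sum
              intro d hd
              rw [mem_filter, mem_range] at hd
              refine (hBad d (by omega)).trans ?_
              have h5 : (2 : ℝ) ^ (A (t + d)) ≤ (2 : ℝ) ^ (A ρ + 1) := by
                apply Real.rpow_le_rpow_of_exponent_le (by norm_num)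
                have := hAρ d
                rwa [hd.2] at this
              refine h5.trans (le_of_eq ?_)
              rw [Real.rpow_add (by norm_num), Real.rpow_one]
              ring
          _ ≤ ∑ d ∈ range (N + 1), 2 * (2 : ℝ) ^ (A ρ) := by
              apply Finset.sum_le_sum_of_subset_of_nonneg (filter_subset _ _)
              intro _ _ _
              positivity
          _ = (N + 1) * (2 * (2 : ℝ) ^ (A ρ)) := by
              rw [Finset.sum_const, card_range, nsmul_eq_mul]; push_cast; ring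
      have h6 : (8 * ((n : ℝ) + 1) ^ 3) * ((N + 1) * 2) ≤ (N : ℝ) ^ K := by
        have h7 := pow_ge_of_le hN hK12
        refine le_trans ?_ h7
        have hn0 : (0 : ℝ) ≤ n := by positivity
        have e1 : ((n : ℝ) + 1) ≤ 2 * N := by linarith
        have e2 : ((N : ℝ) + 1) ≤ 2 * N := by linarith
        have e3 : ((n : ℝ) + 1) ^ 3 ≤ (2 * N) ^ 3 := pow_le_pow_left₀ (by linarith) e1 3
        have e4 : (256 : ℝ) ≤ (N : ℝ) ^ 8 := by
          calc (256 : ℝ) = 2 ^ 8 := by norm_num
            _ ≤ (N : ℝ) ^ 8 := pow_le_pow_left₀ (by norm_num) hN2 8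
        calc (8 * ((n : ℝ) + 1) ^ 3) * ((N + 1) * 2) ≤ (8 * (2 * N) ^ 3) * ((2 * N) * 2) := by
              apply mul_le_mul
              · linarith
              · linarith
              · positivity
              · positivity
          _ = 256 * (N : ℝ) ^ 4 := by ring
          _ ≤ (N : ℝ) ^ 8 * (N : ℝ) ^ 4 := mul_le_mul_of_nonneg_right e4 (by positivity)
          _ = (N : ℝ) ^ 12 := by ring
      have h8 : ((Bad' ρ).card : ℝ) * (8 * ((n : ℝ) + 1) ^ 3) ≤ (2 : ℝ) ^ (A ρ) := by
        have h9 : (0 : ℝ) < 8 * ((n : ℝ) + 1) ^ 3 := by positivity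
        have h10 : (0 : ℝ) < (2 : ℝ) ^ (A ρ) := by positivity
        have h11 : (((Bad' ρ).card : ℝ) * (8 * ((n : ℝ) + 1) ^ 3)) * (N : ℝ) ^ K ≤
            (2 : ℝ) ^ (A ρ) * (N : ℝ) ^ K := by
          calc (((Bad' ρ).card : ℝ) * (8 * ((n : ℝ) + 1) ^ 3)) * (N : ℝ) ^ K
              = (((Bad' ρ).card : ℝ) * (N : ℝ) ^ K) * (8 * ((n : ℝ) + 1) ^ 3) := by ring
            _ ≤ ((N + 1) * (2 * (2 : ℝ) ^ (A ρ))) * (8 * ((n : ℝ) + 1) ^ 3) :=
                mul_le_mul_of_nonneg_right h3 h9.le
            _ = (2 : ℝ) ^ (A ρ) * ((8 * ((n : ℝ) + 1) ^ 3) * ((N + 1) * 2)) := by ring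
            _ ≤ (2 : ℝ) ^ (A ρ) * (N : ℝ) ^ K := mul_le_mul_of_nonneg_left h6 h10.le
        exact le_of_mul_le_mul_right h11 hNK
      have h4 := h8.trans (hpow ρ)
      have h5 : (((Bad' ρ).card * (8 * (n + 1) ^ 3) : ℕ) : ℝ) ≤
          ((min (2 ^ l * vol n ρ) (2 ^ n) : ℕ) : ℝ) := by
        push_cast
        exact h4
      exact_mod_cast h5
    obtain ⟨x, ⟨i, hi⟩, hx⟩ := exists_center hcase T hT Bad' hB
    refine ⟨x, ?_, ?_⟩
    · -- upper bound
      intro y
      set j := t + hammingDist x y with hj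
      have hdn := hammingDist_le_n x y
      have hmem : y ∈ nbr (univ.image T) j := by
        refine mem_nbr.mpr ⟨T i, mem_image_of_mem _ (mem_univ _), ?_⟩
        have := hammingDist_triangle (T i) x y
        omega
      have hpos : 0 < (nbr (univ.image T) j).card := Finset.card_pos.mpr ⟨y, hmem⟩
      set M' := Nat.clog 2 (nbr (univ.image T) j).card with hM'
      have hN1 : (nbr (univ.image T) j).card ≤ 2 ^ M' := Nat.le_pow_clog (by norm_num) _
      have hN2' := NL_clog_le hpos
      rw [← hM'] at hN2'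
      have hN3 : Real.logb 2 (nbr (univ.image T) j).card ≤ A j := by
        apply le_min
        · have : (nbr (univ.image T) j).card ≤ 2 ^ n := by
            refine (card_le_univ _).trans ?_
            simp
          have h1 := Real.logb_le_logb_of_le (b := 2) (x := ((nbr (univ.image T) j).card : ℝ))
            (y := (2 : ℝ) ^ n) (by norm_num) (by exact_mod_cast hpos) (by exact_mod_cast this)
          rwa [Real.logb_pow, Real.logb_self_eq_one (by norm_num), mul_one] at h1
        · have h1 := Real.logb_le_logb_of_le (b := 2) (x := ((nbr (univ.image T) j).card : ℝ))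
            (y := (2 : ℝ) ^ l * vol n j) (by norm_num) (by exact_mod_cast hpos)
            (by exact_mod_cast real_card_nbr T j)
          rwa [Real.logb_mul (by positivity) (NL_pos n j).ne', Real.logb_pow,
            Real.logb_self_eq_one (by norm_num), mul_one] at h1
      have h2s : (2 : ℕ) ^ (s + 1) = 2 * 2 ^ s := by ring
      have hC : C U (List.ofFn y) ≤ M' + 8 * (s + 1) + c₁ :=
        hTd j (s + 1) M' (by omega) (by omega) (by omega) hN1 y hmem
      have hC' : (C U (List.ofFn y) : ℝ) ≤ M' + 8 * (s + 1) + c₁ := by exact_mod_cast hC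
      show (C U (List.ofFn y) : ℝ) ≤ A j + K * Real.log N
      nlinarith
    · intro d hd
      have hρ1 : t ≤ min (t + d) (n / 2) := by omega
      have hρ2 : 2 * min (t + d) (n / 2) ≤ n := by omega
      obtain ⟨y, hy, hyB⟩ := hx _ hρ1 hρ2
      refine ⟨y, by omega, fun hyd => hyB ?_⟩
      exact mem_biUnion.2 ⟨d, mem_filter.2 ⟨mem_range.2 (by omega), rfl⟩, hyd⟩

end Blk

end Pool.Agent.Lib.MP_f4f1a8_lc
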