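import Pool.Agent.Lib.MP_f4f1a8_lc.BlkProd

/-!
# MP_f4f1a8_lc, block family: all sup-convolutions of the two-parameter functions occur
-/

namespace Pool.Agent.Lib.MP_f4f1a8_lc

open Finset

/-- The greatest value of `∑ i, A i (δ i)` over all vectors `δ` of natural numbers with
`∑ i, δ i ≤ d`. -/
noncomputable def supConv {r : ℕ} (A : Fin r → ℕ → ℝ) (d : ℕ) : ℝ :=
  sSup {a : ℝ | ∃ δ : Fin r → ℕ, ∑ i, δ i ≤ d ∧ a = ∑ i, A i (δ i)}

namespace Blk

open SelectAux

lemma supConv_finite {r : ℕ} (A : Fin r → ℕ → ℝ) (d : ℕ) :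
    {a : ℝ | ∃ δ : Fin r → ℕ, ∑ i, δ i ≤ d ∧ a = ∑ i, A i (δ i)}.Finite := by
  have h : {a : ℝ | ∃ δ : Fin r → ℕ, ∑ i, δ i ≤ d ∧ a = ∑ i, A i (δ i)} ⊆
      (fun δ : Fin r → ℕ => ∑ i, A i (δ i)) '' (Set.Iic (fun _ => d)) := by
    rintro a ⟨δ, hδ, rfl⟩
    refine ⟨δ, ?_, rfl⟩
    intro i
    exact (single_le_sum (fun j _ => Nat.zero_le (δ j)) (mem_univ i)).trans hδ
  exact ((Set.finite_Iic _).image _).subset h

lemma supConv_nonempty {r : ℕ} (A : Fin r → ℕ → ℝ) (d : ℕ) :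
    {a : ℝ | ∃ δ : Fin r → ℕ, ∑ i, δ i ≤ d ∧ a = ∑ i, A i (δ i)}.Nonempty :=
  ⟨_, fun _ => 0, by simp, rfl⟩

lemma supConv_attained {r : ℕ} (A : Fin r → ℕ → ℝ) (d : ℕ) :
    ∃ δ : Fin r → ℕ, ∑ i, δ i ≤ d ∧ supConv A d = ∑ i, A i (δ i) :=
  (supConv_nonempty A d).csSup_mem (supConv_finite A d)

lemma le_supConv {r : ℕ} (A : Fin r → ℕ → ℝ) {d : ℕ} (δ : Fin r → ℕ) (h : ∑ i, δ i ≤ d) :
    ∑ i, A i (δ i) ≤ supConv A d :=
  le_csSup (supConv_finite A d).bddAbove ⟨δ, h, rfl⟩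

lemma supConv_mono {r : ℕ} (A : Fin r → ℕ → ℝ) {d d' : ℕ} (h : d ≤ d') :
    supConv A d ≤ supConv A d' := by
  obtain ⟨δ, hδ, he⟩ := supConv_attained A d
  rw [he]
  exact le_supConv A δ (hδ.trans h)

lemma supConv_succ_ge {r : ℕ} (A : Fin (r + 1) → ℕ → ℝ) (d₁ d₂ : ℕ) :
    A 0 d₁ + supConv (fun i => A i.succ) d₂ ≤ supConv A (d₁ + d₂) := by
  obtain ⟨δ, hδ, he⟩ := supConv_attained (fun i => A i.succ) d₂
  have h1 := le_supConv A (d := d₁ + d₂) (Fin.cons d₁ δ) (by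
    rw [Fin.sum_univ_succ]
    simp only [Fin.cons_zero, Fin.cons_succ]
    omega)
  rw [Fin.sum_univ_succ] at h1
  simp only [Fin.cons_zero, Fin.cons_succ] at h1
  rw [he]
  exact h1

lemma supConv_succ_split {r : ℕ} (A : Fin (r + 1) → ℕ → ℝ) (d : ℕ) :
    ∃ d₁ d₂, d₁ + d₂ = d ∧ supConv A d = A 0 d₁ + supConv (fun i => A i.succ) d₂ := by
  obtain ⟨δ, hδ, he⟩ := supConv_attained A d
  rw [Fin.sum_univ_succ] at hδ
  have hd : δ 0 + (d - δ 0) = d := by omega
  refine ⟨δ 0, d - δ 0, hd, le_antisymm ?_ ?_⟩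
  · rw [he, Fin.sum_univ_succ]
    have := le_supConv (fun i => A i.succ) (d := d - δ 0) (fun i => δ i.succ) (by omega)
    linarith
  · have := supConv_succ_ge A (δ 0) (d - δ 0)
    rwa [hd] at this

lemma supConv_zero (A : Fin 0 → ℕ → ℝ) (d : ℕ) : supConv A d = 0 := by
  obtain ⟨δ, _, he⟩ := supConv_attained A d
  rw [he]
  simp

lemma L_zero_left (d : ℕ) : L 0 d = 0 := by
  have h1 := NL_le 0 d
  have h2 := L_nonneg 0 d
  push_cast at h1
  linarith

theorem sys_blocks {U : List Bool →. List Bool} (hU : Optimal U) :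
    ∃ K c : ℕ, ∀ (r N : ℕ) (ν l t : Fin r → ℕ), 2 ≤ N → ∑ i, ν i ≤ N →
      (∀ i, l i ≤ ν i) → (∀ i, t i ≤ ν i) →
      Sys U N (K + r * (K + c)) (∑ i, ν i)
        (supConv (fun i d => min (ν i : ℝ) (l i + L (ν i) (t i + d)))) := by
  obtain ⟨K, hK⟩ := base hU
  obtain ⟨c, hc⟩ := prod hU
  refine ⟨K, c, ?_⟩
  intro r
  induction r with
  | zero =>
    intro N ν l t hN _ _ _
    have h : ∑ i : Fin 0, ν i = 0 := by simp
    have h1 : (supConv (fun (i : Fin 0) d => min (ν i : ℝ) (l i + L (ν i) (t i + d)))) =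
        fun d => min ((0 : ℕ) : ℝ) ((0 : ℕ) + L 0 (0 + d)) := by
      funext d
      rw [supConv_zero, L_zero_left]
      simp
    rw [h, h1, Nat.zero_mul, Nat.add_zero]
    exact hK N 0 0 0 hN (Nat.zero_le _) le_rfl le_rfl
  | succ r ih =>
    intro N ν l t hN hn hl ht
    have h : ∑ i : Fin (r + 1), ν i = ν 0 + ∑ i : Fin r, ν i.succ := Fin.sum_univ_succ _
    rw [h] at hn ⊢
    have h1 := hK N (ν 0) (l 0) (t 0) hN (by omega) (hl 0) (ht 0)
    have h2 := ih N (fun i => ν i.succ) (fun i => l i.succ) (fun i => t i.succ) hN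
      (by omega) (fun i => hl _) (fun i => ht _)
    have h3 := hc N K (K + r * (K + c)) (ν 0) (∑ i : Fin r, ν i.succ)
      (fun d => min (ν 0 : ℝ) (l 0 + L (ν 0) (t 0 + d)))
      (supConv (fun (i : Fin r) d =>
        min (ν i.succ : ℝ) (l i.succ + L (ν i.succ) (t i.succ + d))))
      (supConv (fun i d => min (ν i : ℝ) (l i + L (ν i) (t i + d)))) hN hn
      (supConv_succ_ge (fun i d => min (ν i : ℝ) (l i + L (ν i) (t i + d))))
      (supConv_succ_split (fun i d => min (ν i : ℝ) (l i + L (ν i) (t i + d)))) h1 h2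
    have h4 : K + (K + r * (K + c)) + c = K + (r + 1) * (K + c) := by ring
    rwa [h4] at h3

theorem blocks {U : List Bool →. List Bool} (hU : Optimal U) :
    ∃ c : ℝ, ∀ (r : ℕ) (ν l t : Fin r → ℕ), 2 ≤ ∑ i, ν i →
      (∀ i, l i ≤ ν i) → (∀ i, t i ≤ ν i) →
      ∃ x : Fin (∑ i, ν i) → Bool, ∀ d ≤ ∑ i, ν i,
        |(M U x d : ℝ) -
          supConv (fun i e => min (ν i : ℝ) (l i + L (ν i) (t i + e))) d| ≤
            c * r * Real.log (∑ i, ν i : ℕ) := by
  classical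
  obtain ⟨K, c, hsys⟩ := sys_blocks hU
  refine ⟨4 * K + 2 * c + 2, ?_⟩
  intro r ν l t hN hl ht
  have hr : 1 ≤ r := by
    rcases Nat.eq_zero_or_pos r with h | h
    · subst h
      simp at hN
    · exact h
  have hS := hsys r (∑ i, ν i) ν l t hN le_rfl hl ht
  set N := ∑ i, ν i with hNdef
  set F : ℕ → ℝ := supConv (fun i e => min (ν i : ℝ) (l i + L (ν i) (t i + e))) with hF
  set K' := K + r * (K + c) with hK'
  have hl1 := one_le_log hN
  have hlogb := NL_logb_le hN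
  have hN0 : (0 : ℝ) < N := by exact_mod_cast (by omega : 0 < N)
  set m : ℕ → ℕ := fun d => ⌊F d - K' * Real.logb 2 N⌋₊ with hm
  set Bad : ℕ → Finset (Fin N → Bool) :=
    fun d => univ.filter (fun y => C U (List.ofFn y) < m d) with hBaddef
  have hBad : ∀ d ≤ N, ((Bad d).card : ℝ) * (N : ℝ) ^ K' ≤ (2 : ℝ) ^ (F d) := by
    intro d _
    have hcard : (Bad d).card < 2 ^ m d := by
      apply card_lt_of_C hU
      intro y hy
      exact (mem_filter.mp hy).2
    rcases Nat.eq_zero_or_pos (m d) with h0 | h0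
    · rw [h0, pow_zero, Nat.lt_one_iff] at hcard
      rw [hcard]
      simp only [Nat.cast_zero, zero_mul]
      positivity
    · have h1 : (m d : ℝ) ≤ F d - K' * Real.logb 2 N :=
        Nat.floor_le (le_of_lt (Nat.pos_of_floor_pos h0))
      have h2 : ((Bad d).card : ℝ) ≤ (2 : ℝ) ^ (m d : ℝ) := by
        rw [Real.rpow_natCast]; exact_mod_cast hcard.le
      have h3 : (N : ℝ) ^ K' = (2 : ℝ) ^ ((K' : ℝ) * Real.logb 2 N) := by
        rw [mul_comm, Real.rpow_mul (by norm_num),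
          Real.rpow_logb (by norm_num) (by norm_num) hN0, Real.rpow_natCast]
      calc ((Bad d).card : ℝ) * (N : ℝ) ^ K'
          ≤ (2 : ℝ) ^ (m d : ℝ) * (N : ℝ) ^ K' :=
            mul_le_mul_of_nonneg_right h2 (by positivity)
        _ = (2 : ℝ) ^ ((m d : ℝ) + (K' : ℝ) * Real.logb 2 N) := by
            rw [h3, Real.rpow_add (by norm_num)]
        _ ≤ (2 : ℝ) ^ (F d) :=
            Real.rpow_le_rpow_of_exponent_le (by norm_num) (by linarith)
  obtain ⟨x, hxu, hx⟩ := hS Bad hBad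
  refine ⟨x, fun d hd => ?_⟩
  have hKr : (0 : ℝ) ≤ K' := by positivity
  have hup : (M U x d : ℝ) ≤ F d + K' * Real.log N := by
    obtain ⟨y, hy, he⟩ := exists_mem_eq_sup (ball x d) ⟨x, by simp [ball]⟩
      (fun y => C U (List.ofFn y))
    have hM : M U x d = C U (List.ofFn y) := he
    rw [hM]
    have h1 := hxu y
    have h2 : hammingDist x y ≤ d := by
      have := (mem_filter.1 hy).2
      exact this
    have h3 : F (hammingDist x y) ≤ F d := supConv_mono _ h2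
    linarith
  have hlow : F d - K' * Real.logb 2 N - 1 ≤ M U x d := by
    obtain ⟨y, hy, hyB⟩ := hx d hd
    have hyC : m d ≤ C U (List.ofFn y) := by
      by_contra hcon
      exact hyB (mem_filter.mpr ⟨mem_univ _, not_le.mp hcon⟩)
    have hMy : (m d : ℝ) ≤ M U x d := by
      have : C U (List.ofFn y) ≤ M U x d := le_M hy
      exact_mod_cast hyC.trans this
    have hfl : F d - K' * Real.logb 2 N < m d + 1 := Nat.lt_floor_add_one _
    linarith
  have hK'r : (K' : ℝ) ≤ r * (2 * K + c) := by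
    have h1 : (1 : ℝ) ≤ r := by exact_mod_cast hr
    have h2 : (0 : ℝ) ≤ K := by positivity
    rw [hK']
    push_cast
    nlinarith
  have hlog0 : 0 ≤ Real.log N := by linarith
  have h5 : K' * Real.logb 2 N ≤ K' * (2 * Real.log N) := mul_le_mul_of_nonneg_left hlogb hKr
  have h6 : (K' : ℝ) * (2 * Real.log N) + 2 * Real.log N ≤
      (4 * K + 2 * c + 2) * r * Real.log N := by
    have h1 : (1 : ℝ) ≤ r := by exact_mod_cast hr
    have h7 : 2 * (K' : ℝ) + 2 ≤ (4 * K + 2 * c + 2) * r := by nlinarith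
    have h8 := mul_le_mul_of_nonneg_right h7 hlog0
    linarith
  have h9 : 0 ≤ (K' : ℝ) * Real.log N := mul_nonneg hKr hlog0
  rw [abs_le]
  constructor <;> linarith

lemma min_trunc (n l t δ : ℕ) :
    min (n : ℝ) ((min l n : ℕ) + L n (min t n + δ)) = min (n : ℝ) (l + L n (t + δ)) := by
  have ht : L n (min t n + δ) = L n (t + δ) := by
    rcases le_total t n with h | h
    · rw [min_eq_left h]
    · rw [min_eq_right h, L_eq (show n ≤ n + δ by omega), L_eq (show n ≤ t + δ by omega)]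
  rw [ht]
  rcases le_total l n with h | h
  · rw [min_eq_left h]
  · rw [min_eq_right h]
    have h1 := L_nonneg n (t + δ)
    have h2 : (n : ℝ) ≤ l := by exact_mod_cast h
    rw [min_eq_left (by linarith), min_eq_left (by linarith)]

/-- The same without restrictions on the parameters. -/
theorem blocks' {U : List Bool →. List Bool} (hU : Optimal U) :
    ∃ c : ℝ, ∀ (r : ℕ) (ν l t : Fin r → ℕ), 2 ≤ ∑ i, ν i →
      ∃ x : Fin (∑ i, ν i) → Bool, ∀ d ≤ ∑ i, ν i,
        |(M U x d : ℝ) -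
          sSup {a : ℝ | ∃ δ : Fin r → ℕ, ∑ i, δ i ≤ d ∧
            a = ∑ i, min (ν i : ℝ) (l i + L (ν i) (t i + δ i))}| ≤
            c * r * Real.log (∑ i, ν i : ℕ) := by
  obtain ⟨c, hc⟩ := blocks hU
  refine ⟨c, fun r ν l t hN => ?_⟩
  obtain ⟨x, hx⟩ := hc r ν (fun i => min (l i) (ν i)) (fun i => min (t i) (ν i)) hN
    (fun i => min_le_right _ _) (fun i => min_le_right _ _)
  refine ⟨x, fun d hd => ?_⟩
  have h := hx d hd
  simp only [min_trunc] at h
  exact h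

end Blk

end Pool.Agent.Lib.MP_f4f1a8_lc
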