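import Pool.Agent.Lib.MP_f4f1a8_lc.PNbr

/-!
# MP_f4f1a8_lc, block family: subadditivity of complexity for concatenations of known lengths
-/

namespace Pool.Agent.Lib.MP_f4f1a8_lc

namespace Blk

open Finset

/-- Stage `k` of the enumeration of the concatenations `u ++ v` of strings of given lengths
and bounded complexities; the four parameters are coded by `p`. -/
def QCat (E : ℕ → List Bool → ℕ → Prop) (p : ℕ) (y : List Bool) (k : ℕ) : Prop :=
  ∃ u ∈ strs p.unpair.1.unpair.1, ∃ v ∈ strs p.unpair.1.unpair.2,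
    y = u ++ v ∧ E p.unpair.2.unpair.1 u k ∧ E p.unpair.2.unpair.2 v k

theorem primrecPred_QCat {E : ℕ → List Bool → ℕ → Prop}
    (hE : PrimrecPred (fun a : ℕ × List Bool × ℕ => E a.1 a.2.1 a.2.2)) :
    PrimrecPred (fun a : ℕ × List Bool × ℕ => QCat E a.1 a.2.1 a.2.2) := by
  classical
  have hfst : Primrec (fun p : ℕ => p.unpair.1) := Primrec.fst.comp Primrec.unpair
  have hsnd : Primrec (fun p : ℕ => p.unpair.2) := Primrec.snd.comp Primrec.unpair
  -- innermost, parameters `b = (u, p, y, k)`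
  have hR : PrimrecRel (fun (v : List Bool) (b : List Bool × ℕ × List Bool × ℕ) =>
      b.2.2.1 = b.1 ++ v ∧ E b.2.1.unpair.2.unpair.1 b.1 b.2.2.2 ∧
        E b.2.1.unpair.2.unpair.2 v b.2.2.2) := by
    refine PrimrecPred.and ?_ (PrimrecPred.and ?_ ?_)
    · refine Primrec.eq.comp ?_ ?_
      · exact Primrec.fst.comp (Primrec.snd.comp (Primrec.snd.comp Primrec.snd))
      · exact Primrec.list_append.comp (Primrec.fst.comp Primrec.snd) Primrec.fst
    · exact hE.comp (Primrec.pair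
        (hfst.comp (hsnd.comp (Primrec.fst.comp (Primrec.snd.comp Primrec.snd))))
        (Primrec.pair (Primrec.fst.comp Primrec.snd)
          (Primrec.snd.comp (Primrec.snd.comp (Primrec.snd.comp Primrec.snd)))))
    · exact hE.comp (Primrec.pair
        (hsnd.comp (hsnd.comp (Primrec.fst.comp (Primrec.snd.comp Primrec.snd))))
        (Primrec.pair Primrec.fst
          (Primrec.snd.comp (Primrec.snd.comp (Primrec.snd.comp Primrec.snd)))))
  have hR1 : PrimrecRel (fun (u : List Bool) (a : ℕ × List Bool × ℕ) =>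
      ∃ v ∈ strs a.1.unpair.1.unpair.2, a.2.1 = u ++ v ∧
        E a.1.unpair.2.unpair.1 u a.2.2 ∧ E a.1.unpair.2.unpair.2 v a.2.2) := by
    exact hR.exists_mem_list.comp
      (primrec_strs.comp (hsnd.comp (hfst.comp (Primrec.fst.comp Primrec.snd))))
      (Primrec.pair Primrec.fst Primrec.snd)
  exact hR1.exists_mem_list.comp
    (primrec_strs.comp (hfst.comp (hfst.comp Primrec.fst))) Primrec.id

theorem subadd {U : List Bool →. List Bool} (hU : Optimal U) :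
    ∃ c : ℕ, ∀ (n₁ n₂ s m₁ m₂ : ℕ) (y₁ : Fin n₁ → Bool) (y₂ : Fin n₂ → Bool),
      n₁ < 2 ^ s → n₂ < 2 ^ s → m₁ < 2 ^ s → m₂ < 2 ^ s →
      C U (List.ofFn y₁) ≤ m₁ → C U (List.ofFn y₂) ≤ m₂ →
      C U (List.ofFn y₁ ++ List.ofFn y₂) ≤ m₁ + m₂ + 8 * s + c := by
  classical
  obtain ⟨E, hEp, hEmono, hE⟩ := exists_stage hU
  obtain ⟨c, hc⟩ := description hU (QCat E) (primrecPred_QCat hEp)
  refine ⟨c + 2, ?_⟩
  intro n₁ n₂ s m₁ m₂ y₁ y₂ hn₁ hn₂ hm₁ hm₂ h₁ h₂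
  set p := Nat.pair (Nat.pair n₁ n₂) (Nat.pair m₁ m₂) with hp
  have hplt : p < 2 ^ (4 * s) := by
    have := pair_lt_two_pow (pair_lt_two_pow hn₁ hn₂) (pair_lt_two_pow hm₁ hm₂)
    have e : 2 * (2 * s) = 4 * s := by ring
    rwa [e] at this
  have hQ : ∀ y' k, QCat E p y' k ↔ ∃ u ∈ strs n₁, ∃ v ∈ strs n₂,
      y' = u ++ v ∧ E m₁ u k ∧ E m₂ v k := by
    intro y' k
    simp only [QCat, hp, Nat.unpair_pair]
  set F₁ : Finset (Fin n₁ → Bool) := univ.filter (fun y => C U (List.ofFn y) ≤ m₁) with hF₁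
  set F₂ : Finset (Fin n₂ → Bool) := univ.filter (fun y => C U (List.ofFn y) ≤ m₂) with hF₂
  have hc₁ : F₁.card ≤ 2 ^ (m₁ + 1) := by
    refine (card_lt_of_C hU F₁ (m₁ + 1) ?_).le
    intro y hy
    exact Nat.lt_succ_of_le (mem_filter.1 hy).2
  have hc₂ : F₂.card ≤ 2 ^ (m₂ + 1) := by
    refine (card_lt_of_C hU F₂ (m₂ + 1) ?_).le
    intro y hy
    exact Nat.lt_succ_of_le (mem_filter.1 hy).2
  set F : Finset (List Bool) :=
    (F₁ ×ˢ F₂).image (fun q => List.ofFn q.1 ++ List.ofFn q.2) with hF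
  have hFc : F.card ≤ 2 ^ (m₁ + m₂ + 2) := by
    refine card_image_le.trans ?_
    rw [card_product]
    calc F₁.card * F₂.card ≤ 2 ^ (m₁ + 1) * 2 ^ (m₂ + 1) := Nat.mul_le_mul hc₁ hc₂
      _ = 2 ^ (m₁ + m₂ + 2) := by ring
  have key := hc (4 * s) (m₁ + m₂ + 2) p (List.ofFn y₁ ++ List.ofFn y₂) F hplt ?_ ?_ hFc
  · omega
  · obtain ⟨k₁, hk₁⟩ := (hE m₁ _).1 h₁
    obtain ⟨k₂, hk₂⟩ := (hE m₂ _).1 h₂
    refine ⟨max k₁ k₂, (hQ _ _).2 ⟨List.ofFn y₁, mem_strs.2 List.length_ofFn, List.ofFn y₂,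
      mem_strs.2 List.length_ofFn, rfl, ?_, ?_⟩⟩
    · exact hEmono _ _ _ _ (le_max_left _ _) hk₁
    · exact hEmono _ _ _ _ (le_max_right _ _) hk₂
  · intro y' k hk
    obtain ⟨u, hu, v, hv, rfl, hu', hv'⟩ := (hQ _ _).1 hk
    have hul := mem_strs.1 hu
    have hvl := mem_strs.1 hv
    subst hul
    subst hvl
    refine mem_image.2 ⟨(fun i => u.get i, fun i => v.get i), ?_, ?_⟩
    · refine mem_product.2 ⟨?_, ?_⟩
      · refine mem_filter.2 ⟨mem_univ _, ?_⟩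
        simp only [List.ofFn_get]
        exact (hE _ _).2 ⟨k, hu'⟩
      · refine mem_filter.2 ⟨mem_univ _, ?_⟩
        simp only [List.ofFn_get]
        exact (hE _ _).2 ⟨k, hv'⟩
    · simp only [List.ofFn_get]

end Blk

end Pool.Agent.Lib.MP_f4f1a8_lc
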