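import Pool.Agent.Lib.MP_f4f1a8_lc.BlkBase
import Pool.Agent.Lib.MP_f4f1a8_lc.BlkSub

/-!
# MP_f4f1a8_lc, block family: products of systems
-/

namespace Pool.Agent.Lib.MP_f4f1a8_lc

namespace Blk

open Finset SelectAux

lemma hammingDist_append {n₁ n₂ : ℕ} (x₁ y₁ : Fin n₁ → Bool) (x₂ y₂ : Fin n₂ → Bool) :
    hammingDist (Fin.append x₁ x₂) (Fin.append y₁ y₂) =
      hammingDist x₁ y₁ + hammingDist x₂ y₂ := by
  unfold hammingDist
  rw [card_filter, card_filter, card_filter, Fin.sum_univ_add]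
  simp

lemma exists_append {n₁ n₂ : ℕ} (y : Fin (n₁ + n₂) → Bool) :
    ∃ (y₁ : Fin n₁ → Bool) (y₂ : Fin n₂ → Bool), y = Fin.append y₁ y₂ :=
  ⟨fun i => y (Fin.castAdd n₂ i), fun i => y (Fin.natAdd n₁ i),
    (Fin.append_castAdd_natAdd).symm⟩

lemma append_inj {n₁ n₂ : ℕ} {x₁ y₁ : Fin n₁ → Bool} {x₂ y₂ : Fin n₂ → Bool}
    (h : Fin.append x₁ x₂ = Fin.append y₁ y₂) : x₁ = y₁ ∧ x₂ = y₂ := by
  constructor
  · funext i
    have := congrFun h (Fin.castAdd n₂ i)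
    simpa using this
  · funext i
    have := congrFun h (Fin.natAdd n₁ i)
    simpa using this

/-- The part of `S` over the first block `y₁`. -/
def fib {n₁ n₂ : ℕ} (S : Finset (Fin (n₁ + n₂) → Bool)) (y₁ : Fin n₁ → Bool) :
    Finset (Fin n₂ → Bool) :=
  univ.filter (fun y₂ => Fin.append y₁ y₂ ∈ S)

lemma sum_fib_le {n₁ n₂ : ℕ} (S : Finset (Fin (n₁ + n₂) → Bool))
    (H : Finset (Fin n₁ → Bool)) : ∑ y₁ ∈ H, (fib S y₁).card ≤ S.card := by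
  rw [← card_sigma]
  apply card_le_card_of_injOn
    (fun q : Σ _ : (Fin n₁ → Bool), (Fin n₂ → Bool) => Fin.append q.1 q.2)
  · intro q hq
    rw [mem_coe, mem_sigma] at hq
    exact (mem_filter.1 hq.2).2
  · intro q _ q' _ h
    obtain ⟨h1, h2⟩ := append_inj h
    rcases q with ⟨a, b⟩
    rcases q' with ⟨a', b'⟩
    simp only at h1 h2
    subst h1
    subst h2
    rfl

theorem prod {U : List Bool →. List Bool} (hU : Optimal U) :
    ∃ c : ℕ, ∀ (N K₁ K₂ n₁ n₂ : ℕ) (A₁ A₂ B : ℕ → ℝ), 2 ≤ N → n₁ + n₂ ≤ N →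
      (∀ d₁ d₂, A₁ d₁ + A₂ d₂ ≤ B (d₁ + d₂)) →
      (∀ d, ∃ d₁ d₂, d₁ + d₂ = d ∧ B d = A₁ d₁ + A₂ d₂) →
      Sys U N K₁ n₁ A₁ → Sys U N K₂ n₂ A₂ → Sys U N (K₁ + K₂ + c) (n₁ + n₂) B := by
  classical
  obtain ⟨c₀, hc₀⟩ := C_le_length hU
  obtain ⟨c₁, hc₁⟩ := subadd hU
  obtain ⟨cs, hcs0, hcs⟩ := NL_exists_s c₀
  obtain ⟨c, hc⟩ := exists_nat_ge (8 * cs + 2 * (c₁ : ℝ) + 4)
  refine ⟨c, ?_⟩
  intro N K₁ K₂ n₁ n₂ A₁ A₂ B hN hn hB1 hB2 hS₁ hS₂ Bad hBad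
  have hl1 := one_le_log hN
  have hl0 : 0 ≤ Real.log N := by linarith
  have hcc1 : (0 : ℝ) ≤ c₁ := by positivity
  have hc4 : 4 ≤ c := by
    have : (4 : ℝ) ≤ c := by linarith
    exact_mod_cast this
  have hN2 : (2 : ℝ) ≤ N := by exact_mod_cast hN
  have hN0 : (0 : ℝ) < N := by linarith
  choose δ₁ δ₂ hδ hBδ using hB2
  set K := K₁ + K₂ + c with hK
  have hNK : (0 : ℝ) < (N : ℝ) ^ K := by positivity
  set θ : ℝ := 2 * (N : ℝ) ^ (K₂ + 1) with hθ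
  have hθ0 : 0 < θ := by positivity
  -- the heavy first parts
  set H : ℕ → Finset (Fin n₁ → Bool) := fun d =>
    univ.filter (fun y₁ => (2 : ℝ) ^ (A₂ (δ₂ d)) < ((fib (Bad d) y₁).card : ℝ) * θ) with hH
  have hHcard : ∀ d ≤ N, ((H d).card : ℝ) * (N : ℝ) ^ K ≤ (2 : ℝ) ^ (A₁ (δ₁ d)) * θ := by
    intro d hd
    have h1 : ((H d).card : ℝ) * (2 : ℝ) ^ (A₂ (δ₂ d)) ≤ ((Bad d).card : ℝ) * θ := by
      calc ((H d).card : ℝ) * (2 : ℝ) ^ (A₂ (δ₂ d))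
          = ∑ _y₁ ∈ H d, (2 : ℝ) ^ (A₂ (δ₂ d)) := by rw [sum_const, nsmul_eq_mul]
        _ ≤ ∑ y₁ ∈ H d, ((fib (Bad d) y₁).card : ℝ) * θ := by
            apply Finset.sum_le_sum
            intro y₁ hy₁
            exact (mem_filter.1 hy₁).2.le
        _ = (∑ y₁ ∈ H d, ((fib (Bad d) y₁).card : ℝ)) * θ := by rw [Finset.sum_mul]
        _ ≤ ((Bad d).card : ℝ) * θ := by
            apply mul_le_mul_of_nonneg_right _ hθ0.le
            exact_mod_cast sum_fib_le (Bad d) (H d)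
    have h2 := hBad d hd
    have h3 : (2 : ℝ) ^ (B d) = (2 : ℝ) ^ (A₁ (δ₁ d)) * (2 : ℝ) ^ (A₂ (δ₂ d)) := by
      rw [hBδ d, Real.rpow_add (by norm_num)]
    have h4 : (0 : ℝ) < (2 : ℝ) ^ (A₂ (δ₂ d)) := by positivity
    have h5 : (((H d).card : ℝ) * (N : ℝ) ^ K) * (2 : ℝ) ^ (A₂ (δ₂ d)) ≤
        ((2 : ℝ) ^ (A₁ (δ₁ d)) * θ) * (2 : ℝ) ^ (A₂ (δ₂ d)) := by
      calc (((H d).card : ℝ) * (N : ℝ) ^ K) * (2 : ℝ) ^ (A₂ (δ₂ d))
          = (((H d).card : ℝ) * (2 : ℝ) ^ (A₂ (δ₂ d))) * (N : ℝ) ^ K := by ring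
        _ ≤ (((Bad d).card : ℝ) * θ) * (N : ℝ) ^ K := mul_le_mul_of_nonneg_right h1 hNK.le
        _ = (((Bad d).card : ℝ) * (N : ℝ) ^ K) * θ := by ring
        _ ≤ (2 : ℝ) ^ (B d) * θ := mul_le_mul_of_nonneg_right h2 hθ0.le
        _ = ((2 : ℝ) ^ (A₁ (δ₁ d)) * θ) * (2 : ℝ) ^ (A₂ (δ₂ d)) := by rw [h3]; ring
    exact le_of_mul_le_mul_right h5 h4
  set Bad₁ : ℕ → Finset (Fin n₁ → Bool) := fun e =>
    ((range (N + 1)).filter (fun d => δ₁ d = e)).biUnion H with hBad₁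
  have hBad₁c : ∀ e ≤ N, ((Bad₁ e).card : ℝ) * (N : ℝ) ^ K₁ ≤ (2 : ℝ) ^ (A₁ e) := by
    intro e _
    have h3 : ((Bad₁ e).card : ℝ) * (N : ℝ) ^ K ≤ (N + 1) * ((2 : ℝ) ^ (A₁ e) * θ) := by
      have h4 : ((Bad₁ e).card : ℝ) ≤
          ∑ d ∈ (range (N + 1)).filter (fun d => δ₁ d = e), ((H d).card : ℝ) := by
        exact_mod_cast card_biUnion_le
      calc ((Bad₁ e).card : ℝ) * (N : ℝ) ^ K
          ≤ (∑ d ∈ (range (N + 1)).filter (fun d => δ₁ d = e), ((H d).card : ℝ)) *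
              (N : ℝ) ^ K := mul_le_mul_of_nonneg_right h4 hNK.le
        _ = ∑ d ∈ (range (N + 1)).filter (fun d => δ₁ d = e),
              ((H d).card : ℝ) * (N : ℝ) ^ K := by rw [Finset.sum_mul]
        _ ≤ ∑ d ∈ (range (N + 1)).filter (fun d => δ₁ d = e), (2 : ℝ) ^ (A₁ e) * θ := by
            apply Finset.sum_le_sum
            intro d hd
            rw [mem_filter, mem_range] at hd
            have := hHcard d (by omega)
            rwa [hd.2] at this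
        _ ≤ ∑ d ∈ range (N + 1), (2 : ℝ) ^ (A₁ e) * θ := by
            apply Finset.sum_le_sum_of_subset_of_nonneg (filter_subset _ _)
            intro _ _ _
            positivity
        _ = (N + 1) * ((2 : ℝ) ^ (A₁ e) * θ) := by
            rw [Finset.sum_const, card_range, nsmul_eq_mul]; push_cast; ring
    have h6 : ((N : ℝ) + 1) * θ ≤ (N : ℝ) ^ (K₂ + c) := by
      have h7 : (N : ℝ) ^ (K₂ + 4) ≤ (N : ℝ) ^ (K₂ + c) := pow_ge_of_le hN (by omega)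
      refine le_trans ?_ h7
      have e1 : ((N : ℝ) + 1) * 2 ≤ (N : ℝ) ^ 3 := by
        have : (N : ℝ) ^ 3 = N * (N * N) := by ring
        nlinarith [mul_le_mul hN2 hN2 (by norm_num) hN0.le]
      calc ((N : ℝ) + 1) * θ = (((N : ℝ) + 1) * 2) * (N : ℝ) ^ (K₂ + 1) := by rw [hθ]; ring
        _ ≤ (N : ℝ) ^ 3 * (N : ℝ) ^ (K₂ + 1) := mul_le_mul_of_nonneg_right e1 (by positivity)
        _ = (N : ℝ) ^ (K₂ + 4) := by ring
    have hpos : (0 : ℝ) < (N : ℝ) ^ (K₂ + c) := by positivity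
    have h8 : (((Bad₁ e).card : ℝ) * (N : ℝ) ^ K₁) * (N : ℝ) ^ (K₂ + c) ≤
        (2 : ℝ) ^ (A₁ e) * (N : ℝ) ^ (K₂ + c) := by
      calc (((Bad₁ e).card : ℝ) * (N : ℝ) ^ K₁) * (N : ℝ) ^ (K₂ + c)
          = ((Bad₁ e).card : ℝ) * (N : ℝ) ^ K := by rw [hK]; ring
        _ ≤ (N + 1) * ((2 : ℝ) ^ (A₁ e) * θ) := h3
        _ = (2 : ℝ) ^ (A₁ e) * (((N : ℝ) + 1) * θ) := by ring
        _ ≤ (2 : ℝ) ^ (A₁ e) * (N : ℝ) ^ (K₂ + c) :=
            mul_le_mul_of_nonneg_left h6 (by positivity)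
    exact le_of_mul_le_mul_right h8 hpos
  obtain ⟨x₁, hx₁u, hx₁⟩ := hS₁ Bad₁ hBad₁c
  choose! Y₁ hY₁d hY₁ using hx₁
  have hfib : ∀ d ≤ N, ((fib (Bad d) (Y₁ (δ₁ d))).card : ℝ) * θ ≤ (2 : ℝ) ^ (A₂ (δ₂ d)) := by
    intro d hd
    have h1 : δ₁ d ≤ N := by have := hδ d; omega
    by_contra hcon
    push Not at hcon
    refine hY₁ _ h1 ?_
    exact mem_biUnion.2 ⟨d, mem_filter.2 ⟨mem_range.2 (by omega), rfl⟩,
      mem_filter.2 ⟨mem_univ _, hcon⟩⟩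
  set Bad₂ : ℕ → Finset (Fin n₂ → Bool) := fun e =>
    ((range (N + 1)).filter (fun d => δ₂ d = e)).biUnion
      (fun d => fib (Bad d) (Y₁ (δ₁ d))) with hBad₂
  have hBad₂c : ∀ e ≤ N, ((Bad₂ e).card : ℝ) * (N : ℝ) ^ K₂ ≤ (2 : ℝ) ^ (A₂ e) := by
    intro e _
    have h3 : ((Bad₂ e).card : ℝ) * θ ≤ (N + 1) * (2 : ℝ) ^ (A₂ e) := by
      have h4 : ((Bad₂ e).card : ℝ) ≤
          ∑ d ∈ (range (N + 1)).filter (fun d => δ₂ d = e),
            ((fib (Bad d) (Y₁ (δ₁ d))).card : ℝ) := by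
        exact_mod_cast card_biUnion_le
      calc ((Bad₂ e).card : ℝ) * θ
          ≤ (∑ d ∈ (range (N + 1)).filter (fun d => δ₂ d = e),
            ((fib (Bad d) (Y₁ (δ₁ d))).card : ℝ)) * θ :=
            mul_le_mul_of_nonneg_right h4 hθ0.le
        _ = ∑ d ∈ (range (N + 1)).filter (fun d => δ₂ d = e),
            ((fib (Bad d) (Y₁ (δ₁ d))).card : ℝ) * θ := by rw [Finset.sum_mul]
        _ ≤ ∑ d ∈ (range (N + 1)).filter (fun d => δ₂ d = e), (2 : ℝ) ^ (A₂ e) := by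
            apply Finset.sum_le_sum
            intro d hd
            rw [mem_filter, mem_range] at hd
            have := hfib d (by omega)
            rwa [hd.2] at this
        _ ≤ ∑ d ∈ range (N + 1), (2 : ℝ) ^ (A₂ e) := by
            apply Finset.sum_le_sum_of_subset_of_nonneg (filter_subset _ _)
            intro _ _ _
            positivity
        _ = (N + 1) * (2 : ℝ) ^ (A₂ e) := by
            rw [Finset.sum_const, card_range, nsmul_eq_mul]; push_cast; ring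
    have h2N : (0 : ℝ) < 2 * N := by linarith
    have hp : (0 : ℝ) < (2 : ℝ) ^ (A₂ e) := by positivity
    have h8 : (((Bad₂ e).card : ℝ) * (N : ℝ) ^ K₂) * (2 * N) ≤ (2 : ℝ) ^ (A₂ e) * (2 * N) := by
      calc (((Bad₂ e).card : ℝ) * (N : ℝ) ^ K₂) * (2 * N) = ((Bad₂ e).card : ℝ) * θ := by
            rw [hθ]; ring
        _ ≤ (N + 1) * (2 : ℝ) ^ (A₂ e) := h3
        _ ≤ (2 * N) * (2 : ℝ) ^ (A₂ e) := mul_le_mul_of_nonneg_right (by linarith) hp.le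
        _ = (2 : ℝ) ^ (A₂ e) * (2 * N) := by ring
    exact le_of_mul_le_mul_right h8 h2N
  obtain ⟨x₂, hx₂u, hx₂⟩ := hS₂ Bad₂ hBad₂c
  choose! Y₂ hY₂d hY₂ using hx₂
  refine ⟨Fin.append x₁ x₂, ?_, ?_⟩
  · intro y
    obtain ⟨y₁, y₂, rfl⟩ := exists_append y
    rw [hammingDist_append, List.ofFn_fin_append]
    obtain ⟨s, hs, hs'⟩ := hcs N hN
    have hC₁ : C U (List.ofFn y₁) ≤ n₁ + c₀ := by
      have := hc₀ (List.ofFn y₁)
      rwa [List.length_ofFn] at this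
    have hC₂ : C U (List.ofFn y₂) ≤ n₂ + c₀ := by
      have := hc₀ (List.ofFn y₂)
      rwa [List.length_ofFn] at this
    have h1 := hc₁ n₁ n₂ s _ _ y₁ y₂ (by omega) (by omega) (by omega) (by omega)
      (le_refl (C U (List.ofFn y₁))) (le_refl (C U (List.ofFn y₂)))
    have h2 : (C U (List.ofFn y₁ ++ List.ofFn y₂) : ℝ) ≤
        C U (List.ofFn y₁) + C U (List.ofFn y₂) + 8 * s + c₁ := by exact_mod_cast h1
    have h3 := hx₁u y₁
    have h4 := hx₂u y₂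
    have h5 := hB1 (hammingDist x₁ y₁) (hammingDist x₂ y₂)
    have h6 : (c₁ : ℝ) ≤ 2 * c₁ * Real.log N := by nlinarith
    have h7 : (8 * cs + 2 * (c₁ : ℝ) + 4) * Real.log N ≤ c * Real.log N :=
      mul_le_mul_of_nonneg_right hc hl0
    have h8 : ((K : ℕ) : ℝ) * Real.log N =
        K₁ * Real.log N + K₂ * Real.log N + c * Real.log N := by
      rw [hK]; push_cast; ring
    rw [h8]
    nlinarith
  · intro d hd
    have h1 : δ₁ d ≤ N := by have := hδ d; omega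
    have h2 : δ₂ d ≤ N := by have := hδ d; omega
    refine ⟨Fin.append (Y₁ (δ₁ d)) (Y₂ (δ₂ d)), ?_, ?_⟩
    · rw [hammingDist_append]
      have h3 := hY₁d _ h1
      have h4 := hY₂d _ h2
      have := hδ d
      omega
    · intro hmem
      refine hY₂ _ h2 ?_
      exact mem_biUnion.2 ⟨d, mem_filter.2 ⟨mem_range.2 (by omega), rfl⟩,
        mem_filter.2 ⟨mem_univ _, hmem⟩⟩

end Blk

end Pool.Agent.Lib.MP_f4f1a8_lc
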