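import Pool.Agent.Lib.MP_f4f1a8_lc.Vol

namespace Pool.Agent.Lib.MP_f4f1a8_lc

open Finset

/-- Flip the coordinates of `x` in `e`. -/
def flipAt {n : ℕ} (x : Fin n → Bool) (e : Finset (Fin n)) : Fin n → Bool :=
  fun i => if i ∈ e then !(x i) else x i

theorem flipAt_injective {n : ℕ} (x : Fin n → Bool) : Function.Injective (flipAt x) := by
  intro e f h
  ext i
  have := congrFun h i
  unfold flipAt at this
  by_cases h1 : i ∈ e <;> by_cases h2 : i ∈ f <;> simp [h1, h2] at this ⊢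

theorem hammingDist_flipAt {n : ℕ} (x : Fin n → Bool) (e : Finset (Fin n)) :
    hammingDist x (flipAt x e) = e.card := by
  unfold hammingDist
  congr 1
  ext i
  unfold flipAt
  by_cases h1 : i ∈ e <;> simp [h1]

theorem hammingDist_flipAt_flipAt {n : ℕ} (x : Fin n → Bool) {e f : Finset (Fin n)}
    (h : e ⊆ f) : hammingDist (flipAt x e) (flipAt x f) = f.card - e.card := by
  rw [← Finset.card_sdiff_of_subset h]
  unfold hammingDist
  congr 1
  ext i
  unfold flipAt
  by_cases h1 : i ∈ e <;> by_cases h2 : i ∈ f <;> simp [h1, h2]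
  exact h2 (h h1)

/-- number of supersets of `e` of size `ρ` -/
theorem card_supersets {n t ρ : ℕ} (e : Finset (Fin n)) (he : e.card = t) (htρ : t ≤ ρ) :
    (n - t).choose (ρ - t) ≤
      ((powersetCard ρ (univ : Finset (Fin n))).filter (fun f => e ⊆ f)).card := by
  have h1 : (n - t).choose (ρ - t) = (powersetCard (ρ - t) (univ \ e)).card := by
    rw [card_powersetCard, card_sdiff_of_subset (subset_univ _), card_univ, Fintype.card_fin, he]
  rw [h1]
  apply Finset.card_le_card_of_injOn (fun f => f ∪ e)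
  · intro f hf
    rw [mem_coe, mem_powersetCard] at hf
    rw [mem_coe, mem_filter, mem_powersetCard]
    have hd : Disjoint f e := by
      rw [Finset.disjoint_left]
      intro a ha
      exact (mem_sdiff.1 (hf.1 ha)).2
    refine ⟨⟨subset_univ _, ?_⟩, subset_union_right⟩
    rw [card_union_of_disjoint hd, hf.2, he]
    omega
  · intro f hf g hg hfg
    rw [mem_coe, mem_powersetCard] at hf hg
    have hd : ∀ f : Finset (Fin n), f ⊆ univ \ e → (f ∪ e) \ e = f := by
      intro f hf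
      ext a
      simp only [mem_sdiff, mem_union]
      constructor
      · rintro ⟨h1 | h1, h2⟩
        · exact h1
        · exact absurd h1 h2
      · intro ha
        exact ⟨Or.inl ha, (mem_sdiff.1 (hf ha)).2⟩
    rw [← hd f hf.1, ← hd g hg.1]
    simp only at hfg
    rw [hfg]

/-- The pairs `(i, e)` all of whose extensions of size `ρ` are bad. -/
def badPairs {n l : ℕ} (c : Fin (2 ^ l) → (Fin n → Bool)) (t ρ : ℕ)
    (B : Finset (Fin n → Bool)) : Finset (Fin (2 ^ l) × Finset (Fin n)) :=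
  ((univ : Finset (Fin (2 ^ l))) ×ˢ powersetCard t (univ : Finset (Fin n))).filter
    (fun p => ∀ f ∈ powersetCard ρ (univ : Finset (Fin n)), p.2 ⊆ f → flipAt (c p.1) f ∈ B)

/-- The pairs `(i, f)` with `|f| = ρ` leading to a bad point. -/
def badExt {n l : ℕ} (c : Fin (2 ^ l) → (Fin n → Bool)) (ρ : ℕ)
    (B : Finset (Fin n → Bool)) : Finset (Fin (2 ^ l) × Finset (Fin n)) :=
  ((univ : Finset (Fin (2 ^ l))) ×ˢ powersetCard ρ (univ : Finset (Fin n))).filter
    (fun p => flipAt (c p.1) p.2 ∈ B)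

theorem card_badPairs_mul_le {n l t ρ : ℕ} (htρ : t ≤ ρ) (c : Fin (2 ^ l) → (Fin n → Bool))
    (B : Finset (Fin n → Bool)) :
    (badPairs c t ρ B).card * (n - t).choose (ρ - t) ≤ (badExt c ρ B).card * ρ.choose t := by
  apply Finset.card_mul_le_card_mul (fun p q => p.1 = q.1 ∧ p.2 ⊆ q.2)
  · intro p hp
    unfold badPairs at hp
    rw [mem_filter, mem_product] at hp
    have he : p.2.card = t := (mem_powersetCard.1 hp.1.2).2
    refine (card_supersets p.2 he htρ).trans ?_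
    apply Finset.card_le_card_of_injOn (fun f => (p.1, f))
    · intro f hf
      rw [mem_coe, mem_filter] at hf
      rw [mem_coe, mem_bipartiteAbove]
      unfold badExt
      rw [mem_filter, mem_product]
      exact ⟨⟨⟨mem_univ _, hf.1⟩, hp.2 f hf.1 hf.2⟩, rfl, hf.2⟩
    · intro f _ g _ h
      exact (Prod.mk.inj h).2
  · intro q hq
    unfold badExt at hq
    rw [mem_filter, mem_product] at hq
    have he : q.2.card = ρ := (mem_powersetCard.1 hq.1.2).2
    have h1 : ρ.choose t = (powersetCard t q.2).card := by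
      rw [card_powersetCard, he]
    rw [h1]
    apply Finset.card_le_card_of_injOn (fun p => p.2)
    · intro p hp
      rw [mem_coe, mem_bipartiteBelow] at hp
      unfold badPairs at hp
      rw [mem_filter, mem_product] at hp
      rw [mem_coe, mem_powersetCard]
      exact ⟨hp.2.2, (mem_powersetCard.1 hp.1.1.2).2⟩
    · intro p hp p' hp' h
      rw [mem_coe, mem_bipartiteBelow] at hp hp'
      exact Prod.ext (hp.2.1.trans hp'.2.1.symm) h

theorem card_badExt_le {n l ρ : ℕ} (c : Fin (2 ^ l) → (Fin n → Bool))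
    (B : Finset (Fin n → Bool)) :
    (badExt c ρ B).card ≤
      ∑ y ∈ B, (univ.filter (fun i => hammingDist (c i) y ≤ ρ)).card := by
  rw [← Finset.card_sigma]
  apply Finset.card_le_card_of_injOn
    (fun p => (⟨flipAt (c p.1) p.2, p.1⟩ : Σ _ : (Fin n → Bool), Fin (2 ^ l)))
  · intro p hp
    rw [mem_coe] at hp
    unfold badExt at hp
    rw [mem_filter, mem_product] at hp
    rw [mem_coe, mem_sigma]
    refine ⟨hp.2, ?_⟩
    rw [mem_filter]
    refine ⟨mem_univ _, ?_⟩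
    rw [hammingDist_flipAt]
    exact (mem_powersetCard.1 hp.1.2).2.le
  · intro p _ q _ h
    have h1 : p.1 = q.1 := by
      have := congrArg Sigma.snd h
      exact this
    have h2 : flipAt (c p.1) p.2 = flipAt (c q.1) q.2 := congrArg Sigma.fst h
    rw [h1] at h2
    exact Prod.ext h1 (flipAt_injective _ h2)

theorem card_badPairs_le {n l t ρ : ℕ} (htρ : t ≤ ρ) (hρ : 2 * ρ ≤ n)
    (c : Fin (2 ^ l) → (Fin n → Bool)) (hc : IsCode c) (B : Finset (Fin n → Bool))
    (hB : B.card * (8 * (n + 1) ^ 3) ≤ min (2 ^ l * vol n ρ) (2 ^ n)) :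
    4 * (n + 1) * (badPairs c t ρ B).card ≤ 2 ^ l * n.choose t := by
  have h1 := card_badPairs_mul_le htρ c B
  have h2 := card_badExt_le (ρ := ρ) c B
  have h3 : 2 ^ n * (badExt c ρ B).card ≤ B.card * (2 * n * 2 ^ n + 2 * 2 ^ l * vol n ρ) := by
    calc 2 ^ n * (badExt c ρ B).card
        ≤ 2 ^ n * ∑ y ∈ B, (univ.filter (fun i => hammingDist (c i) y ≤ ρ)).card :=
          Nat.mul_le_mul_left _ h2
      _ = ∑ y ∈ B, 2 ^ n * (univ.filter (fun i => hammingDist (c i) y ≤ ρ)).card := by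
          rw [Finset.mul_sum]
      _ ≤ ∑ y ∈ B, (2 * n * 2 ^ n + 2 * 2 ^ l * vol n ρ) :=
          Finset.sum_le_sum (fun y _ => hc y ρ)
      _ = B.card * (2 * n * 2 ^ n + 2 * 2 ^ l * vol n ρ) := by
          rw [Finset.sum_const, smul_eq_mul]
  have hB1 : B.card * (8 * (n + 1) ^ 3) ≤ 2 ^ l * vol n ρ := hB.trans (min_le_left _ _)
  have hB2 : B.card * (8 * (n + 1) ^ 3) ≤ 2 ^ n := hB.trans (min_le_right _ _)
  have hV := vol_le_choose hρ
  -- 4(n+1)^2 |B| (2n 2^n + 2 2^l V) ≤ 2^l V 2^n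
  have h4 : 4 * (n + 1) ^ 2 * (B.card * (2 * n * 2 ^ n + 2 * 2 ^ l * vol n ρ)) ≤
      2 ^ l * vol n ρ * 2 ^ n := by
    have e1 : (n + 1) * (4 * (n + 1) ^ 2 * (B.card * (2 * n * 2 ^ n + 2 * 2 ^ l * vol n ρ))) =
        n * 2 ^ n * (B.card * (8 * (n + 1) ^ 3)) +
          2 ^ l * vol n ρ * (B.card * (8 * (n + 1) ^ 3)) := by ring
    have e2 : n * 2 ^ n * (B.card * (8 * (n + 1) ^ 3)) +
          2 ^ l * vol n ρ * (B.card * (8 * (n + 1) ^ 3)) ≤
        n * 2 ^ n * (2 ^ l * vol n ρ) + 2 ^ l * vol n ρ * 2 ^ n :=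
      Nat.add_le_add (Nat.mul_le_mul_left _ hB1) (Nat.mul_le_mul_left _ hB2)
    have e3 : n * 2 ^ n * (2 ^ l * vol n ρ) + 2 ^ l * vol n ρ * 2 ^ n =
        (n + 1) * (2 ^ l * vol n ρ * 2 ^ n) := by ring
    have e4 := e1.le.trans (e2.trans e3.le)
    exact Nat.le_of_mul_le_mul_left e4 (Nat.succ_pos n)
  -- 4(n+1) |B| (...) ≤ 2^l C(n,ρ) 2^n
  have h5 : 4 * (n + 1) * (B.card * (2 * n * 2 ^ n + 2 * 2 ^ l * vol n ρ)) ≤
      2 ^ l * n.choose ρ * 2 ^ n := by
    have e1 : 2 ^ l * vol n ρ * 2 ^ n ≤ 2 ^ l * ((n + 1) * n.choose ρ) * 2 ^ n :=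
      Nat.mul_le_mul_right _ (Nat.mul_le_mul_left _ hV)
    have e2 := h4.trans e1
    have e3 : (n + 1) * (4 * (n + 1) * (B.card * (2 * n * 2 ^ n + 2 * 2 ^ l * vol n ρ))) ≤
        (n + 1) * (2 ^ l * n.choose ρ * 2 ^ n) := by
      calc _ = 4 * (n + 1) ^ 2 * (B.card * (2 * n * 2 ^ n + 2 * 2 ^ l * vol n ρ)) := by ring
        _ ≤ _ := e2
        _ = _ := by ring
    exact Nat.le_of_mul_le_mul_left e3 (Nat.succ_pos n)
  have hch : n.choose t * (n - t).choose (ρ - t) = n.choose ρ * ρ.choose t :=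
    (Nat.choose_mul htρ).symm
  have hpos : 0 < 2 ^ n * (n - t).choose (ρ - t) :=
    Nat.mul_pos (by positivity) (Nat.choose_pos (by omega))
  apply Nat.le_of_mul_le_mul_left _ hpos
  calc 2 ^ n * (n - t).choose (ρ - t) * (4 * (n + 1) * (badPairs c t ρ B).card)
      = 4 * (n + 1) * 2 ^ n * ((badPairs c t ρ B).card * (n - t).choose (ρ - t)) := by ring
    _ ≤ 4 * (n + 1) * 2 ^ n * ((badExt c ρ B).card * ρ.choose t) := Nat.mul_le_mul_left _ h1
    _ = 4 * (n + 1) * (2 ^ n * (badExt c ρ B).card) * ρ.choose t := by ring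
    _ ≤ 4 * (n + 1) * (B.card * (2 * n * 2 ^ n + 2 * 2 ^ l * vol n ρ)) * ρ.choose t :=
        Nat.mul_le_mul_right _ (Nat.mul_le_mul_left _ h3)
    _ ≤ 2 ^ l * n.choose ρ * 2 ^ n * ρ.choose t := Nat.mul_le_mul_right _ h5
    _ = 2 ^ l * 2 ^ n * (n.choose ρ * ρ.choose t) := by ring
    _ = 2 ^ l * 2 ^ n * (n.choose t * (n - t).choose (ρ - t)) := by rw [hch]
    _ = 2 ^ n * (n - t).choose (ρ - t) * (2 ^ l * n.choose t) := by ring

theorem exists_center {n l t : ℕ} (ht : 2 * t ≤ n) (c : Fin (2 ^ l) → (Fin n → Bool))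
    (hc : IsCode c) (Bad : ℕ → Finset (Fin n → Bool))
    (hBad : ∀ ρ, t ≤ ρ → 2 * ρ ≤ n →
      (Bad ρ).card * (8 * (n + 1) ^ 3) ≤ min (2 ^ l * vol n ρ) (2 ^ n)) :
    ∃ x : Fin n → Bool, (∃ i, hammingDist (c i) x ≤ t) ∧
      ∀ ρ, t ≤ ρ → 2 * ρ ≤ n → ∃ y, hammingDist x y ≤ ρ - t ∧ y ∉ Bad ρ := by
  classical
  set P := (univ : Finset (Fin (2 ^ l))) ×ˢ powersetCard t (univ : Finset (Fin n)) with hP
  have hPcard : P.card = 2 ^ l * n.choose t := by
    rw [hP, card_product, card_powersetCard, card_univ, card_univ, Fintype.card_fin,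
      Fintype.card_fin]
  have hPpos : 0 < P.card := by
    rw [hPcard]
    exact Nat.mul_pos (by positivity) (Nat.choose_pos (by omega))
  set J := (range (n + 1)).filter (fun ρ => t ≤ ρ ∧ 2 * ρ ≤ n) with hJ
  have hJcard : J.card ≤ n + 1 := by
    rw [hJ]
    exact (card_filter_le _ _).trans (card_range _).le
  have hU : (J.biUnion (fun ρ => badPairs c t ρ (Bad ρ))).card < P.card := by
    have h1 : (J.biUnion (fun ρ => badPairs c t ρ (Bad ρ))).card ≤
        ∑ ρ ∈ J, (badPairs c t ρ (Bad ρ)).card := card_biUnion_le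
    have h2 : 4 * (n + 1) * ∑ ρ ∈ J, (badPairs c t ρ (Bad ρ)).card ≤ (n + 1) * P.card := by
      rw [Finset.mul_sum]
      calc ∑ ρ ∈ J, 4 * (n + 1) * (badPairs c t ρ (Bad ρ)).card
          ≤ ∑ ρ ∈ J, P.card := by
            apply Finset.sum_le_sum
            intro ρ hρ
            rw [hJ, mem_filter] at hρ
            rw [hPcard]
            exact card_badPairs_le hρ.2.1 hρ.2.2 c hc (Bad ρ) (hBad ρ hρ.2.1 hρ.2.2)
        _ = J.card * P.card := by rw [Finset.sum_const, smul_eq_mul]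
        _ ≤ (n + 1) * P.card := Nat.mul_le_mul_right _ hJcard
    have h3 : 4 * ∑ ρ ∈ J, (badPairs c t ρ (Bad ρ)).card ≤ P.card := by
      apply Nat.le_of_mul_le_mul_left _ (Nat.succ_pos n)
      calc (n + 1) * (4 * ∑ ρ ∈ J, (badPairs c t ρ (Bad ρ)).card)
          = 4 * (n + 1) * ∑ ρ ∈ J, (badPairs c t ρ (Bad ρ)).card := by ring
        _ ≤ _ := h2
    omega
  obtain ⟨p, hpP, hpU⟩ : ∃ p ∈ P, p ∉ J.biUnion (fun ρ => badPairs c t ρ (Bad ρ)) := by
    by_contra hcon
    push Not at hcon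
    exact absurd (Finset.card_le_card (fun p hp => hcon p hp)) (not_le.2 hU)
  have hp2 : p.2.card = t := by
    rw [hP, mem_product] at hpP
    exact (mem_powersetCard.1 hpP.2).2
  refine ⟨flipAt (c p.1) p.2, ⟨p.1, ?_⟩, ?_⟩
  · rw [hammingDist_flipAt]
    exact hp2.le
  · intro ρ h1 h2
    by_contra hcon
    push Not at hcon
    apply hpU
    rw [mem_biUnion]
    refine ⟨ρ, ?_, ?_⟩
    · rw [hJ, mem_filter, mem_range]
      exact ⟨by omega, h1, h2⟩
    · unfold badPairs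
      rw [mem_filter]
      refine ⟨hpP, ?_⟩
      intro f hf hpf
      apply hcon
      rw [hammingDist_flipAt_flipAt _ hpf, hp2, (mem_powersetCard.1 hf).2]

end Pool.Agent.Lib.MP_f4f1a8_lc
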