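import Pool.Agent.Lib.MP_f4f1a8_lc.Defs

/-!
# Volumes of Hamming balls
-/

namespace Pool.Agent.Lib.MP_f4f1a8_lc

open Finset

theorem vol_zero (n : ℕ) : vol n 0 = 1 := by simp [vol]

theorem vol_succ (n r : ℕ) : vol n (r + 1) = vol n r + n.choose (r + 1) := by
  simp [vol, Finset.sum_range_succ]

theorem vol_pos (n r : ℕ) : 0 < vol n r := by
  induction r with
  | zero => simp [vol_zero]
  | succ r ih => rw [vol_succ]; omega

theorem vol_mono (n : ℕ) {r s : ℕ} (h : r ≤ s) : vol n r ≤ vol n s := by
  unfold vol
  exact Finset.sum_le_sum_of_subset (Finset.range_mono (by omega))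

theorem vol_eq {n r : ℕ} (h : n ≤ r) : vol n r = 2 ^ n := by
  unfold vol
  rw [← Nat.sum_range_choose n]
  symm
  apply Finset.sum_subset (Finset.range_mono (by omega))
  intro i _ hi
  rw [Finset.mem_range, not_lt] at hi
  exact Nat.choose_eq_zero_of_lt (by omega)

theorem vol_le (n r : ℕ) : vol n r ≤ 2 ^ n := by
  rw [← vol_eq (le_max_left n r)]
  exact vol_mono n (le_max_right n r)

theorem choose_succ_le (n r : ℕ) : n.choose (r + 1) ≤ n * n.choose r := by
  have h := Nat.choose_succ_right_eq n r
  calc n.choose (r + 1) ≤ n.choose (r + 1) * (r + 1) := Nat.le_mul_of_pos_right _ (by omega)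
    _ = n.choose r * (n - r) := h
    _ ≤ n.choose r * n := Nat.mul_le_mul_left _ (by omega)
    _ = n * n.choose r := Nat.mul_comm _ _

theorem choose_le_vol (n r : ℕ) : n.choose r ≤ vol n r := by
  unfold vol
  exact Finset.single_le_sum (f := fun i => n.choose i) (fun _ _ => Nat.zero_le _)
    (Finset.mem_range.mpr (by omega))

theorem vol_succ_le (n r : ℕ) : vol n (r + 1) ≤ (n + 1) * vol n r := by
  rw [vol_succ]
  have h1 := choose_succ_le n r
  have h2 := Nat.mul_le_mul_left n (choose_le_vol n r)
  nlinarith

/-- One step log-concavity of binomial coefficients at two places. -/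
theorem choose_step (n : ℕ) {i j : ℕ} (h : i ≤ j) :
    n.choose (j + 1) * n.choose i ≤ n.choose (i + 1) * n.choose j := by
  have h1 := Nat.choose_succ_right_eq n j
  have h2 := Nat.choose_succ_right_eq n i
  rcases Nat.lt_or_ge n (j + 1) with hlt | hge
  · rw [Nat.choose_eq_zero_of_lt hlt]; simp
  -- multiply by (j+1)*(i+1)
  have hpos : 0 < (j + 1) * (i + 1) := by positivity
  apply Nat.le_of_mul_le_mul_left _ hpos
  calc (j + 1) * (i + 1) * (n.choose (j + 1) * n.choose i)
      = (n.choose (j + 1) * (j + 1)) * (n.choose i * (i + 1)) := by ring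
    _ = (n.choose j * (n - j)) * (n.choose i * (i + 1)) := by rw [h1]
    _ = (n.choose j * n.choose i) * ((n - j) * (i + 1)) := by ring
    _ ≤ (n.choose j * n.choose i) * ((n - i) * (j + 1)) := by
        apply Nat.mul_le_mul_left
        exact Nat.mul_le_mul (by omega) (by omega)
    _ = (n.choose i * (n - i)) * (n.choose j * (j + 1)) := by ring
    _ = (n.choose (i + 1) * (i + 1)) * (n.choose j * (j + 1)) := by rw [h2]
    _ = (j + 1) * (i + 1) * (n.choose (i + 1) * n.choose j) := by ring

/-- Log-concavity of binomial coefficients. -/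
theorem choose_logconcave (n : ℕ) {a b : ℕ} (h : a ≤ b) (k : ℕ) :
    n.choose a * n.choose (b + k) ≤ n.choose (a + k) * n.choose b := by
  induction k with
  | zero => simp
  | succ k ih =>
    rcases Nat.eq_zero_or_pos (n.choose (b + k)) with h0 | hpos
    · have hlt : n < b + k := by
        by_contra hcon
        have := Nat.choose_pos (n := n) (k := b + k) (by omega)
        omega
      rw [Nat.choose_eq_zero_of_lt (show n < b + (k + 1) by omega)]
      simp
    · have hstep := choose_step n (i := a + k) (j := b + k) (by omega)
      have hpos2 : 0 < n.choose (a + k) := by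
        apply Nat.choose_pos
        by_contra hcon
        rw [Nat.choose_eq_zero_of_lt (show n < b + k by omega)] at hpos
        omega
      apply Nat.le_of_mul_le_mul_left _ (Nat.mul_pos hpos hpos2)
      calc n.choose (b + k) * n.choose (a + k) * (n.choose a * n.choose (b + (k + 1)))
          = (n.choose a * n.choose (b + k)) * (n.choose (b + k + 1) * n.choose (a + k)) := by
            rw [show b + (k + 1) = b + k + 1 by ring]; ring
        _ ≤ (n.choose (a + k) * n.choose b) * (n.choose (a + k + 1) * n.choose (b + k)) :=
            Nat.mul_le_mul ih hstep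
        _ = n.choose (b + k) * n.choose (a + k) * (n.choose (a + (k + 1)) * n.choose b) := by
            rw [show a + (k + 1) = a + k + 1 by ring]; ring

/-- One step log-concavity of the volumes. -/
theorem vol_step (n : ℕ) {s t : ℕ} (h : s ≤ t) :
    vol n s * vol n (t + 1) ≤ vol n (s + 1) * vol n t := by
  have key : n.choose (t + 1) * vol n s ≤ n.choose (s + 1) * vol n t := by
    obtain ⟨d, rfl⟩ := Nat.exists_eq_add_of_le h
    have h1 : n.choose (s + d + 1) * vol n s ≤
        ∑ i ∈ range (s + 1), n.choose (s + 1) * n.choose (i + d) := by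
      unfold vol
      rw [Finset.mul_sum]
      apply Finset.sum_le_sum
      intro i hi
      rw [Finset.mem_range] at hi
      -- C(s+d+1) C(i) ≤ C(s+1) C(i+d)
      have h2 := choose_logconcave n (a := i) (b := s + 1) (by omega) d
      calc n.choose (s + d + 1) * n.choose i = n.choose i * n.choose (s + 1 + d) := by
            rw [show s + d + 1 = s + 1 + d by ring, Nat.mul_comm]
        _ ≤ n.choose (i + d) * n.choose (s + 1) := h2
        _ = n.choose (s + 1) * n.choose (i + d) := Nat.mul_comm _ _
    refine h1.trans ?_
    rw [← Finset.mul_sum]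
    apply Nat.mul_le_mul_left
    unfold vol
    have h3 : ∑ i ∈ range (s + 1), n.choose (i + d) =
        ∑ i ∈ (range (s + 1)).map (addRightEmbedding d), n.choose i := by
      rw [Finset.sum_map]; rfl
    rw [h3]
    apply Finset.sum_le_sum_of_subset
    intro i hi
    rw [Finset.mem_map] at hi
    obtain ⟨j, hj, rfl⟩ := hi
    rw [Finset.mem_range] at hj ⊢
    simp only [addRightEmbedding_apply]
    omega
  rw [vol_succ, vol_succ]
  nlinarith [key]

theorem vol_logconcave (n : ℕ) {s t : ℕ} (h : s ≤ t) (r : ℕ) :
    vol n s * vol n (t + r) ≤ vol n (s + r) * vol n t := by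
  induction r with
  | zero => simp
  | succ r ih =>
    have hstep := vol_step n (s := s + r) (t := t + r) (by omega)
    have hpos := Nat.mul_pos (vol_pos n (s + r)) (vol_pos n (t + r))
    apply Nat.le_of_mul_le_mul_left _ hpos
    calc vol n (s + r) * vol n (t + r) * (vol n s * vol n (t + (r + 1)))
        = (vol n s * vol n (t + r)) * (vol n (s + r) * vol n (t + r + 1)) := by
          rw [show t + (r + 1) = t + r + 1 by ring]; ring
      _ ≤ (vol n (s + r) * vol n t) * (vol n (s + r + 1) * vol n (t + r)) :=
          Nat.mul_le_mul ih hstep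
      _ = vol n (s + r) * vol n (t + r) * (vol n (s + (r + 1)) * vol n t) := by
          rw [show s + (r + 1) = s + r + 1 by ring]; ring

theorem choose_mono_half {n i r : ℕ} (h : 2 * r ≤ n) (hi : i ≤ r) :
    n.choose i ≤ n.choose r := by
  induction r with
  | zero =>
    have : i = 0 := by omega
    rw [this]
  | succ r ih =>
    rcases Nat.lt_or_ge r i with hlt | hge
    · have : i = r + 1 := by omega
      rw [this]
    · refine (ih (by omega) hge).trans ?_
      exact Nat.choose_le_succ_of_lt_half_left (by omega)

theorem vol_le_choose {n r : ℕ} (h : 2 * r ≤ n) : vol n r ≤ (n + 1) * n.choose r := by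
  unfold vol
  calc ∑ i ∈ range (r + 1), n.choose i ≤ ∑ i ∈ range (r + 1), n.choose r := by
        apply Finset.sum_le_sum
        intro i hi
        rw [Finset.mem_range] at hi
        exact choose_mono_half h (by omega)
    _ = (r + 1) * n.choose r := by simp
    _ ≤ (n + 1) * n.choose r := Nat.mul_le_mul_right _ (by omega)

theorem two_pow_le_vol_half (n : ℕ) : 2 ^ n ≤ 2 * vol n (n / 2) := by
  rw [← Nat.sum_range_choose n]
  have hsplit : ∑ i ∈ range (n + 1), n.choose i =
      ∑ i ∈ range (n / 2 + 1), n.choose i +
        ∑ i ∈ range (n + 1 - (n / 2 + 1)), n.choose (n / 2 + 1 + i) := by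
    rw [← Finset.sum_range_add]
    congr 2
    omega
  rw [hsplit]
  have h2 : ∑ i ∈ range (n + 1 - (n / 2 + 1)), n.choose (n / 2 + 1 + i) ≤ vol n (n / 2) := by
    have h3 : ∑ i ∈ range (n + 1 - (n / 2 + 1)), n.choose (n / 2 + 1 + i) =
        ∑ i ∈ range (n + 1 - (n / 2 + 1)), n.choose i := by
      rw [← Finset.sum_range_reflect]
      apply Finset.sum_congr rfl
      intro i hi
      rw [Finset.mem_range] at hi
      apply Nat.choose_symm_of_eq_add
      omega
    rw [h3]
    unfold vol
    apply Finset.sum_le_sum_of_subset
    apply Finset.range_mono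
    omega
  have h4 : ∑ i ∈ range (n / 2 + 1), n.choose i = vol n (n / 2) := rfl
  rw [h4]
  omega

theorem card_ball {n : ℕ} (x : Fin n → Bool) (d : ℕ) : (ball x d).card = vol n d := by
  classical
  -- the bijection with the subsets of cardinality at most `d`
  have h1 : (ball x d).card =
      ((univ : Finset (Finset (Fin n))).filter (fun s => s.card ≤ d)).card := by
    unfold ball
    apply Finset.card_bij (fun y _ => univ.filter (fun i => x i ≠ y i))
    · intro y hy
      rw [Finset.mem_filter] at hy ⊢
      exact ⟨Finset.mem_univ _, hy.2⟩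
    · intro y _ z _ h
      funext i
      have hi : (i ∈ univ.filter (fun i => x i ≠ y i)) ↔ (i ∈ univ.filter (fun i => x i ≠ z i)) := by
        rw [h]
      simp only [Finset.mem_filter, Finset.mem_univ, true_and] at hi
      cases hx : x i <;> cases hy : y i <;> cases hz : z i <;> simp_all
    · intro s hs
      rw [Finset.mem_filter] at hs
      refine ⟨fun i => if i ∈ s then !(x i) else x i, ?_, ?_⟩
      · rw [Finset.mem_filter]
        refine ⟨Finset.mem_univ _, ?_⟩
        have : hammingDist x (fun i => if i ∈ s then !(x i) else x i) = s.card := by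
          unfold hammingDist
          congr 1
          ext i
          by_cases his : i ∈ s <;> simp [his]
        rw [this]
        exact hs.2
      · ext i
        by_cases his : i ∈ s <;> simp [his]
  rw [h1]
  have h2 : (univ : Finset (Finset (Fin n))).filter (fun s => s.card ≤ d) =
      (range (d + 1)).biUnion (fun i => powersetCard i (univ : Finset (Fin n))) := by
    ext s
    simp only [Finset.mem_filter, Finset.mem_univ, true_and, Finset.mem_biUnion,
      Finset.mem_range, Finset.mem_powersetCard, Finset.subset_univ]
    constructor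
    · intro h
      exact ⟨s.card, by omega, rfl⟩
    · rintro ⟨i, hi, h⟩
      omega
  rw [h2, Finset.card_biUnion]
  · unfold vol
    apply Finset.sum_congr rfl
    intro i _
    rw [Finset.card_powersetCard, Finset.card_univ, Fintype.card_fin]
  · intro i _ j _ hij
    exact Finset.pairwise_disjoint_powersetCard _ hij

end Pool.Agent.Lib.MP_f4f1a8_lc
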