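import Pool.Agent.Lib.MP_f4f1a8_lc.Defs
import Pool.Agent.Lib.MP_f4f1a8_lc.Vol

/-!
# Random codes in the Hamming cube (MP_f4f1a8_lc, module CODE, helper30)
-/

namespace Pool.Agent.Lib.MP_f4f1a8_lc

open Finset

theorem code_sum {n N : ℕ} (y : Fin n → Bool) (j : ℕ) :
    ∑ c : Fin N → (Fin n → Bool),
      (2 : ℝ) ^ (univ.filter (fun i => hammingDist (c i) y ≤ j)).card =
      ((2 : ℝ) ^ n + vol n j) ^ N := by
  have h1 : ∀ c : Fin N → (Fin n → Bool),
      (2 : ℝ) ^ (univ.filter (fun i => hammingDist (c i) y ≤ j)).card =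
        ∏ i : Fin N, (if hammingDist (c i) y ≤ j then (2 : ℝ) else 1) := by
    intro c
    rw [prod_ite, prod_const, prod_const_one, mul_one]
  simp_rw [h1]
  have h2 := (Finset.prod_univ_sum (fun _ : Fin N => (univ : Finset (Fin n → Bool)))
    (fun _ z => (if hammingDist z y ≤ j then (2 : ℝ) else 1)))
  rw [Fintype.piFinset_univ] at h2
  rw [← h2, prod_const, card_univ, Fintype.card_fin]
  congr 1
  have h3 : ∀ z : Fin n → Bool, (if hammingDist z y ≤ j then (2 : ℝ) else 1) =
      1 + (if hammingDist z y ≤ j then (1 : ℝ) else 0) := by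
    intro z
    split_ifs <;> norm_num
  simp_rw [h3]
  rw [sum_add_distrib, sum_boole, sum_const, card_univ, nsmul_eq_mul, mul_one]
  have h4 : (univ.filter fun z : Fin n → Bool => hammingDist z y ≤ j) = ball y j := by
    unfold ball
    ext z
    rw [mem_filter, mem_filter, hammingDist_comm]
  rw [h4, card_ball]
  simp

theorem code_vol_mono (n : ℕ) {r s : ℕ} (h : r ≤ s) : vol n r ≤ vol n s :=
  sum_le_sum_of_subset (range_subset_range.2 (by omega))

theorem exists_code (n l : ℕ) : ∃ c : Fin (2 ^ l) → (Fin n → Bool), IsCode c := by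
  rcases Nat.eq_zero_or_pos n with hn | hn
  · subst hn
    refine ⟨fun _ _ => false, ?_⟩
    intro y j
    have h1 : (univ.filter (fun i : Fin (2 ^ l) =>
        hammingDist ((fun _ _ => false : Fin (2 ^ l) → Fin 0 → Bool) i) y ≤ j)).card ≤ 2 ^ l :=
      (card_le_univ _).trans (by simp)
    have h2 : 1 ≤ vol 0 j := by
      have := code_vol_mono 0 (Nat.zero_le j)
      simpa [vol] using this
    have h3 : 2 ^ l * 1 ≤ 2 ^ l * vol 0 j := Nat.mul_le_mul_left _ h2
    rw [pow_zero, one_mul]
    nlinarith
  · -- averaging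
    set N : ℕ := 2 ^ l with hN
    have hQ : (0 : ℝ) < 2 ^ n := by positivity
    have hexp : ∀ j : ℕ, ((2 : ℝ) ^ n + vol n j) ^ N ≤
        ((2 : ℝ) ^ n) ^ N * Real.exp (N * (vol n j / 2 ^ n)) := by
      intro j
      have h1 : (2 : ℝ) ^ n + vol n j = 2 ^ n * (1 + vol n j / 2 ^ n) := by
        field_simp
      rw [h1, mul_pow]
      refine mul_le_mul_of_nonneg_left ?_ (by positivity)
      rw [Real.exp_nat_mul]
      refine pow_le_pow_left₀ (by positivity) ?_ N
      rw [add_comm]
      exact Real.add_one_le_exp _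
    have havg : ∃ c : Fin N → (Fin n → Bool), ∑ y : Fin n → Bool, ∑ j ∈ range (n + 1),
        (2 : ℝ) ^ (univ.filter (fun i => hammingDist (c i) y ≤ j)).card *
          Real.exp (-(N * (vol n j / 2 ^ n))) ≤ 2 ^ n * (n + 1) := by
      by_contra hcon
      push Not at hcon
      have h1 : ∑ c : Fin N → (Fin n → Bool), ((2 : ℝ) ^ n * (n + 1)) <
          ∑ c : Fin N → (Fin n → Bool), ∑ y : Fin n → Bool, ∑ j ∈ range (n + 1),
          (2 : ℝ) ^ (univ.filter (fun i => hammingDist (c i) y ≤ j)).card *
          Real.exp (-(N * (vol n j / 2 ^ n))) :=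
        sum_lt_sum_of_nonempty univ_nonempty fun c _ => hcon c
      have h2 : ∑ c : Fin N → (Fin n → Bool), ∑ y : Fin n → Bool, ∑ j ∈ range (n + 1),
          (2 : ℝ) ^ (univ.filter (fun i => hammingDist (c i) y ≤ j)).card *
          Real.exp (-(N * (vol n j / 2 ^ n))) ≤
          ∑ c : Fin N → (Fin n → Bool), ((2 : ℝ) ^ n * (n + 1)) := by
        rw [sum_comm]
        have h3 : ∀ y : Fin n → Bool, ∑ c : Fin N → (Fin n → Bool), ∑ j ∈ range (n + 1),
            (2 : ℝ) ^ (univ.filter (fun i => hammingDist (c i) y ≤ j)).card *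
            Real.exp (-(N * (vol n j / 2 ^ n))) ≤ ((2 : ℝ) ^ n) ^ N * (n + 1) := by
          intro y
          rw [sum_comm]
          have h4 : ∀ j ∈ range (n + 1), ∑ c : Fin N → (Fin n → Bool),
              (2 : ℝ) ^ (univ.filter (fun i => hammingDist (c i) y ≤ j)).card *
              Real.exp (-(N * (vol n j / 2 ^ n))) ≤ ((2 : ℝ) ^ n) ^ N := by
            intro j _
            rw [← sum_mul, code_sum]
            calc ((2 : ℝ) ^ n + vol n j) ^ N * Real.exp (-(N * (vol n j / 2 ^ n)))
                ≤ (((2 : ℝ) ^ n) ^ N * Real.exp (N * (vol n j / 2 ^ n))) *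
                  Real.exp (-(N * (vol n j / 2 ^ n))) :=
                  mul_le_mul_of_nonneg_right (hexp j) (Real.exp_pos _).le
              _ = ((2 : ℝ) ^ n) ^ N := by
                  rw [mul_assoc, ← Real.exp_add, add_neg_cancel, Real.exp_zero, mul_one]
          refine (sum_le_sum h4).trans (le_of_eq ?_)
          rw [sum_const, card_range, nsmul_eq_mul]
          push_cast
          ring
        refine (sum_le_sum fun y _ => h3 y).trans (le_of_eq ?_)
        rw [sum_const, sum_const, card_univ, card_univ, nsmul_eq_mul, nsmul_eq_mul]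
        simp
        ring
      exact absurd h1 (not_lt.2 h2)
    obtain ⟨c, hc⟩ := havg
    have hmain : ∀ (y : Fin n → Bool) (j : ℕ), j ≤ n →
        2 ^ n * (univ.filter (fun i => hammingDist (c i) y ≤ j)).card ≤
          2 * n * 2 ^ n + 2 * N * vol n j := by
      intro y j hj
      set k := (univ.filter (fun i => hammingDist (c i) y ≤ j)).card with hk
      have h1 : (2 : ℝ) ^ k * Real.exp (-(N * (vol n j / 2 ^ n))) ≤ 2 ^ n * (n + 1) := by
        refine le_trans ?_ hc
        refine le_trans ?_ (single_le_sum (f := fun y : Fin n → Bool => ∑ j ∈ range (n + 1),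
          (2 : ℝ) ^ (univ.filter (fun i => hammingDist (c i) y ≤ j)).card *
          Real.exp (-(N * (vol n j / 2 ^ n)))) (fun y _ => ?_) (mem_univ y))
        · exact single_le_sum (f := fun j => (2 : ℝ) ^
            (univ.filter (fun i => hammingDist (c i) y ≤ j)).card *
            Real.exp (-(N * (vol n j / 2 ^ n)))) (fun j _ => by positivity)
            (mem_range.2 (Nat.lt_succ_of_le hj))
        · exact sum_nonneg fun j _ => by positivity
      have h2 : ((n : ℝ) + 1) ≤ 2 ^ n := by
        have : n + 1 ≤ 2 ^ n := Nat.lt_two_pow_self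
        exact_mod_cast this
      have h3 : (2 : ℝ) ^ k ≤ 2 ^ n * 2 ^ n * Real.exp (N * (vol n j / 2 ^ n)) := by
        have h4 : (2 : ℝ) ^ k = (2 : ℝ) ^ k * Real.exp (-(N * (vol n j / 2 ^ n))) *
            Real.exp (N * (vol n j / 2 ^ n)) := by
          rw [mul_assoc, ← Real.exp_add, neg_add_cancel, Real.exp_zero, mul_one]
        rw [h4]
        refine mul_le_mul_of_nonneg_right (h1.trans ?_) (Real.exp_pos _).le
        exact mul_le_mul_of_nonneg_left h2 hQ.le
      have h5 := Real.log_le_log (by positivity) h3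
      rw [Real.log_mul (by positivity) (by positivity), Real.log_mul (by positivity)
        (by positivity), Real.log_exp, Real.log_pow, Real.log_pow] at h5
      have hlog : (1 : ℝ) / 2 ≤ Real.log 2 := by
        have := Real.log_two_gt_d9
        linarith
      have hx : (0 : ℝ) ≤ N * (vol n j / 2 ^ n) := by positivity
      have h6 : (k : ℝ) ≤ 2 * n + 2 * (N * (vol n j / 2 ^ n)) := by
        by_contra hlt
        push Not at hlt
        have h7 : ((k : ℝ) - 2 * n) * (1 / 2) ≤ ((k : ℝ) - 2 * n) * Real.log 2 :=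
          mul_le_mul_of_nonneg_left hlog (by linarith)
        have h8 : ((k : ℝ) - 2 * n) * Real.log 2 ≤ N * (vol n j / 2 ^ n) := by linarith
        linarith
      have h9 : (2 : ℝ) ^ n * k ≤ 2 * n * 2 ^ n + 2 * N * vol n j := by
        have h10 := mul_le_mul_of_nonneg_left h6 hQ.le
        refine h10.trans (le_of_eq ?_)
        field_simp
      exact_mod_cast h9
    refine ⟨c, ?_⟩
    intro y j
    rcases Nat.le_total j n with hj | hj
    · exact hmain y j hj
    · have h1 : (univ.filter (fun i => hammingDist (c i) y ≤ j)) =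
          (univ.filter (fun i => hammingDist (c i) y ≤ n)) := by
        ext i
        rw [mem_filter, mem_filter]
        have h2 : hammingDist (c i) y ≤ n := by
          have := hammingDist_le_card_fintype (x := c i) (y := y)
          simpa using this
        exact ⟨fun _ => ⟨mem_univ _, h2⟩, fun _ => ⟨mem_univ _, h2.trans hj⟩⟩
      rw [h1]
      refine (hmain y n le_rfl).trans ?_
      exact Nat.add_le_add_left (Nat.mul_le_mul_left _ (code_vol_mono n hj)) _

end Pool.Agent.Lib.MP_f4f1a8_lc
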