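import Mathlib

/-!
# Maximal complexity in Hamming balls (MP_f4f1a8_lc): definitions
-/

namespace Pool.Agent.Lib.MP_f4f1a8_lc

open Finset

/-- `U` is an optimal description method: it is partial computable, and for every partial
computable `V` programs for `U` are longer than programs for `V` by at most a constant. -/
def Optimal (U : List Bool →. List Bool) : Prop :=
  Partrec U ∧ ∀ V : List Bool →. List Bool, Partrec V →
    ∃ c : ℕ, ∀ p y, y ∈ V p → ∃ q, y ∈ U q ∧ q.length ≤ p.length + c

/-- Plain Kolmogorov complexity with respect to the description method `U`. -/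
noncomputable def C (U : List Bool →. List Bool) (y : List Bool) : ℕ :=
  sInf {m | ∃ q, y ∈ U q ∧ q.length = m}

/-- The Hamming ball of radius `d` around `x`. -/
def ball {n : ℕ} (x : Fin n → Bool) (d : ℕ) : Finset (Fin n → Bool) :=
  univ.filter (fun y => hammingDist x y ≤ d)

/-- `M U x d` is the maximal complexity of a string in the Hamming ball of radius `d`
around `x`. -/
noncomputable def M (U : List Bool →. List Bool) {n : ℕ} (x : Fin n → Bool) (d : ℕ) : ℕ :=
  (ball x d).sup (fun y => C U (List.ofFn y))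

/-- The number of points in a Hamming ball of radius `r` in the `n`-cube. -/
def vol (n r : ℕ) : ℕ := ∑ i ∈ range (r + 1), n.choose i

/-- Binary logarithm of `vol n r`. -/
noncomputable def L (n r : ℕ) : ℝ := Real.logb 2 (vol n r)

/-- The `d`-neighbourhood of a set. -/
def nbr {n : ℕ} (S : Finset (Fin n → Bool)) (d : ℕ) : Finset (Fin n → Bool) :=
  univ.filter (fun y => ∃ x ∈ S, hammingDist x y ≤ d)

/-- A family of `2 ^ l` points of the `n`-cube such that every ball contains not many more
of them than the average. -/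
def IsCode {n l : ℕ} (c : Fin (2 ^ l) → (Fin n → Bool)) : Prop :=
  ∀ (y : Fin n → Bool) (j : ℕ),
    2 ^ n * (univ.filter (fun i => hammingDist (c i) y ≤ j)).card ≤
      2 * n * 2 ^ n + 2 * 2 ^ l * vol n j

/-- The pair `(m₁, m₂)` is admissible for the radii `d₁ ≤ d₂` with slack `s`. -/
def Admissible (n d₁ d₂ m₁ m₂ : ℕ) (s : ℝ) : Prop :=
  L n d₁ ≤ m₁ + s ∧ (m₁ : ℝ) ≤ m₂ + s ∧ (m₂ : ℝ) ≤ n + s ∧
  (m₂ : ℝ) - m₁ ≤ L n d₂ - L n d₁ + s ∧
  ∀ ρ : ℕ, L n ρ ≤ m₁ → L n (ρ + (d₂ - d₁)) ≤ m₂ + s

/-- All strings of length `n`. -/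
def strs : ℕ → List (List Bool)
  | 0 => [[]]
  | n + 1 => (strs n).map (List.cons false) ++ (strs n).map (List.cons true)

/-- The Hamming distance of two strings (meaningful when their lengths agree). -/
def ldist (x y : List Bool) : ℕ :=
  ((List.range x.length).filter (fun i => x[i]? ≠ y[i]?)).length

end Pool.Agent.Lib.MP_f4f1a8_lc
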