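import Pool.Agent.Lib.MP_f4f1a8_lc.Defs

/-!
# Partial computable functions given by primitive recursive graphs; optimal description methods
-/

namespace Pool.Agent.Lib.MP_f4f1a8_lc

open Nat.Partrec (Code)

theorem partrec_of_graph (P : List Bool → List Bool → ℕ → Prop)
    (hP : PrimrecPred fun a : List Bool × List Bool × ℕ => P a.1 a.2.1 a.2.2)
    (huniq : ∀ q y k y' k', P q y k → P q y' k' → y = y') :
    ∃ V : List Bool →. List Bool, Partrec V ∧ ∀ q y, y ∈ V q ↔ ∃ k, P q y k := by
  classical
  let f : List Bool → ℕ → Option (List Bool) := fun q m =>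
    (Encodable.decode (α := List Bool × ℕ) m).bind
      (fun t => if P q t.1 t.2 then some t.1 else none)
  have hf : Computable₂ f := by
    refine Primrec.to_comp ?_
    refine Primrec.option_bind (Primrec.decode.comp Primrec.snd) ?_
    refine Primrec.ite ?_ ?_ (Primrec.const none)
    · exact hP.comp (Primrec.pair (Primrec.fst.comp Primrec.fst)
        (Primrec.pair (Primrec.fst.comp Primrec.snd) (Primrec.snd.comp Primrec.snd)))
    · exact Primrec.option_some.comp (Primrec.fst.comp Primrec.snd)
  have hmem : ∀ q m y, y ∈ f q m → ∃ k, P q y k := by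
    intro q m y h
    simp only [f, Option.mem_def, Option.bind_eq_some_iff] at h
    obtain ⟨t, -, ht⟩ := h
    by_cases hh : P q t.1 t.2
    · rw [if_pos hh] at ht
      have : t.1 = y := by simpa using ht
      exact ⟨t.2, this ▸ hh⟩
    · rw [if_neg hh] at ht
      simp at ht
  refine ⟨fun q => Nat.rfindOpt (f q), Partrec.rfindOpt hf, ?_⟩
  intro q y
  constructor
  · intro h
    obtain ⟨m, hm⟩ := Nat.rfindOpt_spec h
    exact hmem q m y hm
  · rintro ⟨k, hk⟩
    have h1 : y ∈ f q (Encodable.encode (y, k)) := by
      simp only [f, Encodable.encodek, Option.bind_some, Option.mem_def]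
      rw [if_pos hk]
    have h2 : (Nat.rfindOpt (f q)).Dom := Nat.rfindOpt_dom.2 ⟨_, _, h1⟩
    obtain ⟨m, hm⟩ := Nat.rfindOpt_spec ⟨h2, rfl⟩
    obtain ⟨k', hk'⟩ := hmem q m _ hm
    have h3 := huniq q y k _ k' hk hk'
    rw [h3]
    exact ⟨h2, rfl⟩

/-- `true ^ e ++ r`. -/
def pre (e : ℕ) (r : List Bool) : List Bool := (fun l => true :: l)^[e] r

theorem pre_succ (e : ℕ) (r : List Bool) : pre (e + 1) r = true :: pre e r := by
  simp only [pre, Function.iterate_succ', Function.comp_apply]

theorem pre_inj : ∀ {e e' : ℕ} {p p' : List Bool},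
    pre e (false :: p) = pre e' (false :: p') → e = e' ∧ p = p'
  | 0, 0, p, p', h => by simpa [pre] using h
  | 0, e' + 1, p, p', h => by
      rw [pre_succ] at h
      simp [pre] at h
  | e + 1, 0, p, p', h => by
      rw [pre_succ] at h
      simp [pre] at h
  | e + 1, e' + 1, p, p', h => by
      rw [pre_succ, pre_succ] at h
      have h' := pre_inj (List.cons.inj h).2
      exact ⟨by rw [h'.1], h'.2⟩

theorem pre_length : ∀ (e : ℕ) (r : List Bool), (pre e r).length = e + r.length
  | 0, r => by simp [pre]
  | e + 1, r => by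
      rw [pre_succ, List.length_cons, pre_length e r]; omega

theorem primrec_pre : Primrec₂ pre := by
  refine Primrec.nat_iterate Primrec.fst Primrec.snd ?_
  exact Primrec.list_cons.comp (Primrec.const true) Primrec.snd

/-- Decoding of triples. -/
def dec (k : ℕ) : ℕ × List Bool × ℕ :=
  (Encodable.decode (α := ℕ × List Bool × ℕ) k).getD (0, [], 0)

theorem dec_encode (t : ℕ × List Bool × ℕ) : dec (Encodable.encode t) = t := by
  simp only [dec, Encodable.encodek, Option.getD_some]

theorem primrec_dec : Primrec dec :=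
  Primrec.option_getD.comp Primrec.decode (Primrec.const _)

theorem exists_optimal : ∃ U, Optimal U := by
  classical
  let P : List Bool → List Bool → ℕ → Prop := fun q y k =>
    q = pre (dec k).1 (false :: (dec k).2.1) ∧
    Code.evaln (dec k).2.2 (Denumerable.ofNat Code (dec k).1)
      (Encodable.encode (dec k).2.1) = some (Encodable.encode y)
  have hof : Primrec fun a : List Bool × List Bool × ℕ => dec a.2.2 :=
    primrec_dec.comp (Primrec.snd.comp Primrec.snd)
  have hP : PrimrecPred fun a : List Bool × List Bool × ℕ => P a.1 a.2.1 a.2.2 := by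
    refine PrimrecPred.and ?_ ?_
    · refine Primrec.eq.comp Primrec.fst ?_
      exact primrec_pre.comp (Primrec.fst.comp hof)
        (Primrec.list_cons.comp (Primrec.const false)
          (Primrec.fst.comp (Primrec.snd.comp hof)))
    · refine Primrec.eq.comp ?_
        (Primrec.option_some.comp (Primrec.encode.comp (Primrec.fst.comp Primrec.snd)))
      exact Code.primrec_evaln.comp (Primrec.pair (Primrec.pair
        (Primrec.snd.comp (Primrec.snd.comp hof))
        ((Primrec.ofNat Code).comp (Primrec.fst.comp hof)))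
        (Primrec.encode.comp (Primrec.fst.comp (Primrec.snd.comp hof))))
  have huniq : ∀ q y k y' k', P q y k → P q y' k' → y = y' := by
    rintro q y k y' k' ⟨h1, h2⟩ ⟨h3, h4⟩
    rw [h1] at h3
    obtain ⟨he, hp⟩ := pre_inj h3
    rw [← he, ← hp] at h4
    have h5 := Code.evaln_sound (Option.mem_def.2 h2)
    have h6 := Code.evaln_sound (Option.mem_def.2 h4)
    exact Encodable.encode_injective (Part.mem_unique h5 h6)
  obtain ⟨U, hU, hUP⟩ := partrec_of_graph P hP huniq
  refine ⟨U, hU, ?_⟩
  intro V hV
  obtain ⟨c, hc⟩ := Code.exists_code.1 hV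
  refine ⟨Encodable.encode c + 1, ?_⟩
  intro p y hy
  refine ⟨pre (Encodable.encode c) (false :: p), ?_, ?_⟩
  · rw [hUP]
    have h1 : Encodable.encode y ∈ Code.eval c (Encodable.encode p) := by
      rw [hc]
      simp only [Encodable.encodek, Part.coe_some, Part.bind_some, Part.mem_map_iff]
      exact ⟨y, hy, rfl⟩
    obtain ⟨s, hs⟩ := Code.evaln_complete.1 h1
    refine ⟨Encodable.encode (Encodable.encode c, p, s), ?_, ?_⟩
    · rw [dec_encode]
    · rw [dec_encode]
      simp only [Denumerable.ofNat_encode]
      exact hs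
  · rw [pre_length, List.length_cons]
    omega

end Pool.Agent.Lib.MP_f4f1a8_lc
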