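import Pool.Agent.Lib.MP_f4f1a8_lc.Defs
import Pool.Agent.Lib.MP_f4f1a8_lc.Graph

/-!
# MP_f4f1a8_lc : the description lemma
-/

namespace Pool.Agent.Lib.MP_f4f1a8_lc

open Finset Encodable Denumerable

namespace Descr

/-- The number coded by a string (a leading one is added). -/
def wt (q : List Bool) : ℕ := q.foldl (fun a b => 2 * a + (if b then 1 else 0)) 1

lemma wt_append (q : List Bool) (b : Bool) :
    wt (q ++ [b]) = 2 * wt q + (if b then 1 else 0) := by
  simp [wt, List.foldl_append]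

lemma exists_wt (w : ℕ) (hw : 1 ≤ w) : ∃ q : List Bool, wt q = w ∧ 2 ^ q.length ≤ w := by
  induction w using Nat.strong_induction_on with
  | _ w ih =>
    rcases Nat.lt_or_ge w 2 with h | h
    · refine ⟨[], ?_, ?_⟩
      · simp [wt]; omega
      · simpa using hw
    · obtain ⟨q, h1, h2⟩ := ih (w / 2) (by omega) (by omega)
      refine ⟨q ++ [decide (w % 2 = 1)], ?_, ?_⟩
      · rw [wt_append, h1]
        rcases Nat.mod_two_eq_zero_or_one w with h0 | h0 <;> simp [h0] <;> omega
      · rw [List.length_append, List.length_singleton, pow_succ]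
        omega

lemma primrec_wt : Primrec wt := by
  have h : Primrec₂ (fun (_ : List Bool) (p : ℕ × Bool) =>
      2 * p.1 + (if p.2 then 1 else 0)) := by
    refine Primrec₂.comp Primrec.nat_add ?_ ?_
    · exact Primrec.nat_mul.comp (Primrec.const 2) (Primrec.fst.comp Primrec.snd)
    · exact Primrec.ite (Primrec.eq.comp (Primrec.snd.comp Primrec.snd) (Primrec.const true))
        (Primrec.const 1) (Primrec.const 0)
  exact Primrec.list_foldl Primrec.id (Primrec.const 1) h

lemma primrec_pow : Primrec₂ (fun a b : ℕ => a ^ b) :=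
  Primrec₂.unpaired'.1 Nat.Primrec.pow

/-- The string of stage `m`. -/
def yy (m : ℕ) : List Bool := (decode (α := List Bool) m.unpair.1).getD []

/-- The parameter of stage `m`. -/
def kk (m : ℕ) : ℕ := m.unpair.2

lemma primrec_yy : Primrec yy :=
  Primrec.option_getD.comp (Primrec.decode.comp (Primrec.fst.comp Primrec.unpair))
    (Primrec.const [])
lemma primrec_kk : Primrec kk := Primrec.snd.comp Primrec.unpair

lemma exists_stage (y : List Bool) (k : ℕ) : ∃ m, yy m = y ∧ kk m = k :=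
  ⟨Nat.pair (encode y) k, by simp [yy], by simp [kk]⟩

/-- Stage `m` shows a new string. -/
def New (Q : ℕ → List Bool → ℕ → Prop) (p m : ℕ) : Prop :=
  Q p (yy m) (kk m) ∧ ∀ m' < m, ¬ (yy m' = yy m ∧ Q p (yy m') (kk m'))

open Classical in
/-- The number of new strings before stage `m`. -/
noncomputable def cnt (Q : ℕ → List Bool → ℕ → Prop) (p m : ℕ) : ℕ :=
  ((List.range m).filter (fun m' => New Q p m')).length

variable {Q : ℕ → List Bool → ℕ → Prop}

lemma primrec_new (hQ : PrimrecPred fun a : ℕ × List Bool × ℕ => Q a.1 a.2.1 a.2.2) :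
    PrimrecRel (New Q) := by
  have h1 : PrimrecPred (fun a : ℕ × ℕ => Q a.1 (yy a.2) (kk a.2)) :=
    hQ.comp (Primrec.pair Primrec.fst (Primrec.pair (primrec_yy.comp Primrec.snd)
      (primrec_kk.comp Primrec.snd)))
  have h2 : PrimrecRel (fun (m' : ℕ) (a : ℕ × ℕ) =>
      ¬ (yy m' = yy a.2 ∧ Q a.1 (yy m') (kk m'))) := by
    refine PrimrecPred.not (PrimrecPred.and ?_ ?_)
    · exact Primrec.eq.comp (primrec_yy.comp Primrec.fst)
        (primrec_yy.comp (Primrec.snd.comp Primrec.snd))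
    · exact hQ.comp (Primrec.pair (Primrec.fst.comp Primrec.snd)
        (Primrec.pair (primrec_yy.comp Primrec.fst) (primrec_kk.comp Primrec.fst)))
  have h3 : PrimrecPred (fun a : ℕ × ℕ => ∀ m' < a.2,
      ¬ (yy m' = yy a.2 ∧ Q a.1 (yy m') (kk m'))) :=
    ((PrimrecRel.forall_mem_list h2).comp (Primrec.list_range.comp Primrec.snd)
      Primrec.id).of_eq (by simp)
  exact h1.and h3

lemma primrec_cnt (hQ : PrimrecPred fun a : ℕ × List Bool × ℕ => Q a.1 a.2.1 a.2.2) :
    Primrec₂ (cnt Q) := by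
  classical
  have h := (primrec_new hQ).swap
  have h2 := PrimrecRel.listFilter h
  have h3 : Primrec₂ (fun (m : ℕ) (p : ℕ) =>
      ((List.range m).filter (fun m' => New Q p m'))) :=
    h2.comp₂ (Primrec.list_range.comp Primrec.fst) Primrec.snd
  exact (Primrec.list_length.comp h3.swap)

lemma new_unique {p m m' : ℕ} (h : New Q p m) (h' : New Q p m') (he : yy m = yy m') :
    m = m' := by
  rcases Nat.lt_trichotomy m m' with h1 | h1 | h1
  · exact absurd ⟨he, h.1⟩ (h'.2 m h1)
  · exact h1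
  · exact absurd ⟨he.symm, h'.1⟩ (h.2 m' h1)

lemma exists_new {p : ℕ} {y : List Bool} (h : ∃ k, Q p y k) :
    ∃ m, New Q p m ∧ yy m = y := by
  classical
  have h1 : ∃ m, yy m = y ∧ Q p (yy m) (kk m) := by
    obtain ⟨k, hk⟩ := h
    obtain ⟨m, h1, h2⟩ := exists_stage y k
    exact ⟨m, h1, by rw [h1, h2]; exact hk⟩
  refine ⟨Nat.find h1, ⟨(Nat.find_spec h1).2, ?_⟩, (Nat.find_spec h1).1⟩
  intro m' hm' hc
  exact Nat.find_min h1 hm' ⟨hc.1.trans (Nat.find_spec h1).1, hc.2⟩

lemma cnt_succ (p m : ℕ) [Decidable (New Q p m)] :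
    cnt Q p (m + 1) = cnt Q p m + (if New Q p m then 1 else 0) := by
  classical
  unfold cnt
  rw [List.range_succ, List.filter_append, List.length_append]
  congr 1
  by_cases h : New Q p m <;> simp [h]

lemma cnt_mono (p : ℕ) : Monotone (cnt Q p) := by
  classical
  refine monotone_nat_of_le_succ fun m => ?_
  rw [cnt_succ]; omega

lemma cnt_lt {p m m' : ℕ} (h : New Q p m) (hm : m < m') : cnt Q p m < cnt Q p m' := by
  classical
  have h1 := cnt_succ (Q := Q) p m
  rw [if_pos h] at h1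
  have h2 := cnt_mono (Q := Q) p (Nat.succ_le_of_lt hm)
  simp only [Nat.succ_eq_add_one] at h2
  omega

lemma cnt_inj {p m m' : ℕ} (h : New Q p m) (h' : New Q p m') (he : cnt Q p m = cnt Q p m') :
    m = m' := by
  rcases Nat.lt_trichotomy m m' with h1 | h1 | h1
  · exact absurd he (cnt_lt h h1).ne
  · exact h1
  · exact absurd he (cnt_lt h' h1).ne'

lemma cnt_lt_card {p m : ℕ} (h : New Q p m) (F : Finset (List Bool))
    (hF : ∀ y' k, Q p y' k → y' ∈ F) : cnt Q p m < F.card := by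
  classical
  have h1 : cnt Q p m = ((Finset.range m).filter (fun m' => New Q p m')).card := by
    unfold cnt
    rw [Finset.card_def, Finset.filter_val, Finset.range_val, Multiset.range,
      Multiset.filter_coe, Multiset.coe_card]
  rw [h1]
  have h2 : (((Finset.range m).filter (fun m' => New Q p m')).image yy) ⊆ F.erase (yy m) := by
    intro z hz
    obtain ⟨m', hm', rfl⟩ := Finset.mem_image.1 hz
    rw [Finset.mem_filter, Finset.mem_range] at hm'
    refine Finset.mem_erase.2 ⟨fun he => ?_, hF _ _ hm'.2.1⟩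
    exact h.2 m' hm'.1 ⟨he, hm'.2.1⟩
  have h3 : (((Finset.range m).filter (fun m' => New Q p m')).image yy).card =
      ((Finset.range m).filter (fun m' => New Q p m')).card := by
    refine Finset.card_image_of_injOn fun a ha b hb hab => ?_
    exact new_unique (Finset.mem_filter.1 ha).2 (Finset.mem_filter.1 hb).2 hab
  have h4 := Finset.card_le_card h2
  rw [h3, Finset.card_erase_of_mem (hF _ _ h.1)] at h4
  have h5 : 0 < F.card := Finset.card_pos.2 ⟨_, hF _ _ h.1⟩
  omega

/-- The graph of the decompressor. The stage `K` codes `s, p, i, m`. -/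
def P (Q : ℕ → List Bool → ℕ → Prop) (q y : List Bool) (K : ℕ) : Prop :=
  (((K.unpair.2.unpair.1 < 2 ^ K.unpair.1 ∧
    wt q = 2 ^ K.unpair.1 * (2 * (K.unpair.2.unpair.1 +
      2 ^ K.unpair.1 * K.unpair.2.unpair.2.unpair.1) + 1)) ∧
    y = yy K.unpair.2.unpair.2.unpair.2) ∧
    New Q K.unpair.2.unpair.1 K.unpair.2.unpair.2.unpair.2) ∧
    cnt Q K.unpair.2.unpair.1 K.unpair.2.unpair.2.unpair.2 = K.unpair.2.unpair.2.unpair.1

lemma primrec_P (hQ : PrimrecPred fun a : ℕ × List Bool × ℕ => Q a.1 a.2.1 a.2.2) :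
    PrimrecPred fun a : List Bool × List Bool × ℕ => P Q a.1 a.2.1 a.2.2 := by
  have hK : Primrec (fun a : List Bool × List Bool × ℕ => a.2.2) :=
    Primrec.snd.comp Primrec.snd
  have hs : Primrec (fun a : List Bool × List Bool × ℕ => a.2.2.unpair.1) :=
    Primrec.fst.comp (Primrec.unpair.comp hK)
  have h2 : Primrec (fun a : List Bool × List Bool × ℕ => a.2.2.unpair.2) :=
    Primrec.snd.comp (Primrec.unpair.comp hK)
  have hp : Primrec (fun a : List Bool × List Bool × ℕ => a.2.2.unpair.2.unpair.1) :=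
    Primrec.fst.comp (Primrec.unpair.comp h2)
  have h3 : Primrec (fun a : List Bool × List Bool × ℕ => a.2.2.unpair.2.unpair.2) :=
    Primrec.snd.comp (Primrec.unpair.comp h2)
  have hi : Primrec (fun a : List Bool × List Bool × ℕ => a.2.2.unpair.2.unpair.2.unpair.1) :=
    Primrec.fst.comp (Primrec.unpair.comp h3)
  have hm : Primrec (fun a : List Bool × List Bool × ℕ => a.2.2.unpair.2.unpair.2.unpair.2) :=
    Primrec.snd.comp (Primrec.unpair.comp h3)
  have hpow : Primrec (fun a : List Bool × List Bool × ℕ => 2 ^ a.2.2.unpair.1) :=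
    primrec_pow.comp (Primrec.const 2) hs
  refine ((((PrimrecPred.and ?_ ?_).and ?_).and ?_).and ?_)
  · exact Primrec.nat_lt.comp hp hpow
  · refine Primrec.eq.comp (primrec_wt.comp Primrec.fst) (Primrec.nat_mul.comp hpow ?_)
    exact Primrec.nat_add.comp (Primrec.nat_mul.comp (Primrec.const 2)
      (Primrec.nat_add.comp hp (Primrec.nat_mul.comp hpow hi))) (Primrec.const 1)
  · exact Primrec.eq.comp (Primrec.fst.comp Primrec.snd) (primrec_yy.comp hm)
  · exact (primrec_new hQ).comp hp hm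
  · exact Primrec.eq.comp ((primrec_cnt hQ).comp hp hm) hi

lemma two_pow_odd_inj {s s' a a' : ℕ} (h : 2 ^ s * (2 * a + 1) = 2 ^ s' * (2 * a' + 1)) :
    s = s' ∧ a = a' := by
  have key : ∀ s s' a a' : ℕ, s < s' → 2 ^ s * (2 * a + 1) ≠ 2 ^ s' * (2 * a' + 1) := by
    intro s s' a a' hlt he
    obtain ⟨d, rfl⟩ := Nat.exists_eq_add_of_lt hlt
    have h1 : 2 * a + 1 = 2 ^ (d + 1) * (2 * a' + 1) := by
      have : 2 ^ s * (2 * a + 1) = 2 ^ s * (2 ^ (d + 1) * (2 * a' + 1)) := by
        rw [he, add_assoc, pow_add]; ring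
      exact Nat.eq_of_mul_eq_mul_left (by positivity) this
    rw [pow_succ, mul_comm (2 ^ d) 2, mul_assoc] at h1
    omega
  rcases Nat.lt_trichotomy s s' with h1 | h1 | h1
  · exact absurd h (key _ _ _ _ h1)
  · subst h1
    have := Nat.eq_of_mul_eq_mul_left (by positivity) h
    exact ⟨rfl, by omega⟩
  · exact absurd h.symm (key _ _ _ _ h1)

lemma P_unique {q y y' : List Bool} {K K' : ℕ} (h : P Q q y K) (h' : P Q q y' K') :
    y = y' := by
  obtain ⟨⟨⟨⟨h1, h2⟩, h3⟩, h4⟩, h5⟩ := h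
  obtain ⟨⟨⟨⟨h1', h2'⟩, h3'⟩, h4'⟩, h5'⟩ := h'
  obtain ⟨e1, e2⟩ := two_pow_odd_inj (h2.symm.trans h2')
  rw [← e1] at e2 h1'
  generalize K.unpair.1 = s at *
  generalize K.unpair.2.unpair.1 = p at *
  generalize K'.unpair.2.unpair.1 = p' at *
  generalize K.unpair.2.unpair.2.unpair.1 = i at *
  generalize K'.unpair.2.unpair.2.unpair.1 = i' at *
  generalize K.unpair.2.unpair.2.unpair.2 = m at *
  generalize K'.unpair.2.unpair.2.unpair.2 = m' at *
  have e3 : p = p' := by
    have := congrArg (· % 2 ^ s) e2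
    simpa [Nat.add_mul_mod_self_left, Nat.mod_eq_of_lt h1, Nat.mod_eq_of_lt h1'] using this
  subst e3
  have e4 : i = i' := by
    have : 2 ^ s * i = 2 ^ s * i' := by omega
    exact Nat.eq_of_mul_eq_mul_left (by positivity) this
  subst e4
  have e5 := cnt_inj h4 h4' (h5.trans h5'.symm)
  rw [h3, h3', e5]

end Descr

/-- The description lemma: a string enumerated by a process with parameter `p` is described by
the parameter and its number in the order of enumeration. -/
theorem description {U : List Bool →. List Bool} (hU : Optimal U)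
    (Q : ℕ → List Bool → ℕ → Prop)
    (hQ : PrimrecPred fun a : ℕ × List Bool × ℕ => Q a.1 a.2.1 a.2.2) :
    ∃ c : ℕ, ∀ (s N p : ℕ) (y : List Bool) (F : Finset (List Bool)),
      p < 2 ^ s → (∃ k, Q p y k) → (∀ y' k, Q p y' k → y' ∈ F) → F.card ≤ 2 ^ N →
      C U y ≤ N + 2 * s + c := by
  obtain ⟨V, hV, hVP⟩ := partrec_of_graph (Descr.P Q) (Descr.primrec_P hQ)
    (fun q y k y' k' h h' => Descr.P_unique h h')
  obtain ⟨c, hc⟩ := hU.2 V hV
  refine ⟨c, ?_⟩
  intro s N p y F hp hy hF hN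
  obtain ⟨m, hm, rfl⟩ := Descr.exists_new hy
  have hi := Descr.cnt_lt_card hm F hF
  obtain ⟨q, hq, hql⟩ := Descr.exists_wt
    (2 ^ s * (2 * (p + 2 ^ s * Descr.cnt Q p m) + 1)) (Nat.succ_le_of_lt (by positivity))
  have hPq : Descr.P Q q (Descr.yy m)
      (Nat.pair s (Nat.pair p (Nat.pair (Descr.cnt Q p m) m))) := by
    simp only [Descr.P, Nat.unpair_pair]
    exact ⟨⟨⟨⟨hp, hq⟩, trivial⟩, hm⟩, trivial⟩
  obtain ⟨q', hq', hq'l⟩ := hc q _ ((hVP _ _).2 ⟨_, hPq⟩)
  have h1 : C U (Descr.yy m) ≤ q'.length := Nat.sInf_le ⟨q', hq', rfl⟩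
  have h2 : 2 ^ s * (2 * (p + 2 ^ s * Descr.cnt Q p m) + 1) < 2 ^ (N + 2 * s + 1) := by
    have h3 : Descr.cnt Q p m + 1 ≤ 2 ^ N := by omega
    have h4 : p + 2 ^ s * Descr.cnt Q p m + 1 ≤ 2 ^ s * 2 ^ N :=
      calc p + 2 ^ s * Descr.cnt Q p m + 1 ≤ 2 ^ s * (Descr.cnt Q p m + 1) := by
            rw [mul_add]; omega
        _ ≤ 2 ^ s * 2 ^ N := Nat.mul_le_mul_left _ h3
    calc 2 ^ s * (2 * (p + 2 ^ s * Descr.cnt Q p m) + 1)
        < 2 ^ s * (2 * (2 ^ s * 2 ^ N)) := by
          apply Nat.mul_lt_mul_of_pos_left _ (by positivity)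
          omega
      _ = 2 ^ (N + 2 * s + 1) := by ring
  have h5 : q.length < N + 2 * s + 1 :=
    (Nat.pow_lt_pow_iff_right (by norm_num : 1 < 2)).1 (lt_of_le_of_lt hql h2)
  omega

end Pool.Agent.Lib.MP_f4f1a8_lc
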