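import Pool.Agent.Lib.MP_f4f1a8_lc.Defs

namespace Pool.Agent.Lib.MP_f4f1a8_lc

open Finset

/-- Clamping to the unit interval. -/
noncomputable def Hphi (x : ℝ) : ℝ := max 0 (min 1 x)

lemma Hphi_mono {x y : ℝ} (h : x ≤ y) : Hphi x ≤ Hphi y :=
  max_le_max le_rfl (min_le_min le_rfl h)

lemma Hphi_of_one_le {x : ℝ} (h : 1 ≤ x) : Hphi x = 1 := by
  unfold Hphi; rw [min_eq_left h]; simp

lemma Hphi_of_nonpos {x : ℝ} (h : x ≤ 0) : Hphi x = 0 := by
  unfold Hphi; rw [min_eq_right (h.trans zero_le_one)]; simp [h]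

lemma Hphi_of_mem {x : ℝ} (h : 0 ≤ x) (h' : x ≤ 1) : Hphi x = x := by
  unfold Hphi; rw [min_eq_right h', max_eq_right h]

lemma Hphi_cont : Continuous Hphi := by
  unfold Hphi; fun_prop

/-- The piecewise linear interpolation of the ball volumes. -/
noncomputable def HW (n : ℕ) (t : ℝ) : ℝ :=
  ∑ i ∈ range (n + 1), (n.choose i : ℝ) * Hphi (t - i)

lemma HW_ext (n N : ℕ) (t : ℝ) (h : n + 1 ≤ N) :
    ∑ i ∈ range N, (n.choose i : ℝ) * Hphi (t - i) = HW n t := by
  unfold HW
  symm
  apply Finset.sum_subset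
  · intro i hi; rw [mem_range] at *; omega
  · intro i _ hi
    rw [mem_range, not_lt] at hi
    rw [Nat.choose_eq_zero_of_lt (by omega)]
    simp

lemma HW_shift (n : ℕ) (t : ℝ) :
    HW n (t + 1) = ∑ i ∈ range (n + 1), (n.choose (i + 1) : ℝ) * Hphi (t - i) + Hphi (t + 1) := by
  rw [← HW_ext n (n + 2) (t + 1) (by omega), Finset.sum_range_succ']
  congr 1
  · apply Finset.sum_congr rfl
    intro i _
    congr 2
    push_cast; ring
  · simp

lemma HW_succ (n : ℕ) (t : ℝ) : HW (n + 1) (t + 1) = HW n (t + 1) + HW n t := by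
  rw [HW_shift n t]
  unfold HW
  rw [Finset.sum_range_succ']
  have : ∀ i ∈ range (n + 1), ((n + 1).choose (i + 1) : ℝ) * Hphi (t + 1 - ((i + 1 : ℕ) : ℝ))
      = (n.choose i : ℝ) * Hphi (t - i) + (n.choose (i + 1) : ℝ) * Hphi (t - i) := by
    intro i _
    rw [Nat.choose_succ_succ]
    have : t + 1 - ((i + 1 : ℕ) : ℝ) = t - i := by push_cast; ring
    rw [this]; push_cast; ring
  rw [Finset.sum_congr rfl this, Finset.sum_add_distrib]
  simp
  ring

lemma HW_mono (n : ℕ) {s t : ℝ} (h : s ≤ t) : HW n s ≤ HW n t := by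
  unfold HW
  apply Finset.sum_le_sum
  intro i _
  exact mul_le_mul_of_nonneg_left (Hphi_mono (by linarith)) (by positivity)

lemma HW_cont (n : ℕ) : Continuous (HW n) := by
  unfold HW
  apply continuous_finsetSum
  intro i _
  exact continuous_const.mul (Hphi_cont.comp (by fun_prop))

lemma HW_zero (n : ℕ) : HW n 0 = 0 := by
  unfold HW
  apply Finset.sum_eq_zero
  intro i _
  rw [Hphi_of_nonpos (by simp)]
  simp

lemma HW_small (n : ℕ) {t : ℝ} (h0 : 0 ≤ t) (h : t ≤ 1) : HW n t = t := by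
  unfold HW
  rw [Finset.sum_range_succ']
  simp only [Nat.choose_zero_right, Nat.cast_one, Nat.cast_zero, sub_zero, one_mul]
  rw [Hphi_of_mem h0 h, Finset.sum_eq_zero, zero_add]
  intro i _
  rw [Hphi_of_nonpos]
  · simp
  · push_cast; have : (0 : ℝ) ≤ i := by positivity
    linarith

lemma HW_vol (n s : ℕ) : HW n ((s : ℝ) + 1) = vol n s := by
  rw [← HW_ext n (n + 1 + (s + 1)) _ (by omega)]
  unfold vol
  push_cast
  rw [← Finset.sum_subset (s₁ := range (s + 1)) (s₂ := range (n + 1 + (s + 1)))]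
  · apply Finset.sum_congr rfl
    intro i hi
    rw [mem_range] at hi
    have : (i : ℝ) ≤ s := by exact_mod_cast Nat.lt_succ_iff.mp hi
    rw [Hphi_of_one_le (by linarith)]
    simp
  · intro i hi; rw [mem_range] at *; omega
  · intro i _ hi
    rw [mem_range, not_lt] at hi
    have : ((s + 1 : ℕ) : ℝ) ≤ i := by exact_mod_cast hi
    push_cast at this
    rw [Hphi_of_nonpos (by linarith)]
    simp

/-- Concavity of the growth function. -/
lemma HW_concave (n : ℕ) {v w u t : ℝ} (hv : 0 ≤ v) (hvw : v ≤ w) (hwu : w ≤ u) (hut : u ≤ t)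
    (h : HW n t - HW n u ≤ HW n w - HW n v) :
    HW n (t + 1) - HW n (u + 1) ≤ HW n (w + 1) - HW n (v + 1) := by
  set K := ⌊u⌋₊ with hK
  have hu0 : 0 ≤ u := by linarith
  have hKu : (K : ℝ) ≤ u := Nat.floor_le hu0
  have huK : u < K + 1 := Nat.lt_floor_add_one u
  have ident : ∀ i : ℕ, (n.choose (i + 1)) * (i + 1) = n.choose i * (n - i) :=
    fun i => Nat.choose_succ_right_eq n i
  have h1 : ((K : ℝ) + 1) * (HW n (t + 1) - HW n (u + 1)) ≤
      ((n - K : ℕ) : ℝ) * (HW n t - HW n u) := by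
    rw [HW_shift n t, HW_shift n u, Hphi_of_one_le (by linarith : (1 : ℝ) ≤ t + 1),
      Hphi_of_one_le (by linarith : (1 : ℝ) ≤ u + 1)]
    unfold HW
    rw [add_sub_add_right_eq_sub, ← Finset.sum_sub_distrib, ← Finset.sum_sub_distrib,
      Finset.mul_sum, Finset.mul_sum]
    apply Finset.sum_le_sum
    intro i _
    rw [← mul_sub, ← mul_sub]
    have ha : 0 ≤ Hphi (t - i) - Hphi (u - i) := sub_nonneg.mpr (Hphi_mono (by linarith))
    by_cases hi : K ≤ i
    · have : (K + 1) * n.choose (i + 1) ≤ (n - K) * n.choose i := by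
        calc (K + 1) * n.choose (i + 1) ≤ (i + 1) * n.choose (i + 1) :=
              Nat.mul_le_mul_right _ (by omega)
          _ = (n - i) * n.choose i := by rw [mul_comm, ident, mul_comm]
          _ ≤ (n - K) * n.choose i := Nat.mul_le_mul_right _ (by omega)
      have h' : ((K : ℝ) + 1) * (n.choose (i + 1) : ℝ) ≤ ((n - K : ℕ) : ℝ) * (n.choose i : ℝ) := by
        exact_mod_cast this
      rw [← mul_assoc, ← mul_assoc]
      exact mul_le_mul_of_nonneg_right h' ha
    · push Not at hi
      have hi' : ((i : ℝ)) + 1 ≤ K := by exact_mod_cast hi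
      rw [Hphi_of_one_le (by linarith : (1 : ℝ) ≤ t - i),
        Hphi_of_one_le (by linarith : (1 : ℝ) ≤ u - i)]
      simp
  have h2 : ((n - K : ℕ) : ℝ) * (HW n w - HW n v) ≤
      ((K : ℝ) + 1) * (HW n (w + 1) - HW n (v + 1)) := by
    rw [HW_shift n w, HW_shift n v, Hphi_of_one_le (by linarith : (1 : ℝ) ≤ w + 1),
      Hphi_of_one_le (by linarith : (1 : ℝ) ≤ v + 1)]
    unfold HW
    rw [add_sub_add_right_eq_sub, ← Finset.sum_sub_distrib, ← Finset.sum_sub_distrib,
      Finset.mul_sum, Finset.mul_sum]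
    apply Finset.sum_le_sum
    intro i _
    rw [← mul_sub, ← mul_sub]
    have ha : 0 ≤ Hphi (w - i) - Hphi (v - i) := sub_nonneg.mpr (Hphi_mono (by linarith))
    by_cases hi : i ≤ K
    · have : (n - K) * n.choose i ≤ (K + 1) * n.choose (i + 1) := by
        calc (n - K) * n.choose i ≤ (n - i) * n.choose i := Nat.mul_le_mul_right _ (by omega)
          _ = (i + 1) * n.choose (i + 1) := by rw [mul_comm, ← ident, mul_comm]
          _ ≤ (K + 1) * n.choose (i + 1) := Nat.mul_le_mul_right _ (by omega)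
      have h' : ((n - K : ℕ) : ℝ) * (n.choose i : ℝ) ≤ ((K : ℝ) + 1) * (n.choose (i + 1) : ℝ) := by
        exact_mod_cast this
      rw [← mul_assoc, ← mul_assoc]
      exact mul_le_mul_of_nonneg_right h' ha
    · push Not at hi
      have hi' : ((K : ℝ)) + 1 ≤ i := by exact_mod_cast hi
      rw [Hphi_of_nonpos (by linarith : w - i ≤ 0), Hphi_of_nonpos (by linarith : v - i ≤ 0)]
      simp
  have h3 : ((n - K : ℕ) : ℝ) * (HW n t - HW n u) ≤ ((n - K : ℕ) : ℝ) * (HW n w - HW n v) :=
    mul_le_mul_of_nonneg_left h (by positivity)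
  have h4 := (h1.trans h3).trans h2
  have : (0 : ℝ) < K + 1 := by positivity
  exact le_of_mul_le_mul_left h4 this

lemma HW_step (n : ℕ) {t : ℝ} (ht : 1 ≤ t) (a b : ℕ) (p q : ℝ) (hab : b ≤ a)
    (h : HW (n + 1) t ≤ a + b)
    (hp : ∀ s : ℝ, 1 ≤ s → HW n s ≤ a → HW n (s + 1) ≤ p)
    (hq : ∀ s : ℝ, 1 ≤ s → HW n s ≤ b → HW n (s + 1) ≤ q) :
    HW (n + 1) (t + 1) ≤ p + max q a := by
  have hab' : (b : ℝ) ≤ a := by exact_mod_cast hab
  have hs : HW (n + 1) t = HW n t + HW n (t - 1) := by
    have := HW_succ n (t - 1)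
    simpa using this
  rw [HW_succ]
  by_cases h1 : HW n t ≤ a
  · have := hp t ht h1
    linarith [le_max_right q (a : ℝ)]
  · push Not at h1
    have hb : HW n (t - 1) < b := by linarith
    have hb0 : (0 : ℝ) < b := by
      have : HW n 0 ≤ HW n (t - 1) := HW_mono n (by linarith)
      rw [HW_zero] at this
      linarith
    have hb1 : (1 : ℝ) ≤ b := by
      have : 0 < b := by exact_mod_cast hb0
      exact_mod_cast this
    obtain ⟨u, ⟨hu0, hut⟩, hu⟩ : (a : ℝ) ∈ HW n '' Set.Icc 0 t :=
      intermediate_value_Icc (by linarith) (HW_cont n).continuousOn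
        ⟨by rw [HW_zero]; positivity, h1.le⟩
    have hut1 : t - 1 ≤ u := by
      by_contra hc
      push Not at hc
      have := HW_mono n hc.le
      linarith
    obtain ⟨w, ⟨hwt, hwu⟩, hw⟩ : (b : ℝ) ∈ HW n '' Set.Icc (t - 1) u :=
      intermediate_value_Icc hut1 (HW_cont n).continuousOn ⟨hb.le, by rw [hu]; exact hab'⟩
    have hw1 : 1 ≤ w := by
      by_contra hc
      push Not at hc
      have := HW_small n (by linarith : 0 ≤ w) hc.le
      linarith
    have hpu := hp u (by linarith) hu.le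
    have hqw := hq w hw1 hw.le
    have := HW_concave n (v := t - 1) (w := w) (u := u) (t := t) (by linarith) hwt hwu hut
      (by rw [hs] at h; linarith)
    rw [sub_add_cancel] at this
    linarith [le_max_left q (a : ℝ)]

/-- The section of `A` with first coordinate `b`. -/
def Hsec {n : ℕ} (A : Finset (Fin (n + 1) → Bool)) (b : Bool) : Finset (Fin n → Bool) :=
  univ.filter (fun z => (Fin.cons b z : Fin (n + 1) → Bool) ∈ A)

lemma card_Hsec {n : ℕ} (A : Finset (Fin (n + 1) → Bool)) (b : Bool) :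
    A.card = (Hsec A b).card + (Hsec A (!b)).card := by
  have key : A = (Hsec A b).image (fun z => (Fin.cons b z : Fin (n + 1) → Bool)) ∪
      (Hsec A (!b)).image (fun z => (Fin.cons (!b) z : Fin (n + 1) → Bool)) := by
    ext y
    simp only [mem_union, mem_image, Hsec, mem_filter, mem_univ, true_and]
    constructor
    · intro hy
      by_cases hb : y 0 = b
      · left
        refine ⟨Fin.tail y, ?_, ?_⟩
        · rw [← hb, Fin.cons_self_tail]; exact hy
        · rw [← hb, Fin.cons_self_tail]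
      · right
        have hb' : y 0 = !b := by
          cases h1 : y 0 <;> cases b <;> simp_all
        refine ⟨Fin.tail y, ?_, ?_⟩
        · rw [← hb', Fin.cons_self_tail]; exact hy
        · rw [← hb', Fin.cons_self_tail]
    · rintro (⟨z, hz, rfl⟩ | ⟨z, hz, rfl⟩) <;> exact hz
  have inj : ∀ b : Bool, Function.Injective
      (fun z : Fin n → Bool => (Fin.cons b z : Fin (n + 1) → Bool)) :=
    fun b z z' h => by
      have := congrArg Fin.tail h
      simpa using this
  conv_lhs => rw [key]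
  rw [card_union_of_disjoint, card_image_of_injective _ (inj b),
    card_image_of_injective _ (inj (!b))]
  rw [Finset.disjoint_left]
  intro y hy hy'
  simp only [mem_image] at hy hy'
  obtain ⟨z, _, rfl⟩ := hy
  obtain ⟨z', _, h'⟩ := hy'
  have := congrFun h' 0
  simp at this

lemma hammingDist_cons {n : ℕ} (b b' : Bool) (z z' : Fin n → Bool) :
    hammingDist (Fin.cons b z : Fin (n + 1) → Bool) (Fin.cons b' z') =
      (if b = b' then 0 else 1) + hammingDist z z' := by
  unfold hammingDist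
  rw [Fin.univ_succ, Finset.filter_cons]
  simp only [Fin.cons_zero]
  have h2 : ((univ.map ⟨Fin.succ, Fin.succ_injective n⟩).filter
      (fun i => (Fin.cons b z : Fin (n + 1) → Bool) i ≠ (Fin.cons b' z' : Fin (n + 1) → Bool) i)).card
      = (univ.filter (fun i => z i ≠ z' i)).card := by
    rw [Finset.filter_map, Finset.card_map]
    congr 1
  by_cases hb : b = b'
  · simp [hb]
    rw [← h2]
    simp [hb]
  · simp [hb]
    rw [add_comm, ← h2]

lemma nbr_mono_card {n : ℕ} (A : Finset (Fin n → Bool)) (d : ℕ) : A ⊆ nbr A d := by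
  intro x hx
  simp only [nbr, mem_filter, mem_univ, true_and]
  exact ⟨x, hx, by simp⟩

lemma sec_nbr_left {n : ℕ} (A : Finset (Fin (n + 1) → Bool)) (b : Bool) :
    nbr (Hsec A b) 1 ⊆ Hsec (nbr A 1) b := by
  intro z hz
  simp only [nbr, Hsec, mem_filter, mem_univ, true_and] at hz ⊢
  obtain ⟨x, hx, hxz⟩ := hz
  refine ⟨_, hx, ?_⟩
  rw [hammingDist_cons]; simpa using hxz

lemma sec_nbr_right {n : ℕ} (A : Finset (Fin (n + 1) → Bool)) (b : Bool) :
    Hsec A b ⊆ Hsec (nbr A 1) (!b) := by
  intro z hz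
  simp only [nbr, Hsec, mem_filter, mem_univ, true_and] at hz ⊢
  refine ⟨_, hz, ?_⟩
  rw [hammingDist_cons]; simp

theorem harper_one : ∀ (n : ℕ) (A : Finset (Fin n → Bool)) (t : ℝ), 1 ≤ t → HW n t ≤ A.card →
    HW n (t + 1) ≤ (nbr A 1).card := by
  intro n
  induction n with
  | zero =>
    intro A t ht h
    have h1 : ∀ s : ℝ, 1 ≤ s → HW 0 s = 1 := by
      intro s hs
      unfold HW
      simp [Hphi_of_one_le hs]
    rw [h1 t ht] at h
    rw [h1 (t + 1) (by linarith)]
    exact h.trans (by exact_mod_cast card_le_card (nbr_mono_card A 1))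
  | succ n ih =>
    intro A t ht h
    obtain ⟨b, hb⟩ : ∃ b : Bool, (Hsec A (!b)).card ≤ (Hsec A b).card := by
      rcases le_total (Hsec A (!true)).card (Hsec A true).card with h | h
      · exact ⟨true, h⟩
      · exact ⟨false, by simpa using h⟩
    have hA := card_Hsec A b
    have hN := card_Hsec (nbr A 1) b
    have e1 : (nbr (Hsec A b) 1).card ≤ (Hsec (nbr A 1) b).card :=
      card_le_card (sec_nbr_left A b)
    have e2 : (nbr (Hsec A (!b)) 1).card ≤ (Hsec (nbr A 1) (!b)).card :=
      card_le_card (sec_nbr_left A (!b))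
    have e3 : (Hsec A b).card ≤ (Hsec (nbr A 1) (!b)).card :=
      card_le_card (sec_nbr_right A b)
    have key := HW_step n ht (Hsec A b).card (Hsec A (!b)).card
      ((nbr (Hsec A b) 1).card : ℝ) ((nbr (Hsec A (!b)) 1).card : ℝ) hb
      (by rw [hA] at h; exact_mod_cast h) (fun s hs h' => ih _ s hs h') (fun s hs h' => ih _ s hs h')
    refine key.trans ?_
    rw [hN]
    push_cast
    have e1' : ((nbr (Hsec A b) 1).card : ℝ) ≤ (Hsec (nbr A 1) b).card := by exact_mod_cast e1
    have e2' : ((nbr (Hsec A (!b)) 1).card : ℝ) ≤ (Hsec (nbr A 1) (!b)).card := by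
      exact_mod_cast e2
    have e3' : ((Hsec A b).card : ℝ) ≤ (Hsec (nbr A 1) (!b)).card := by exact_mod_cast e3
    have := max_le e2' e3'
    linarith

/-- Harper's vertex isoperimetric inequality, in the form of ball volumes. -/
theorem harper {n : ℕ} (A : Finset (Fin n → Bool)) (s r : ℕ) (h : vol n s ≤ A.card) :
    vol n (s + r) ≤ (nbr A r).card := by
  induction r generalizing A s with
  | zero => exact h.trans (card_le_card (nbr_mono_card A 0))
  | succ r ih =>
    have h1 : vol n (s + 1) ≤ (nbr A 1).card := by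
      have := harper_one n A ((s : ℝ) + 1) (by have : (0 : ℝ) ≤ s := by positivity
                                               linarith)
        (by rw [HW_vol]; exact_mod_cast h)
      have e : ((s : ℝ) + 1 + 1) = ((s + 1 : ℕ) : ℝ) + 1 := by push_cast; ring
      rw [e, HW_vol] at this
      exact_mod_cast this
    have h2 := ih (nbr A 1) (s + 1) h1
    rw [show s + (r + 1) = s + 1 + r by ring]
    refine h2.trans (card_le_card ?_)
    intro y hy
    simp only [nbr, mem_filter, mem_univ, true_and] at hy ⊢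
    obtain ⟨x, ⟨z, hz, hzx⟩, hxy⟩ := hy
    refine ⟨z, hz, (hammingDist_triangle z x y).trans ?_⟩
    omega

end Pool.Agent.Lib.MP_f4f1a8_lc
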