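import Pool.Agent.Lib.MP_f4f1a8_lc.Defs

/-!
# MP_f4f1a8_lc: the list of all strings and the distance of strings are primitive recursive
-/

namespace Pool.Agent.Lib.MP_f4f1a8_lc

open Finset

theorem mem_strs {n : ℕ} {y : List Bool} : y ∈ strs n ↔ y.length = n := by
  induction n generalizing y with
  | zero => simp [strs]
  | succ n ih =>
    simp only [strs, List.mem_append, List.mem_map]
    constructor
    · rintro (⟨a, ha, rfl⟩ | ⟨a, ha, rfl⟩)
      · simp [ih.1 ha]
      · simp [ih.1 ha]
    · intro h
      cases y with
      | nil => simp at h
      | cons b y =>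
        have hy : y.length = n := by simpa using h
        cases b
        · exact Or.inl ⟨y, ih.2 hy, rfl⟩
        · exact Or.inr ⟨y, ih.2 hy, rfl⟩

theorem strs_nodup (n : ℕ) : (strs n).Nodup := by
  induction n with
  | zero => simp [strs]
  | succ n ih =>
    simp only [strs]
    refine List.Nodup.append (ih.map (List.cons_injective)) (ih.map (List.cons_injective)) ?_
    intro a h1 h2
    simp only [List.mem_map] at h1 h2
    obtain ⟨x, _, rfl⟩ := h1
    obtain ⟨y, _, h⟩ := h2
    simp at h

theorem primrec_strs : Primrec strs := by
  have hf : Primrec₂ (fun (_ : ℕ) (l : List (List Bool)) =>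
      l.map (List.cons false) ++ l.map (List.cons true)) := by
    apply Primrec.list_append.comp₂
    · exact (Primrec.list_map Primrec.snd
        (Primrec.list_cons.comp (Primrec.const false) Primrec.snd).to₂).to₂
    · exact (Primrec.list_map Primrec.snd
        (Primrec.list_cons.comp (Primrec.const true) Primrec.snd).to₂).to₂
  refine (Primrec.nat_rec₁ [[]] hf).of_eq ?_
  intro n
  induction n with
  | zero => rfl
  | succ n ih => simp only [strs]; rw [← ih]

theorem primrec_ldist : Primrec₂ ldist := by
  have hR : PrimrecRel (fun (i : ℕ) (p : List Bool × List Bool) => p.1[i]? ≠ p.2[i]?) := by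
    apply PrimrecPred.not
    apply Primrec.eq.comp
    · exact Primrec.list_getElem?.comp (Primrec.fst.comp Primrec.snd) Primrec.fst
    · exact Primrec.list_getElem?.comp (Primrec.snd.comp Primrec.snd) Primrec.fst
  have h1 : Primrec (fun p : List Bool × List Bool =>
      ((List.range p.1.length).filter (fun i => decide (p.1[i]? ≠ p.2[i]?))).length) :=
    Primrec.list_length.comp ((PrimrecRel.listFilter hR).comp
      (Primrec.list_range.comp (Primrec.list_length.comp Primrec.fst)) Primrec.id)
  exact h1

theorem ldist_ofFn {n : ℕ} (x y : Fin n → Bool) :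
    ldist (List.ofFn x) (List.ofFn y) = hammingDist x y := by
  unfold ldist hammingDist
  have h1 : List.range (List.ofFn x).length = (List.finRange n).map (fun i : Fin n => (i : ℕ)) := by
    rw [List.length_ofFn]
    exact List.map_coe_finRange_eq_range.symm
  rw [h1, List.filter_map, List.length_map]
  have h2 : (Finset.univ.filter (fun i : Fin n => x i ≠ y i)).card =
      ((List.finRange n).filter (fun i : Fin n => decide (x i ≠ y i))).length := by
    rw [Finset.card_def, Finset.filter_val, Fin.univ_def]
    simp
  rw [h2]
  congr 1
  apply List.filter_congr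
  intro i _
  simp [Function.comp]

end Pool.Agent.Lib.MP_f4f1a8_lc
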