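import Pool.Agent.Lib.MP_f4f1a8_lc.Vol
import Pool.Agent.Lib.MP_f4f1a8_lc.Code
import Pool.Agent.Lib.MP_f4f1a8_lc.Prim
import Pool.Agent.Lib.MP_f4f1a8_lc.Descr

/-! Module PCODE : a computable code and descriptions of the points near it. -/

namespace Pool.Agent.Lib.MP_f4f1a8_lc

open Finset

namespace PC

/-- number of members of `T` within distance `j` of `y` -/
def cnt (T : List (List Bool)) (y : List Bool) (j : ℕ) : ℕ :=
  (T.filter (fun c => decide (ldist c y ≤ j))).length

/-- `T` lists a code -/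
def Good (n l : ℕ) (T : List (List Bool)) : Prop :=
  T.length = 2 ^ l ∧ (∀ c ∈ T, c.length = n) ∧
    ∀ y ∈ strs n, ∀ j ∈ List.range (n + 1),
      2 ^ n * cnt T y j ≤ 2 * n * 2 ^ n + 2 * 2 ^ l * cnt (strs n) y j

/-- the list with number `k` -/
def D (k : ℕ) : List (List Bool) := ((Encodable.decode k : Option (List (List Bool)))).getD []

/-- the relation enumerated -/
def Q (p : ℕ) (y : List Bool) (k : ℕ) : Prop :=
  y.length = p.unpair.1.unpair.1 ∧ Good p.unpair.1.unpair.1 p.unpair.1.unpair.2 (D k) ∧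
    (∀ k' ∈ List.range k, ¬ Good p.unpair.1.unpair.1 p.unpair.1.unpair.2 (D k')) ∧
    ∃ c ∈ D k, ldist c y ≤ p.unpair.2

theorem primrec_two_pow : Primrec (fun n : ℕ => 2 ^ n) := by
  have h : Primrec₂ (fun (_ : ℕ) (b : ℕ) => 2 * b) :=
    Primrec.nat_mul.comp (Primrec.const 2) Primrec.snd
  refine (Primrec.nat_rec₁ 1 h).of_eq (fun n => ?_)
  induction n with
  | zero => rfl
  | succ n ih => rw [pow_succ, ← ih]; exact mul_comm _ _

theorem primrec_cnt :
    Primrec (fun a : List (List Bool) × List Bool × ℕ => cnt a.1 a.2.1 a.2.2) := by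
  have h : PrimrecRel (fun (c : List Bool) (b : List Bool × ℕ) => ldist c b.1 ≤ b.2) :=
    Primrec.nat_le.comp₂
      (primrec_ldist.comp₂ Primrec₂.left (Primrec.fst.comp₂ Primrec₂.right))
      (Primrec.snd.comp₂ Primrec₂.right)
  exact Primrec.list_length.comp ((h.listFilter).comp Primrec.fst Primrec.snd)

theorem primrec_good :
    PrimrecPred (fun a : ℕ × ℕ × List (List Bool) => Good a.1 a.2.1 a.2.2) := by
  have h1 : PrimrecPred (fun a : ℕ × ℕ × List (List Bool) => a.2.2.length = 2 ^ a.2.1) :=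
    Primrec.eq.comp (Primrec.list_length.comp (Primrec.snd.comp Primrec.snd))
      (primrec_two_pow.comp (Primrec.fst.comp Primrec.snd))
  have h2 : PrimrecPred (fun a : ℕ × ℕ × List (List Bool) => ∀ c ∈ a.2.2, c.length = a.1) := by
    have h : PrimrecRel (fun (c : List Bool) (n : ℕ) => c.length = n) :=
      Primrec.eq.comp₂ (Primrec.list_length.comp₂ Primrec₂.left) Primrec₂.right
    exact h.forall_mem_list.comp (Primrec.snd.comp Primrec.snd) Primrec.fst
  -- the inequality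
  have hb : Primrec (fun b : ℕ × List Bool × ℕ × ℕ × List (List Bool) => b.2.2.2.2) :=
    Primrec.snd.comp (Primrec.snd.comp (Primrec.snd.comp Primrec.snd))
  have hn : Primrec (fun b : ℕ × List Bool × ℕ × ℕ × List (List Bool) => b.2.2.1) :=
    Primrec.fst.comp (Primrec.snd.comp Primrec.snd)
  have hl : Primrec (fun b : ℕ × List Bool × ℕ × ℕ × List (List Bool) => b.2.2.2.1) :=
    Primrec.fst.comp (Primrec.snd.comp (Primrec.snd.comp Primrec.snd))
  have hy : Primrec (fun b : ℕ × List Bool × ℕ × ℕ × List (List Bool) => b.2.1) :=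
    Primrec.fst.comp Primrec.snd
  have hj : Primrec (fun b : ℕ × List Bool × ℕ × ℕ × List (List Bool) => b.1) := Primrec.fst
  have h3 : PrimrecRel (fun (j : ℕ) (b : List Bool × ℕ × ℕ × List (List Bool)) =>
      2 ^ b.2.1 * cnt b.2.2.2 b.1 j ≤
        2 * b.2.1 * 2 ^ b.2.1 + 2 * 2 ^ b.2.2.1 * cnt (strs b.2.1) b.1 j) := by
    have e1 : Primrec (fun b : ℕ × List Bool × ℕ × ℕ × List (List Bool) =>
        2 ^ b.2.2.1 * cnt b.2.2.2.2 b.2.1 b.1) :=
      Primrec.nat_mul.comp (primrec_two_pow.comp hn)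
        (primrec_cnt.comp (hb.pair (hy.pair hj)))
    have e2 : Primrec (fun b : ℕ × List Bool × ℕ × ℕ × List (List Bool) =>
        2 * b.2.2.1 * 2 ^ b.2.2.1 + 2 * 2 ^ b.2.2.2.1 * cnt (strs b.2.2.1) b.2.1 b.1) :=
      Primrec.nat_add.comp
        (Primrec.nat_mul.comp (Primrec.nat_mul.comp (Primrec.const 2) hn)
          (primrec_two_pow.comp hn))
        (Primrec.nat_mul.comp (Primrec.nat_mul.comp (Primrec.const 2) (primrec_two_pow.comp hl))
          (primrec_cnt.comp ((primrec_strs.comp hn).pair (hy.pair hj))))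
    exact Primrec.nat_le.comp e1 e2
  have h4 : PrimrecRel (fun (y : List Bool) (a : ℕ × ℕ × List (List Bool)) =>
      ∀ j ∈ List.range (a.1 + 1), 2 ^ a.1 * cnt a.2.2 y j ≤
        2 * a.1 * 2 ^ a.1 + 2 * 2 ^ a.2.1 * cnt (strs a.1) y j) :=
    h3.forall_mem_list.comp
      (Primrec.list_range.comp (Primrec.succ.comp (Primrec.fst.comp Primrec.snd))) Primrec.id
  have h5 : PrimrecPred (fun a : ℕ × ℕ × List (List Bool) =>
      ∀ y ∈ strs a.1, ∀ j ∈ List.range (a.1 + 1), 2 ^ a.1 * cnt a.2.2 y j ≤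
        2 * a.1 * 2 ^ a.1 + 2 * 2 ^ a.2.1 * cnt (strs a.1) y j) :=
    h4.forall_mem_list.comp (primrec_strs.comp Primrec.fst) Primrec.id
  exact h1.and (h2.and h5)

theorem primrec_D : Primrec D := by
  exact Primrec.option_getD.comp Primrec.decode (Primrec.const [])

theorem primrec_Q : PrimrecPred (fun a : ℕ × List Bool × ℕ => Q a.1 a.2.1 a.2.2) := by
  have hn : Primrec (fun a : ℕ × List Bool × ℕ => a.1.unpair.1.unpair.1) :=
    Primrec.fst.comp (Primrec.unpair.comp (Primrec.fst.comp (Primrec.unpair.comp Primrec.fst)))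
  have hl : Primrec (fun a : ℕ × List Bool × ℕ => a.1.unpair.1.unpair.2) :=
    Primrec.snd.comp (Primrec.unpair.comp (Primrec.fst.comp (Primrec.unpair.comp Primrec.fst)))
  have hj : Primrec (fun a : ℕ × List Bool × ℕ => a.1.unpair.2) :=
    Primrec.snd.comp (Primrec.unpair.comp Primrec.fst)
  have hy : Primrec (fun a : ℕ × List Bool × ℕ => a.2.1) := Primrec.fst.comp Primrec.snd
  have hk : Primrec (fun a : ℕ × List Bool × ℕ => a.2.2) := Primrec.snd.comp Primrec.snd
  have h1 : PrimrecPred (fun a : ℕ × List Bool × ℕ => a.2.1.length = a.1.unpair.1.unpair.1) :=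
    Primrec.eq.comp (Primrec.list_length.comp hy) hn
  have h2 : PrimrecPred (fun a : ℕ × List Bool × ℕ =>
      Good a.1.unpair.1.unpair.1 a.1.unpair.1.unpair.2 (D a.2.2)) :=
    primrec_good.comp (hn.pair (hl.pair (primrec_D.comp hk)))
  have h3 : PrimrecRel (fun (k : ℕ) (b : ℕ × ℕ) => ¬ Good b.1 b.2 (D k)) :=
    (primrec_good.comp ((Primrec.fst.comp Primrec.snd).pair
      ((Primrec.snd.comp Primrec.snd).pair (primrec_D.comp Primrec.fst)))).not
  have h4 : PrimrecPred (fun a : ℕ × List Bool × ℕ =>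
      ∀ k' ∈ List.range a.2.2, ¬ Good a.1.unpair.1.unpair.1 a.1.unpair.1.unpair.2 (D k')) :=
    h3.forall_mem_list.comp (Primrec.list_range.comp hk) (hn.pair hl)
  have h5 : PrimrecRel (fun (c : List Bool) (b : List Bool × ℕ) => ldist c b.1 ≤ b.2) :=
    Primrec.nat_le.comp₂
      (primrec_ldist.comp₂ Primrec₂.left (Primrec.fst.comp₂ Primrec₂.right))
      (Primrec.snd.comp₂ Primrec₂.right)
  have h6 : PrimrecPred (fun a : ℕ × List Bool × ℕ =>
      ∃ c ∈ D a.2.2, ldist c a.2.1 ≤ a.1.unpair.2) :=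
    h5.exists_mem_list.comp (primrec_D.comp hk) (hy.pair hj)
  exact h1.and (h2.and (h4.and h6))

theorem exists_ofFn {n : ℕ} (y : List Bool) (h : y.length = n) :
    ∃ y' : Fin n → Bool, y = List.ofFn y' := by
  subst h
  exact ⟨y.get, (List.ofFn_get y).symm⟩

theorem exists_ofFn₂ {m n : ℕ} (T : List (List Bool)) (h : T.length = m)
    (hT : ∀ c ∈ T, c.length = n) :
    ∃ c : Fin m → (Fin n → Bool), T = List.ofFn (fun i => List.ofFn (c i)) := by
  subst h
  have h1 : ∀ i : Fin T.length, ∃ c : Fin n → Bool, T.get i = List.ofFn c := fun i =>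
    exists_ofFn _ (hT _ (List.get_mem T i))
  choose c hc using h1
  refine ⟨c, ?_⟩
  have h2 : (fun i => List.ofFn (c i)) = T.get := by
    funext i
    exact (hc i).symm
  rw [h2, List.ofFn_get]

theorem length_filter_ofFn {α : Type*} {m : ℕ} (f : Fin m → α) (P : α → Prop) [DecidablePred P] :
    ((List.ofFn f).filter (fun a => decide (P a))).length =
      (univ.filter (fun i => P (f i))).card := by
  rw [List.ofFn_eq_map, List.filter_map, List.length_map]
  have h1 : ((List.finRange m).filter (fun i => decide (P (f i)))).toFinset =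
      univ.filter (fun i => P (f i)) := by
    ext i
    simp
  rw [← h1, List.toFinset_card_of_nodup ((List.nodup_finRange m).filter _)]
  rfl

theorem cnt_ofFn {m n : ℕ} (c : Fin m → (Fin n → Bool)) (y : Fin n → Bool) (j : ℕ) :
    cnt (List.ofFn (fun i => List.ofFn (c i))) (List.ofFn y) j =
      (univ.filter (fun i => hammingDist (c i) y ≤ j)).card := by
  unfold cnt
  rw [length_filter_ofFn (fun i => List.ofFn (c i)) (fun c => ldist c (List.ofFn y) ≤ j)]
  simp only [ldist_ofFn]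

theorem cnt_strs {n : ℕ} (y : Fin n → Bool) (j : ℕ) :
    cnt (strs n) (List.ofFn y) j = vol n j := by
  unfold cnt
  rw [← List.toFinset_card_of_nodup ((strs_nodup n).filter _), ← card_ball y j]
  symm
  apply Finset.card_bij (fun z _ => List.ofFn z)
  · intro z hz
    rw [List.mem_toFinset, List.mem_filter]
    refine ⟨mem_strs.2 (List.length_ofFn), ?_⟩
    simp only [ball, mem_filter, mem_univ, true_and] at hz
    rw [ldist_ofFn, decide_eq_true_eq, hammingDist_comm]
    exact hz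
  · intro z _ z' _ h
    exact List.ofFn_injective h
  · intro z hz
    rw [List.mem_toFinset, List.mem_filter] at hz
    obtain ⟨z', rfl⟩ := exists_ofFn z (mem_strs.1 hz.1)
    refine ⟨z', ?_, rfl⟩
    have h2 := hz.2
    rw [ldist_ofFn, decide_eq_true_eq, hammingDist_comm] at h2
    simp only [ball, mem_filter, mem_univ, true_and]
    exact h2

theorem good_of_code {n l : ℕ} (c : Fin (2 ^ l) → (Fin n → Bool)) (hc : IsCode c) :
    Good n l (List.ofFn (fun i => List.ofFn (c i))) := by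
  refine ⟨List.length_ofFn, ?_, ?_⟩
  · intro z hz
    rw [List.mem_ofFn] at hz
    obtain ⟨i, rfl⟩ := hz
    exact List.length_ofFn
  · intro y hy j _
    obtain ⟨y', rfl⟩ := exists_ofFn y (mem_strs.1 hy)
    rw [cnt_ofFn, cnt_strs]
    exact hc y' j

theorem code_of_good {n l : ℕ} (T : List (List Bool)) (hT : Good n l T) :
    ∃ c : Fin (2 ^ l) → (Fin n → Bool), T = List.ofFn (fun i => List.ofFn (c i)) ∧ IsCode c := by
  obtain ⟨h1, h2, h3⟩ := hT
  obtain ⟨c, hc⟩ := exists_ofFn₂ T h1 h2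
  refine ⟨c, hc, ?_⟩
  intro y j
  rcases le_or_gt j n with hj | hj
  · have h4 := h3 (List.ofFn y) (mem_strs.2 List.length_ofFn) j (List.mem_range.2 (by omega))
    rw [cnt_strs, hc, cnt_ofFn] at h4
    exact h4
  · rw [vol_eq hj.le]
    have h4 : (univ.filter (fun i => hammingDist (c i) y ≤ j)).card ≤ 2 ^ l := by
      refine (Finset.card_le_univ _).trans ?_
      rw [Fintype.card_fin]
    calc 2 ^ n * (univ.filter (fun i => hammingDist (c i) y ≤ j)).card ≤ 2 ^ n * 2 ^ l :=
          Nat.mul_le_mul_left _ h4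
      _ ≤ 2 * n * 2 ^ n + 2 * 2 ^ l * 2 ^ n := by
          have : 0 ≤ 2 * n * 2 ^ n := Nat.zero_le _
          nlinarith [Nat.zero_le (2 ^ n * 2 ^ l)]

theorem exists_good (n l : ℕ) : ∃ k, Good n l (D k) := by
  obtain ⟨c, hc⟩ := exists_code n l
  refine ⟨Encodable.encode (List.ofFn (fun i => List.ofFn (c i))), ?_⟩
  unfold D
  rw [Encodable.encodek]
  exact good_of_code c hc

theorem pair_lt {a b s : ℕ} (ha : a < 2 ^ s) (hb : b < 2 ^ s) : Nat.pair a b < 2 ^ (2 * s) := by
  have h1 := Nat.pair_lt_max_add_one_sq a b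
  have h2 : max a b + 1 ≤ 2 ^ s := Nat.succ_le_of_lt (max_lt ha hb)
  calc Nat.pair a b < (max a b + 1) ^ 2 := h1
    _ ≤ (2 ^ s) ^ 2 := Nat.pow_le_pow_left h2 2
    _ = 2 ^ (2 * s) := by rw [← pow_mul, mul_comm]

end PC

open PC in
theorem descr_code {U : List Bool →. List Bool} (hU : Optimal U) :
    ∃ c : ℕ, ∀ n l : ℕ, ∃ T : Fin (2 ^ l) → (Fin n → Bool), IsCode T ∧
      ∀ j s N : ℕ, n < 2 ^ s → l < 2 ^ s → j < 2 ^ s →
        (nbr (univ.image T) j).card ≤ 2 ^ N →
        ∀ y ∈ nbr (univ.image T) j, C U (List.ofFn y) ≤ N + 8 * s + c := by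
  classical
  obtain ⟨c, hc⟩ := description hU Q primrec_Q
  refine ⟨c, fun n l => ?_⟩
  have hex := exists_good n l
  set k₀ := Nat.find hex with hk₀
  have hgood : Good n l (D k₀) := Nat.find_spec hex
  have hmin : ∀ k' ∈ List.range k₀, ¬ Good n l (D k') := fun k' hk' =>
    Nat.find_min hex (List.mem_range.1 hk')
  obtain ⟨T, hT, hcode⟩ := code_of_good (D k₀) hgood
  refine ⟨T, hcode, ?_⟩
  intro j s N hn hl hj hN y hy
  have hQ : ∀ (y' : List Bool) (k : ℕ), Q (Nat.pair (Nat.pair n l) j) y' k ↔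
      (y'.length = n ∧ k = k₀ ∧ ∃ i, ldist (List.ofFn (T i)) y' ≤ j) := by
    intro y' k
    unfold Q
    simp only [Nat.unpair_pair]
    constructor
    · rintro ⟨h1, h2, h3, h4⟩
      have hk : k = k₀ := by
        apply le_antisymm
        · by_contra hlt
          exact h3 k₀ (List.mem_range.2 (not_le.1 hlt)) hgood
        · exact Nat.find_min' hex h2
      refine ⟨h1, hk, ?_⟩
      obtain ⟨z, hz, hz2⟩ := h4
      rw [hk, hT, List.mem_ofFn] at hz
      obtain ⟨i, rfl⟩ := hz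
      exact ⟨i, hz2⟩
    · rintro ⟨h1, rfl, i, hi⟩
      refine ⟨h1, hgood, hmin, List.ofFn (T i), ?_, hi⟩
      rw [hT, List.mem_ofFn]
      exact ⟨i, rfl⟩
  have hmem : ∀ y' : Fin n → Bool,
      y' ∈ nbr (univ.image T) j ↔ ∃ i, ldist (List.ofFn (T i)) (List.ofFn y') ≤ j := by
    intro y'
    simp only [nbr, mem_filter, mem_univ, true_and, mem_image, ldist_ofFn]
    constructor
    · rintro ⟨x, ⟨i, rfl⟩, h⟩
      exact ⟨i, h⟩
    · rintro ⟨i, h⟩
      exact ⟨T i, ⟨i, rfl⟩, h⟩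
  have key := hc (4 * s) N (Nat.pair (Nat.pair n l) j) (List.ofFn y)
    ((nbr (univ.image T) j).image List.ofFn) ?_ ?_ ?_ ?_
  · calc C U (List.ofFn y) ≤ N + 2 * (4 * s) + c := key
      _ = N + 8 * s + c := by ring
  · have h1 := pair_lt hn hl
    have h2 : j < 2 ^ (2 * s) := lt_of_lt_of_le hj (Nat.pow_le_pow_right (by norm_num) (by omega))
    have h3 := pair_lt h1 h2
    rwa [show 2 * (2 * s) = 4 * s by ring] at h3
  · exact ⟨k₀, (hQ _ _).2 ⟨List.length_ofFn, rfl, (hmem y).1 hy⟩⟩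
  · intro y' k hk
    obtain ⟨h1, _, h3⟩ := (hQ _ _).1 hk
    obtain ⟨y'', rfl⟩ := exists_ofFn y' h1
    rw [mem_image]
    exact ⟨y'', (hmem y'').2 h3, rfl⟩
  · exact Finset.card_image_le.trans hN

end Pool.Agent.Lib.MP_f4f1a8_lc
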