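import Pool.Agent.Lib.MP_f4f1a8_lc.Select
import Pool.Agent.Lib.MP_f4f1a8_lc.Basic

namespace Pool.Agent.Lib.MP_f4f1a8_lc

open Finset

/-! Bookkeeping of logarithms. -/

lemma NL_pos (n r : ℕ) : (0 : ℝ) < vol n r := by exact_mod_cast vol_pos n r

lemma NL_le (n r : ℕ) : L n r ≤ n := by
  have h : L n r ≤ Real.logb 2 ((2 : ℝ) ^ n) :=
    Real.logb_le_logb_of_le (by norm_num) (NL_pos n r) (by exact_mod_cast vol_le n r)
  rwa [← Real.rpow_natCast, Real.logb_rpow (by norm_num) (by norm_num)] at h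

lemma NL_logb_le {n : ℕ} (hn : 2 ≤ n) : Real.logb 2 n ≤ 2 * Real.log n := by
  unfold Real.logb
  rw [div_le_iff₀ (Real.log_pos (by norm_num))]
  have := Real.log_two_gt_d9
  have h := SelectAux.one_le_log hn
  nlinarith

/-- `log₂ (n + k) ≤ c log n`. -/
lemma NL_logb_add {n : ℕ} (hn : 2 ≤ n) (k : ℕ) :
    Real.logb 2 ((n : ℝ) + k) ≤ (2 + 2 * Real.logb 2 (k + 1)) * Real.log n := by
  have hn0 : (0 : ℝ) < n := by positivity
  have h1 : ((n : ℝ) + k) ≤ n * (k + 1) := by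
    have : (1 : ℝ) ≤ n := by exact_mod_cast (by omega : 1 ≤ n)
    have hk : (0 : ℝ) ≤ k := by positivity
    nlinarith
  have h2 : Real.logb 2 ((n : ℝ) + k) ≤ Real.logb 2 n + Real.logb 2 (k + 1) := by
    rw [← Real.logb_mul hn0.ne' (by positivity)]
    exact Real.logb_le_logb_of_le (by norm_num) (by positivity) h1
  have h3 := NL_logb_le hn
  have h4 := SelectAux.one_le_log hn
  have h5 : 0 ≤ Real.logb 2 ((k : ℝ) + 1) :=
    Real.logb_nonneg (by norm_num) (by have : (0 : ℝ) ≤ k := by positivity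
                                       linarith)
  nlinarith

lemma NL_clog_le {X : ℕ} (hX : 0 < X) : (Nat.clog 2 X : ℝ) ≤ Real.logb 2 X + 1 := by
  have h := Real.natCeil_logb_natCast 2 X
  rw [← h]
  have := (Nat.ceil_lt_add_one (Real.logb_nonneg (b := 2) (x := (X : ℝ)) (by norm_num)
    (by exact_mod_cast hX))).le
  simpa using this

/-- A number `s` of size `O(log n)` with `n + k < 2 ^ s`. -/
lemma NL_exists_s (k : ℕ) : ∃ c : ℝ, 0 ≤ c ∧ ∀ n : ℕ, 2 ≤ n →
    ∃ s : ℕ, n + k < 2 ^ s ∧ (s : ℝ) ≤ c * Real.log n := by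
  refine ⟨2 + 2 * Real.logb 2 ((k + 1 : ℕ) + 1) + 2, ?_, ?_⟩
  · have : 0 ≤ Real.logb 2 (((k + 1 : ℕ) : ℝ) + 1) :=
      Real.logb_nonneg (by norm_num) (by have : (0 : ℝ) ≤ ((k + 1 : ℕ) : ℝ) := by positivity
                                         linarith)
    linarith
  intro n hn
  refine ⟨Nat.clog 2 (n + (k + 1)), ?_, ?_⟩
  · have := Nat.le_pow_clog (b := 2) (by norm_num) (n + (k + 1))
    omega
  · have h1 := NL_clog_le (X := n + (k + 1)) (by omega)
    have h2 := NL_logb_add hn (k + 1)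
    have h3 := SelectAux.one_le_log hn
    push_cast at h1 h2 ⊢
    nlinarith

lemma NL_logb_le_of {X : ℕ} {r : ℝ} (hX : 0 < X) (h : (X : ℝ) ≤ (2 : ℝ) ^ r) :
    Real.logb 2 X ≤ r := by
  have := Real.logb_le_logb_of_le (b := 2) (by norm_num) (by exact_mod_cast hX) h
  rwa [Real.logb_rpow (by norm_num) (by norm_num)] at this

/-- A set of `X < 2 ^ (m+1)` elements. -/
lemma NL_logb_lt {X m : ℕ} (hX : 0 < X) (h : X < 2 ^ (m + 1)) :
    Real.logb 2 X ≤ m + 1 := by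
  apply NL_logb_le_of hX
  have : (X : ℝ) ≤ ((2 ^ (m + 1) : ℕ) : ℝ) := by exact_mod_cast h.le
  refine this.trans (le_of_eq ?_)
  push_cast
  rw [← Real.rpow_natCast]
  push_cast; rfl

lemma mem_ball {n : ℕ} {x y : Fin n → Bool} {d : ℕ} :
    y ∈ ball x d ↔ hammingDist x y ≤ d := by simp [ball]

lemma mem_nbr {n : ℕ} {S : Finset (Fin n → Bool)} {y : Fin n → Bool} {d : ℕ} :
    y ∈ nbr S d ↔ ∃ x ∈ S, hammingDist x y ≤ d := by simp [nbr]

lemma le_M {U : List Bool →. List Bool} {n : ℕ} {x y : Fin n → Bool} {d : ℕ}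
    (h : hammingDist x y ≤ d) : C U (List.ofFn y) ≤ M U x d :=
  Finset.le_sup (f := fun y => C U (List.ofFn y)) (mem_ball.mpr h)

lemma exists_eq_M (U : List Bool →. List Bool) {n : ℕ} (x : Fin n → Bool) (d : ℕ) :
    ∃ y, hammingDist x y ≤ d ∧ C U (List.ofFn y) = M U x d := by
  have hne : (ball x d).Nonempty := ⟨x, mem_ball.mpr (by simp)⟩
  obtain ⟨y, hy, h⟩ := Finset.exists_mem_eq_sup (ball x d) hne (fun y => C U (List.ofFn y))
  exact ⟨y, mem_ball.mp hy, h.symm⟩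

lemma M_mono (U : List Bool →. List Bool) {n : ℕ} (x : Fin n → Bool) {d e : ℕ} (h : d ≤ e) :
    M U x d ≤ M U x e := by
  obtain ⟨y, hy, h'⟩ := exists_eq_M U x d
  rw [← h']
  exact le_M (hy.trans h)

lemma M_le {U : List Bool →. List Bool} {n : ℕ} {x : Fin n → Bool} {d m : ℕ}
    (h : ∀ y, hammingDist x y ≤ d → C U (List.ofFn y) ≤ m) : M U x d ≤ m := by
  obtain ⟨y, hy, h'⟩ := exists_eq_M U x d
  rw [← h']
  exact h y hy

end Pool.Agent.Lib.MP_f4f1a8_lc
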