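import Pool.Agent.Lib.MP_f4f1a8_lc.Defs
import Pool.Agent.Lib.MP_f4f1a8_lc.Vol

/-!
# MP_f4f1a8_lc: choice of the parameters `(l, t)` for an admissible pair
-/

namespace Pool.Agent.Lib.MP_f4f1a8_lc

open Finset

namespace SelectAux

lemma L_zero (n : ℕ) : L n 0 = 0 := by
  simp [L, vol_zero]

lemma vol_pos_real (n r : ℕ) : (0 : ℝ) < (vol n r : ℝ) := by exact_mod_cast vol_pos n r

lemma L_mono (n : ℕ) {r s : ℕ} (h : r ≤ s) : L n r ≤ L n s := by
  unfold L
  apply Real.logb_le_logb_of_le (by norm_num) (vol_pos_real n r)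
  exact_mod_cast vol_mono n h

lemma L_nonneg (n r : ℕ) : 0 ≤ L n r := by
  rw [← L_zero n]; exact L_mono n (Nat.zero_le r)

lemma L_eq {n r : ℕ} (h : n ≤ r) : L n r = n := by
  unfold L
  rw [vol_eq h]
  push_cast
  rw [Real.logb_pow, Real.logb_self_eq_one (by norm_num), mul_one]

lemma L_succ (n r : ℕ) : L n (r + 1) ≤ L n r + Real.logb 2 (n + 1) := by
  unfold L
  have h1 : ((vol n (r + 1) : ℕ) : ℝ) ≤ ((n : ℝ) + 1) * (vol n r : ℝ) := by
    exact_mod_cast vol_succ_le n r
  have h2 : (0 : ℝ) < (n : ℝ) + 1 := by positivity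
  calc Real.logb 2 (vol n (r + 1)) ≤ Real.logb 2 (((n : ℝ) + 1) * (vol n r : ℝ)) :=
        Real.logb_le_logb_of_le (by norm_num) (vol_pos_real n _) h1
    _ = Real.logb 2 ((n : ℝ) + 1) + Real.logb 2 (vol n r) :=
        Real.logb_mul h2.ne' (vol_pos_real n r).ne'
    _ = _ := add_comm _ _

lemma L_logconcave (n : ℕ) {s t : ℕ} (h : s ≤ t) (r : ℕ) :
    L n s + L n (t + r) ≤ L n (s + r) + L n t := by
  unfold L
  rw [← Real.logb_mul (vol_pos_real n _).ne' (vol_pos_real n _).ne',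
    ← Real.logb_mul (vol_pos_real n _).ne' (vol_pos_real n _).ne']
  apply Real.logb_le_logb_of_le (by norm_num)
    (mul_pos (vol_pos_real n _) (vol_pos_real n _))
  exact_mod_cast vol_logconcave n h r

lemma one_le_log {n : ℕ} (hn : 2 ≤ n) : 1 ≤ 2 * Real.log n := by
  have h1 : Real.log 2 ≤ Real.log n := by
    apply Real.log_le_log (by norm_num)
    exact_mod_cast hn
  have := Real.log_two_gt_d9
  linarith

lemma logb_le {n : ℕ} (hn : 2 ≤ n) : Real.logb 2 ((n : ℝ) + 1) ≤ 3 * Real.log n := by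
  have hn' : (2 : ℝ) ≤ n := by exact_mod_cast hn
  have h1 : Real.log ((n : ℝ) + 1) ≤ 2 * Real.log n := by
    rw [show (2 : ℝ) * Real.log n = Real.log ((n : ℝ) ^ 2) by
      rw [Real.log_pow]; norm_num]
    apply Real.log_le_log (by positivity)
    nlinarith
  have h2 := Real.log_two_gt_d9
  have h3 : 0 ≤ Real.log (n : ℝ) := Real.log_nonneg (by linarith)
  rw [Real.logb, div_le_iff₀ (by linarith)]
  nlinarith

/-- the combinatorial part with all slacks explicit -/
lemma core {n d₁ d₂ m₁ m₂ : ℕ} (h12 : d₁ ≤ d₂) {s K : ℝ} (hs : 0 ≤ s)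
    (hK : ∀ r, L n (r + 1) ≤ L n r + K) (hA : Admissible n d₁ d₂ m₁ m₂ s) :
    ∃ l ≤ n, ∃ t ≤ n,
      |min (n : ℝ) (l + L n (t + d₁)) - m₁| ≤ 7 * s + 1 + K ∧
      |min (n : ℝ) (l + L n (t + d₂)) - m₂| ≤ 7 * s + 1 + K := by
  obtain ⟨a1, a2, a3, a4, a5⟩ := hA
  have hK0 : 0 ≤ K := by
    have := hK n
    rw [L_eq (Nat.le_succ n), L_eq le_rfl] at this
    linarith
  set r := d₂ - d₁ with hr
  have hd2 : d₂ = d₁ + r := by omega
  -- the greatest radius with `L n ρ ≤ m₁`
  obtain ⟨ρ, hρn, hρ, hρlow⟩ : ∃ ρ ≤ n, L n ρ ≤ m₁ ∧ (m₁ : ℝ) - 2 * s - K ≤ L n ρ := by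
    by_cases h : L n n ≤ m₁
    · refine ⟨n, le_rfl, h, ?_⟩
      rw [L_eq le_rfl]
      linarith
    · have hex : ∃ ρ, ¬ L n ρ ≤ m₁ := ⟨n, h⟩
      classical
      have h1 := Nat.find_spec hex
      have h2 : Nat.find hex ≤ n := Nat.find_le h
      have h0 : Nat.find hex ≠ 0 := by
        intro h0
        rw [h0, L_zero] at h1
        exact h1 (Nat.cast_nonneg _)
      obtain ⟨k, hk⟩ := Nat.exists_eq_succ_of_ne_zero h0
      have h3 : L n k ≤ m₁ := by
        by_contra hcon
        have := Nat.find_min' hex hcon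
        omega
      refine ⟨k, by omega, h3, ?_⟩
      have h4 := hK k
      rw [hk] at h1
      push Not at h1
      simp only [Nat.succ_eq_add_one] at h1
      linarith
  have h5 := a5 ρ hρ
  -- increments
  have hmono : ∀ t t' : ℕ, t ≤ t' → L n (t' + d₂) - L n (t' + d₁) ≤
      L n (t + d₂) - L n (t + d₁) := by
    intro t t' htt
    have := L_logconcave n (s := t + d₁) (t := t' + d₁) (by omega) r
    have e1 : t + d₁ + r = t + d₂ := by omega
    have e2 : t' + d₁ + r = t' + d₂ := by omega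
    rw [e1, e2] at this
    linarith
  have hstep : ∀ t : ℕ, L n (t + d₂) - L n (t + d₁) - K ≤
      L n (t + 1 + d₂) - L n (t + 1 + d₁) := by
    intro t
    have h1 := hK (t + d₁)
    have h2 := L_mono n (r := t + d₂) (s := t + 1 + d₂) (by omega)
    have e : t + d₁ + 1 = t + 1 + d₁ := by omega
    rw [e] at h1
    linarith
  set B : ℝ := (m₂ : ℝ) - m₁ + 3 * s + K with hB
  have hex : ∃ t, L n (t + d₂) - L n (t + d₁) ≤ B := by
    refine ⟨ρ - d₁, ?_⟩
    rcases le_total d₁ ρ with h | h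
    · have e1 : ρ - d₁ + d₁ = ρ := by omega
      have e2 : ρ - d₁ + d₂ = ρ + r := by omega
      rw [e1, e2]
      linarith
    · have e1 : ρ - d₁ + d₁ = d₁ := by omega
      have e2 : ρ - d₁ + d₂ = d₁ + r := by omega
      rw [e1, e2]
      have := L_logconcave n h r
      linarith
  classical
  set t := Nat.find hex with ht
  have ht1 : L n (t + d₂) - L n (t + d₁) ≤ B := Nat.find_spec hex
  have ht0 : t ≤ ρ - d₁ := by
    apply Nat.find_le
    rcases le_total d₁ ρ with h | h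
    · have e1 : ρ - d₁ + d₁ = ρ := by omega
      have e2 : ρ - d₁ + d₂ = ρ + r := by omega
      rw [e1, e2]
      linarith
    · have e1 : ρ - d₁ + d₁ = d₁ := by omega
      have e2 : ρ - d₁ + d₂ = d₁ + r := by omega
      rw [e1, e2]
      have := L_logconcave n h r
      linarith
  have ht2 : (m₂ : ℝ) - m₁ - s ≤ L n (t + d₂) - L n (t + d₁) := by
    rcases Nat.eq_zero_or_pos t with h | h
    · rw [h, zero_add, zero_add]; linarith
    · obtain ⟨k, hk⟩ := Nat.exists_eq_succ_of_ne_zero h.ne'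
      have hk' : ¬ (L n (k + d₂) - L n (k + d₁) ≤ B) := by
        apply Nat.find_min hex
        omega
      push Not at hk'
      have h1 := hstep k
      have e : t = k + 1 := hk
      rw [e]
      linarith
  -- the value at the first radius
  have hup : L n (t + d₁) ≤ m₁ + s := by
    rcases le_total d₁ ρ with h | h
    · have h1 := L_mono n (r := t + d₁) (s := ρ) (by omega)
      linarith
    · have e : t + d₁ = d₁ := by omega
      rw [e]; exact a1
  set w : ℝ := (m₁ : ℝ) - L n (t + d₁) with hw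
  have hw1 : -s ≤ w := by linarith
  have hLn := L_nonneg n (t + d₁)
  have hw2 : w ≤ n + 2 * s := by linarith
  refine ⟨min n ⌊w⌋₊, min_le_left _ _, t, by omega, ?_⟩
  have key : |((min n ⌊w⌋₊ : ℕ) : ℝ) - w| ≤ 2 * s + 1 := by
    rcases le_total w 0 with h | h
    · rw [Nat.floor_of_nonpos h]
      simp only [Nat.min_zero, Nat.cast_zero, zero_sub, abs_neg]
      rw [abs_of_nonpos h]; linarith
    · have f1 := Nat.floor_le h
      have f2 := Nat.lt_floor_add_one w
      rw [abs_le]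
      rcases le_total n ⌊w⌋₊ with g | g
      · rw [min_eq_left g]
        have g' : (n : ℝ) ≤ (⌊w⌋₊ : ℝ) := by exact_mod_cast g
        constructor <;> linarith
      · rw [min_eq_right g]
        constructor <;> linarith
  set l : ℝ := ((min n ⌊w⌋₊ : ℕ) : ℝ) with hl
  have k1 := abs_le.1 key
  constructor
  · rw [abs_le]
    constructor
    · have : (m₁ : ℝ) - (7 * s + 1 + K) ≤ min (n : ℝ) (l + L n (t + d₁)) := by
        apply le_min <;> linarith [k1.1, k1.2]
      linarith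
    · have := min_le_right (n : ℝ) (l + L n (t + d₁))
      linarith [k1.1, k1.2]
  · rw [abs_le]
    constructor
    · have : (m₂ : ℝ) - (7 * s + 1 + K) ≤ min (n : ℝ) (l + L n (t + d₂)) := by
        apply le_min <;> linarith [k1.1, k1.2]
      linarith
    · have := min_le_right (n : ℝ) (l + L n (t + d₂))
      linarith [k1.1, k1.2]

end SelectAux

open SelectAux

theorem select (a : ℝ) : ∃ c : ℝ, ∀ n d₁ d₂ m₁ m₂ : ℕ, 2 ≤ n → d₁ ≤ d₂ → d₂ ≤ n →
    Admissible n d₁ d₂ m₁ m₂ (a * Real.log n) →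
    ∃ l ≤ n, ∃ t ≤ n,
      |min (n : ℝ) (l + L n (t + d₁)) - m₁| ≤ c * Real.log n ∧
      |min (n : ℝ) (l + L n (t + d₂)) - m₂| ≤ c * Real.log n := by
  refine ⟨7 * max a 0 + 5, ?_⟩
  intro n d₁ d₂ m₁ m₂ hn h12 _ hA
  have hlog : 0 ≤ Real.log (n : ℝ) := by
    have := one_le_log hn
    linarith
  have hs : a * Real.log n ≤ max a 0 * Real.log n :=
    mul_le_mul_of_nonneg_right (le_max_left _ _) hlog
  have hA' : Admissible n d₁ d₂ m₁ m₂ (max a 0 * Real.log n) := by
    obtain ⟨a1, a2, a3, a4, a5⟩ := hA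
    refine ⟨by linarith, by linarith, by linarith, by linarith, ?_⟩
    intro ρ hρ
    have := a5 ρ hρ
    linarith
  obtain ⟨l, hl, t, ht, g1, g2⟩ := core h12 (mul_nonneg (le_max_right a 0) hlog)
    (fun r => L_succ n r) hA'
  have h1 := one_le_log hn
  have h2 := logb_le hn
  refine ⟨l, hl, t, ht, g1.trans ?_, g2.trans ?_⟩ <;> linarith

end Pool.Agent.Lib.MP_f4f1a8_lc
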