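import Pool.Agent.Lib.MP_f4f1a8_lc.Defs

/-!
# Growth of neighbourhoods in the Hamming cube (MP_f4f1a8_lc, module SPHERE, helper30)
-/

namespace Pool.Agent.Lib.MP_f4f1a8_lc

open Finset

/-- flip one coordinate -/
def sphFlip {n : ℕ} (y : Fin n → Bool) (i : Fin n) : Fin n → Bool :=
  Function.update y i (!(y i))

theorem sphFlip_sphFlip {n : ℕ} (y : Fin n → Bool) (i : Fin n) :
    sphFlip (sphFlip y i) i = y := by
  unfold sphFlip; simp

theorem hammingDist_sphFlip {n : ℕ} (y : Fin n → Bool) (i : Fin n) :
    hammingDist y (sphFlip y i) ≤ 1 := by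
  unfold hammingDist
  refine card_le_one.2 ?_
  have h : ∀ j ∈ univ.filter (fun j => y j ≠ sphFlip y i j), j = i := by
    intro j hj
    rw [mem_filter] at hj
    by_contra hne
    apply hj.2
    unfold sphFlip
    rw [Function.update_of_ne hne]
  intro a ha b hb
  rw [h a ha, h b hb]

theorem hammingDist_sphFlip_lt {n : ℕ} (x y : Fin n → Bool) (i : Fin n) (h : x i ≠ y i) :
    hammingDist x (sphFlip y i) + 1 ≤ hammingDist x y := by
  unfold hammingDist
  apply card_lt_card
  rw [ssubset_iff_of_subset]
  · refine ⟨i, mem_filter.2 ⟨mem_univ _, h⟩, ?_⟩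
    intro hi
    rw [mem_filter] at hi
    apply hi.2
    unfold sphFlip
    rw [Function.update_self]
    revert h
    cases x i <;> cases y i <;> simp
  · intro j hj
    rw [mem_filter] at hj ⊢
    refine ⟨mem_univ _, fun hxy => hj.2 ?_⟩
    have hji : j ≠ i := by
      rintro rfl
      exact h hxy
    unfold sphFlip
    rw [Function.update_of_ne hji]
    exact hxy

/-- distance to a nonempty set -/
noncomputable def sphD {n : ℕ} (S : Finset (Fin n → Bool)) (hS : S.Nonempty)
    (y : Fin n → Bool) : ℕ := S.inf' hS (fun x => hammingDist x y)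

theorem sphD_le_iff {n : ℕ} (S : Finset (Fin n → Bool)) (hS : S.Nonempty)
    (y : Fin n → Bool) (d : ℕ) : sphD S hS y ≤ d ↔ ∃ x ∈ S, hammingDist x y ≤ d := by
  unfold sphD
  rw [inf'_le_iff]

theorem exists_sphD {n : ℕ} (S : Finset (Fin n → Bool)) (hS : S.Nonempty)
    (y : Fin n → Bool) : ∃ x ∈ S, hammingDist x y = sphD S hS y := by
  unfold sphD
  obtain ⟨x, hx, h⟩ := exists_mem_eq_inf' hS (fun x => hammingDist x y)
  exact ⟨x, hx, h.symm⟩

theorem sphD_le {n : ℕ} (S : Finset (Fin n → Bool)) (hS : S.Nonempty)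
    (y : Fin n → Bool) : sphD S hS y ≤ n := by
  obtain ⟨x, _, h⟩ := exists_sphD S hS y
  rw [← h]
  have := hammingDist_le_card_fintype (x := x) (y := y)
  simpa using this

theorem sphD_flip_le {n : ℕ} (S : Finset (Fin n → Bool)) (hS : S.Nonempty)
    (y : Fin n → Bool) (i : Fin n) : sphD S hS (sphFlip y i) ≤ sphD S hS y + 1 := by
  obtain ⟨x, hx, h⟩ := exists_sphD S hS y
  rw [sphD_le_iff]
  refine ⟨x, hx, ?_⟩
  have h1 := hammingDist_triangle x y (sphFlip y i)
  have h2 := hammingDist_sphFlip y i
  omega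

theorem sphD_le_flip {n : ℕ} (S : Finset (Fin n → Bool)) (hS : S.Nonempty)
    (y : Fin n → Bool) (i : Fin n) : sphD S hS y ≤ sphD S hS (sphFlip y i) + 1 := by
  have h := sphD_flip_le S hS (sphFlip y i) i
  rwa [sphFlip_sphFlip] at h

/-- many flips decrease the distance -/
theorem sph_down {n : ℕ} (S : Finset (Fin n → Bool)) (hS : S.Nonempty)
    (z : Fin n → Bool) :
    sphD S hS z ≤ (univ.filter fun i => sphD S hS (sphFlip z i) + 1 = sphD S hS z).card := by
  obtain ⟨x, hx, h⟩ := exists_sphD S hS z
  conv_lhs => rw [← h]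
  unfold hammingDist
  apply card_le_card
  intro i hi
  rw [mem_filter] at hi ⊢
  refine ⟨mem_univ _, ?_⟩
  have h1 := hammingDist_sphFlip_lt x z i hi.2
  have h2 : sphD S hS (sphFlip z i) ≤ hammingDist x (sphFlip z i) :=
    (sphD_le_iff S hS _ _).2 ⟨x, hx, le_rfl⟩
  have h3 := sphD_le_flip S hS z i
  omega

/-- the sphere of radius `j` around `S` -/
noncomputable def sphA {n : ℕ} (S : Finset (Fin n → Bool)) (hS : S.Nonempty) (j : ℕ) : ℕ :=
  (univ.filter fun y => sphD S hS y = j).card

theorem sph_step {n : ℕ} (S : Finset (Fin n → Bool)) (hS : S.Nonempty) (j : ℕ) :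
    (j + 1) * sphA S hS (j + 1) ≤ (n - j) * sphA S hS j := by
  have key : ∑ z : Fin n → Bool, ∑ i : Fin n,
      (if sphD S hS z = j + 1 ∧ sphD S hS (sphFlip z i) = j then 1 else 0) =
      ∑ z : Fin n → Bool, ∑ i : Fin n,
      (if sphD S hS z = j ∧ sphD S hS (sphFlip z i) = j + 1 then 1 else 0) := by
    rw [sum_comm, sum_comm (s := univ) (t := univ) (f := fun z i =>
      (if sphD S hS z = j ∧ sphD S hS (sphFlip z i) = j + 1 then 1 else 0))]
    refine sum_congr rfl fun i _ => ?_
    let e : (Fin n → Bool) ≃ (Fin n → Bool) :=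
      ⟨fun y => sphFlip y i, fun y => sphFlip y i, fun y => sphFlip_sphFlip y i,
        fun y => sphFlip_sphFlip y i⟩
    rw [← Equiv.sum_comp e]
    refine sum_congr rfl fun z _ => ?_
    have h1 : sphFlip (e z) i = z := sphFlip_sphFlip z i
    have h2 : e z = sphFlip z i := rfl
    rw [h1, h2]
    simp only [and_comm]
  have hl : (j + 1) * sphA S hS (j + 1) ≤ ∑ z : Fin n → Bool, ∑ i : Fin n,
      (if sphD S hS z = j + 1 ∧ sphD S hS (sphFlip z i) = j then 1 else 0) := by
    unfold sphA
    rw [card_filter, mul_sum]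
    refine sum_le_sum fun z _ => ?_
    split_ifs with hz
    · have h := sph_down S hS z
      rw [hz, card_filter] at h
      rw [mul_one]
      refine h.trans (sum_le_sum fun i _ => ?_)
      by_cases h2 : sphD S hS (sphFlip z i) = j
      · simp [h2, hz]
      · have h3 : ¬ (sphD S hS (sphFlip z i) + 1 = j + 1) := by omega
        rw [if_neg h3]
        exact Nat.zero_le _
    · simp
  have hr : ∑ z : Fin n → Bool, ∑ i : Fin n,
      (if sphD S hS z = j ∧ sphD S hS (sphFlip z i) = j + 1 then 1 else 0) ≤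
      (n - j) * sphA S hS j := by
    unfold sphA
    rw [card_filter, mul_sum]
    refine sum_le_sum fun z _ => ?_
    split_ifs with hz
    · rw [mul_one]
      have h := sph_down S hS z
      rw [hz] at h
      have h2 : (univ.filter fun i => sphD S hS (sphFlip z i) + 1 = j).card +
          (univ.filter fun i => sphD S hS (sphFlip z i) = j + 1).card ≤ n := by
        rw [← card_union_of_disjoint]
        · exact (card_le_univ _).trans (by simp)
        · rw [disjoint_left]
          intro i h3 h4
          rw [mem_filter] at h3 h4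
          omega
      have h3 : ∑ i : Fin n, (if sphD S hS z = j ∧ sphD S hS (sphFlip z i) = j + 1 then 1 else 0)
          = (univ.filter fun i => sphD S hS (sphFlip z i) = j + 1).card := by
        rw [card_filter]
        exact sum_congr rfl fun i _ => by simp [hz]
      rw [h3]
      omega
    · simp [hz]
  rw [key] at hl
  exact hl.trans hr

theorem sph_ratio {n : ℕ} (S : Finset (Fin n → Bool)) (hS : S.Nonempty) (j : ℕ) :
    sphA S hS (j + 1) * n.choose j ≤ sphA S hS j * n.choose (j + 1) := by
  have h1 := sph_step S hS j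
  have h2 := Nat.choose_succ_right_eq n j
  have h3 : (j + 1) * (sphA S hS (j + 1) * n.choose j) ≤
      (j + 1) * (sphA S hS j * n.choose (j + 1)) := by
    calc (j + 1) * (sphA S hS (j + 1) * n.choose j)
        = ((j + 1) * sphA S hS (j + 1)) * n.choose j := by ring
      _ ≤ ((n - j) * sphA S hS j) * n.choose j := Nat.mul_le_mul_right _ h1
      _ = sphA S hS j * (n.choose j * (n - j)) := by ring
      _ = sphA S hS j * (n.choose (j + 1) * (j + 1)) := by rw [h2]
      _ = (j + 1) * (sphA S hS j * n.choose (j + 1)) := by ring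
  exact Nat.le_of_mul_le_mul_left h3 (Nat.succ_pos j)

theorem sph_ratio' {n : ℕ} (S : Finset (Fin n → Bool)) (hS : S.Nonempty) {i j : ℕ}
    (h : i ≤ j) : sphA S hS j * n.choose i ≤ sphA S hS i * n.choose j := by
  induction j, h using Nat.le_induction with
  | base => exact le_rfl
  | succ j hij ih =>
    by_cases hj : n < j + 1
    · have h0 : sphA S hS (j + 1) = 0 := by
        unfold sphA
        rw [card_eq_zero, filter_eq_empty_iff]
        intro y _ hy
        have := sphD_le S hS y
        omega
      rw [h0, zero_mul]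
      exact Nat.zero_le _
    · have hpos : 0 < n.choose j := Nat.choose_pos (by omega)
      have h1 := sph_ratio S hS j
      refine le_of_mul_le_mul_left (a := n.choose j) ?_ hpos
      calc n.choose j * (sphA S hS (j + 1) * n.choose i)
          = (sphA S hS (j + 1) * n.choose j) * n.choose i := by ring
        _ ≤ (sphA S hS j * n.choose (j + 1)) * n.choose i := Nat.mul_le_mul_right _ h1
        _ = (sphA S hS j * n.choose i) * n.choose (j + 1) := by ring
        _ ≤ (sphA S hS i * n.choose j) * n.choose (j + 1) := Nat.mul_le_mul_right _ ih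
        _ = n.choose j * (sphA S hS i * n.choose (j + 1)) := by ring

theorem sph_nbr {n : ℕ} (S : Finset (Fin n → Bool)) (hS : S.Nonempty) (d : ℕ) :
    (nbr S d).card = ∑ j ∈ range (d + 1), sphA S hS j := by
  rw [card_eq_sum_card_fiberwise (f := sphD S hS) (t := range (d + 1)) (s := nbr S d)]
  · refine sum_congr rfl fun j hj => ?_
    unfold sphA nbr
    congr 1
    ext y
    rw [filter_filter, mem_filter, mem_filter]
    constructor
    · rintro ⟨h1, _, h3⟩
      exact ⟨h1, h3⟩
    · rintro ⟨h1, h3⟩
      refine ⟨h1, ?_, h3⟩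
      rw [← sphD_le_iff S hS y d, h3]
      rw [mem_range] at hj
      omega
  · intro y hy
    have hy' : y ∈ nbr S d := hy
    unfold nbr at hy'
    rw [mem_filter, ← sphD_le_iff S hS y d] at hy'
    have h2 : sphD S hS y ∈ range (d + 1) := by
      rw [mem_range]
      omega
    exact h2

theorem sphere_growth {n : ℕ} (S : Finset (Fin n → Bool)) {d₁ d₂ : ℕ} (h : d₁ ≤ d₂) :
    (nbr S d₂).card * vol n d₁ ≤ (nbr S d₁).card * vol n d₂ := by
  rcases S.eq_empty_or_nonempty with hS | hS
  · have h0 : nbr S d₂ = ∅ := by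
      unfold nbr
      rw [filter_eq_empty_iff]
      rintro y _ ⟨x, hx, _⟩
      rw [hS] at hx
      exact absurd hx (notMem_empty x)
    rw [h0, card_empty, zero_mul]
    exact Nat.zero_le _
  · rw [sph_nbr S hS, sph_nbr S hS]
    unfold vol
    have h1 : ∀ f : ℕ → ℕ, ∑ j ∈ range (d₂ + 1), f j =
        ∑ j ∈ range (d₁ + 1), f j + ∑ j ∈ Ico (d₁ + 1) (d₂ + 1), f j := by
      intro f
      rw [range_eq_Ico, range_eq_Ico]
      exact (sum_Ico_consecutive f (Nat.zero_le _) (by omega)).symm
    rw [h1, h1 (fun j => n.choose j), add_mul, mul_add]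
    refine Nat.add_le_add_left ?_ _
    rw [sum_mul_sum, sum_mul_sum, sum_comm]
    refine sum_le_sum fun i hi => sum_le_sum fun j hj => ?_
    rw [mem_range] at hi
    rw [mem_Ico] at hj
    exact sph_ratio' S hS (by omega)

end Pool.Agent.Lib.MP_f4f1a8_lc
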