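import Pool.Agent.Lib.MP_f4f1a8_lc.Prim
import Pool.Agent.Lib.MP_f4f1a8_lc.Basic
import Pool.Agent.Lib.MP_f4f1a8_lc.Descr

/-!
# Describing the elements of a neighbourhood of an enumerable set
-/

namespace Pool.Agent.Lib.MP_f4f1a8_lc

theorem pair_lt_two_pow {a b s : ℕ} (ha : a < 2 ^ s) (hb : b < 2 ^ s) :
    Nat.pair a b < 2 ^ (2 * s) := by
  have h := Nat.pair_lt_max_add_one_sq a b
  have h1 : max a b + 1 ≤ 2 ^ s := by
    have := max_lt ha hb
    omega
  calc Nat.pair a b < (max a b + 1) ^ 2 := h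
    _ ≤ (2 ^ s) ^ 2 := Nat.pow_le_pow_left h1 2
    _ = 2 ^ (2 * s) := by rw [← pow_mul, mul_comm]

/-- Stage `k` of the enumeration of the `d₂`-neighbourhood of the set of all `x` such that all
points of the ball of radius `d₁` around `x` have complexity at most `m`; the four parameters
are coded by `p`. -/
def QNbr (E : ℕ → List Bool → ℕ → Prop) (p : ℕ) (y : List Bool) (k : ℕ) : Prop :=
  y.length = p.unpair.1.unpair.1 ∧
  ∃ x ∈ strs p.unpair.1.unpair.1, ldist x y ≤ p.unpair.2.unpair.1 ∧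
    ∀ z ∈ strs p.unpair.1.unpair.1, (¬ ldist x z ≤ p.unpair.1.unpair.2) ∨
      E p.unpair.2.unpair.2 z k

theorem primrecPred_QNbr {E : ℕ → List Bool → ℕ → Prop}
    (hE : PrimrecPred (fun a : ℕ × List Bool × ℕ => E a.1 a.2.1 a.2.2)) :
    PrimrecPred (fun a : ℕ × List Bool × ℕ => QNbr E a.1 a.2.1 a.2.2) := by
  classical
  have hfst : Primrec (fun p : ℕ => p.unpair.1) := Primrec.fst.comp Primrec.unpair
  have hsnd : Primrec (fun p : ℕ => p.unpair.2) := Primrec.snd.comp Primrec.unpair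
  -- innermost quantifier, parameters `b = (x, p, k)`
  have hR : PrimrecRel (fun (z : List Bool) (b : List Bool × ℕ × ℕ) =>
      (¬ ldist b.1 z ≤ b.2.1.unpair.1.unpair.2) ∨ E b.2.1.unpair.2.unpair.2 z b.2.2) := by
    refine PrimrecPred.or (PrimrecPred.not ?_) ?_
    · refine Primrec.nat_le.comp ?_ ?_
      · exact primrec_ldist.comp (Primrec.fst.comp Primrec.snd) Primrec.fst
      · exact hsnd.comp (hfst.comp (Primrec.fst.comp (Primrec.snd.comp Primrec.snd)))
    · exact hE.comp (Primrec.pair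
        (hsnd.comp (hsnd.comp (Primrec.fst.comp (Primrec.snd.comp Primrec.snd))))
        (Primrec.pair Primrec.fst (Primrec.snd.comp (Primrec.snd.comp Primrec.snd))))
  -- quantifier over `x`, parameters `b = (p, y, k)`
  have hR2 : PrimrecRel (fun (x : List Bool) (b : ℕ × List Bool × ℕ) =>
      ldist x b.2.1 ≤ b.1.unpair.2.unpair.1 ∧
      ∀ z ∈ strs b.1.unpair.1.unpair.1, (¬ ldist x z ≤ b.1.unpair.1.unpair.2) ∨
        E b.1.unpair.2.unpair.2 z b.2.2) := by
    refine PrimrecPred.and ?_ ?_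
    · refine Primrec.nat_le.comp ?_ ?_
      · exact primrec_ldist.comp Primrec.fst (Primrec.fst.comp (Primrec.snd.comp Primrec.snd))
      · exact hfst.comp (hsnd.comp (Primrec.fst.comp Primrec.snd))
    · exact hR.forall_mem_list.comp
        (primrec_strs.comp (hfst.comp (hfst.comp (Primrec.fst.comp Primrec.snd))))
        (Primrec.pair Primrec.fst (Primrec.pair (Primrec.fst.comp Primrec.snd)
          (Primrec.snd.comp (Primrec.snd.comp Primrec.snd))))
  refine PrimrecPred.and ?_ ?_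
  · exact Primrec.eq.comp (Primrec.list_length.comp (Primrec.fst.comp Primrec.snd))
      (hfst.comp (hfst.comp Primrec.fst))
  · exact hR2.exists_mem_list.comp
      (primrec_strs.comp (hfst.comp (hfst.comp Primrec.fst))) Primrec.id

theorem descr_nbr {U : List Bool →. List Bool} (hU : Optimal U) :
    ∃ c : ℕ, ∀ (n d₁ d₂ m s N : ℕ) (S : Finset (Fin n → Bool)),
      n < 2 ^ s → d₁ < 2 ^ s → d₂ < 2 ^ s → m < 2 ^ s →
      (∀ x, x ∈ S ↔ ∀ y ∈ ball x d₁, C U (List.ofFn y) ≤ m) →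
      (nbr S d₂).card ≤ 2 ^ N → ∀ y ∈ nbr S d₂, C U (List.ofFn y) ≤ N + 8 * s + c := by
  classical
  obtain ⟨E, hEp, hEmono, hE⟩ := exists_stage hU
  obtain ⟨c, hc⟩ := description hU (QNbr E) (primrecPred_QNbr hEp)
  refine ⟨c, ?_⟩
  intro n d₁ d₂ m s N S hn hd₁ hd₂ hm hS hcard y hy
  have hlen : ∀ x : Fin n → Bool, List.ofFn x ∈ strs n := fun x =>
    mem_strs.2 (List.length_ofFn)
  have hsurj : ∀ z ∈ strs n, ∃ x : Fin n → Bool, z = List.ofFn x := by
    intro z hz
    have hz' := mem_strs.1 hz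
    subst hz'
    exact ⟨fun i => z.get i, (List.ofFn_get z).symm⟩
  set p := Nat.pair (Nat.pair n d₁) (Nat.pair d₂ m) with hp
  have hplt : p < 2 ^ (4 * s) := by
    have := pair_lt_two_pow (pair_lt_two_pow hn hd₁) (pair_lt_two_pow hd₂ hm)
    have e : 2 * (2 * s) = 4 * s := by ring
    rwa [e] at this
  have hQ : ∀ y' k, QNbr E p y' k ↔ y'.length = n ∧ ∃ x ∈ strs n, ldist x y' ≤ d₂ ∧
      ∀ z ∈ strs n, (¬ ldist x z ≤ d₁) ∨ E m z k := by
    intro y' k
    simp only [QNbr, hp, Nat.unpair_pair]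
  have hmain : ∀ y' : List Bool, (∃ k, QNbr E p y' k) ↔
      ∃ y₀ ∈ nbr S d₂, y' = List.ofFn y₀ := by
    intro y'
    constructor
    · rintro ⟨k, hk⟩
      obtain ⟨hl, x, hx, hxy, hz⟩ := (hQ y' k).1 hk
      obtain ⟨x₀, rfl⟩ := hsurj x hx
      obtain ⟨y₀, rfl⟩ := hsurj y' (mem_strs.2 hl)
      refine ⟨y₀, ?_, rfl⟩
      rw [nbr, Finset.mem_filter]
      refine ⟨Finset.mem_univ _, x₀, ?_, ?_⟩
      · rw [hS]
        intro z hzb
        rw [hE]
        rw [ball, Finset.mem_filter] at hzb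
        rcases hz (List.ofFn z) (hlen z) with h | h
        · exact absurd (by rw [ldist_ofFn]; exact hzb.2) h
        · exact ⟨k, h⟩
      · rw [← ldist_ofFn]; exact hxy
    · rintro ⟨y₀, hy₀, rfl⟩
      rw [nbr, Finset.mem_filter] at hy₀
      obtain ⟨-, x₀, hx₀, hxy⟩ := hy₀
      rw [hS] at hx₀
      have h1 : ∀ z ∈ ball x₀ d₁, ∃ k, E m (List.ofFn z) k := fun z hz =>
        (hE m (List.ofFn z)).1 (hx₀ z hz)
      choose! κ hκ using h1
      refine ⟨(ball x₀ d₁).sup κ, (hQ _ _).2 ⟨List.length_ofFn, List.ofFn x₀, hlen x₀, ?_, ?_⟩⟩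
      · rw [ldist_ofFn]; exact hxy
      · intro z hz
        obtain ⟨z₀, rfl⟩ := hsurj z hz
        by_cases hd : ldist (List.ofFn x₀) (List.ofFn z₀) ≤ d₁
        · right
          rw [ldist_ofFn] at hd
          have hzb : z₀ ∈ ball x₀ d₁ := by
            rw [ball, Finset.mem_filter]
            exact ⟨Finset.mem_univ _, hd⟩
          exact hEmono _ _ _ _ (Finset.le_sup (f := κ) hzb) (hκ z₀ hzb)
        · left; exact hd
  have := hc (4 * s) N p (List.ofFn y) ((nbr S d₂).image List.ofFn) hplt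
    ((hmain _).2 ⟨y, hy, rfl⟩) ?_ ?_
  · omega
  · intro y' k hk
    obtain ⟨y₀, hy₀, rfl⟩ := (hmain y').1 ⟨k, hk⟩
    exact Finset.mem_image_of_mem _ hy₀
  · exact Finset.card_image_le.trans hcard

end Pool.Agent.Lib.MP_f4f1a8_lc
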