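import Pool.Agent.Lib.MP_f4f1a8_lc.LLem
import Pool.Agent.Lib.MP_f4f1a8_lc.Harper
import Pool.Agent.Lib.MP_f4f1a8_lc.Sphere
import Pool.Agent.Lib.MP_f4f1a8_lc.PNbr

namespace Pool.Agent.Lib.MP_f4f1a8_lc

open Finset SelectAux

/-- The upper growth law. -/
lemma nec_upper {U : List Bool →. List Bool} (hU : Optimal U) {c₁ : ℕ}
    (hc₁ : ∀ (n d₁ d₂ m s N : ℕ) (S : Finset (Fin n → Bool)),
      n < 2 ^ s → d₁ < 2 ^ s → d₂ < 2 ^ s → m < 2 ^ s →
      (∀ x, x ∈ S ↔ ∀ y ∈ ball x d₁, C U (List.ofFn y) ≤ m) →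
      (nbr S d₂).card ≤ 2 ^ N → ∀ y ∈ nbr S d₂, C U (List.ofFn y) ≤ N + 8 * s + c₁)
    {n s d₁ d₂ : ℕ} (h12 : d₁ ≤ d₂) (x : Fin n → Bool) (hn : n < 2 ^ s) (hd : d₂ < 2 ^ s)
    (hm : M U x d₁ < 2 ^ s) :
    (M U x d₂ : ℝ) ≤ M U x d₁ + (L n d₂ - L n d₁) + 2 + 8 * s + c₁ := by
  classical
  set m := M U x d₁ with hmdef
  set S : Finset (Fin n → Bool) :=
    univ.filter (fun x' => ∀ y ∈ ball x' d₁, C U (List.ofFn y) ≤ m) with hS
  have hxS : x ∈ S := by
    rw [hS, mem_filter]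
    exact ⟨mem_univ _, fun y hy => le_M (mem_ball.mp hy)⟩
  have hlow : (nbr S d₁).card < 2 ^ (m + 1) := by
    apply card_lt_of_C hU
    intro y hy
    obtain ⟨x', hx', hd'⟩ := mem_nbr.mp hy
    rw [hS, mem_filter] at hx'
    exact Nat.lt_succ_of_le (hx'.2 y (mem_ball.mpr hd'))
  have hpos2 : 0 < (nbr S d₂).card := Finset.card_pos.mpr ⟨x, mem_nbr.mpr ⟨x, hxS, by simp⟩⟩
  have hgrow := sphere_growth S h12
  have hlog : Real.logb 2 (nbr S d₂).card + L n d₁ ≤ (m + 1) + L n d₂ := by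
    have h2 : ((2 : ℝ) ^ (m + 1 : ℕ)) * vol n d₂ ≥ (nbr S d₂).card * vol n d₁ := by
      have : (nbr S d₂).card * vol n d₁ ≤ 2 ^ (m + 1) * vol n d₂ :=
        hgrow.trans (Nat.mul_le_mul_right _ hlow.le)
      exact_mod_cast this
    have hp : (0 : ℝ) < (nbr S d₂).card := by exact_mod_cast hpos2
    have h3 := Real.logb_le_logb_of_le (b := 2) (by norm_num) (mul_pos hp (NL_pos n d₁)) h2
    rw [Real.logb_mul hp.ne' (NL_pos n d₁).ne', Real.logb_mul (by positivity) (NL_pos n d₂).ne',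
      Real.logb_pow, Real.logb_self_eq_one (by norm_num)] at h3
    unfold L
    push_cast at h3
    linarith
  set N := Nat.clog 2 (nbr S d₂).card with hN
  have hN1 : (nbr S d₂).card ≤ 2 ^ N := Nat.le_pow_clog (by norm_num) _
  have hN2 := NL_clog_le hpos2
  have hM : M U x d₂ ≤ N + 8 * s + c₁ := by
    apply M_le
    intro y hy
    exact hc₁ n d₁ d₂ m s N S hn (by omega) hd hm (fun x' => by rw [hS, mem_filter]; simp) hN1 y
      (mem_nbr.mpr ⟨x, hxS, hy⟩)
  have hM' : (M U x d₂ : ℝ) ≤ N + 8 * s + c₁ := by exact_mod_cast hM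
  rw [← hN] at hN2
  linarith

/-- The lower growth law (Harper). -/
lemma nec_lower {U : List Bool →. List Bool} (hU : Optimal U) {c₁ : ℕ}
    (hc₁ : ∀ (n d₁ d₂ m s N : ℕ) (S : Finset (Fin n → Bool)),
      n < 2 ^ s → d₁ < 2 ^ s → d₂ < 2 ^ s → m < 2 ^ s →
      (∀ x, x ∈ S ↔ ∀ y ∈ ball x d₁, C U (List.ofFn y) ≤ m) →
      (nbr S d₂).card ≤ 2 ^ N → ∀ y ∈ nbr S d₂, C U (List.ofFn y) ≤ N + 8 * s + c₁)
    {n s d₁ d₂ : ℕ} (h12 : d₁ ≤ d₂) (x : Fin n → Bool) (hn : n < 2 ^ s) (hd : d₂ < 2 ^ s)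
    (hm : M U x d₂ < 2 ^ s) (ρ : ℕ) (hρ : L n ρ ≤ M U x d₁) :
    L n (ρ + (d₂ - d₁)) ≤ M U x d₂ + 2 + Real.logb 2 (n + 1) + 8 * s + c₁ := by
  classical
  set t := M U x d₂ with ht
  set r := d₂ - d₁ with hr
  obtain ⟨y₀, hy₀, hy₀'⟩ := exists_eq_M U x d₁
  set T : Finset (Fin n → Bool) :=
    univ.filter (fun z => ∀ y ∈ ball z r, C U (List.ofFn y) ≤ t) with hT
  have hyT : y₀ ∈ T := by
    rw [hT, mem_filter]
    refine ⟨mem_univ _, fun y hy => le_M ?_⟩
    have := hammingDist_triangle x y₀ y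
    have := mem_ball.mp hy
    omega
  have hT0 : nbr T 0 = T := by
    ext y
    rw [mem_nbr]
    constructor
    · rintro ⟨x', hx', h⟩
      have : x' = y := by
        rw [← hammingDist_eq_zero]; omega
      rwa [← this]
    · intro hy; exact ⟨y, hy, by simp⟩
  have hposT : 0 < T.card := Finset.card_pos.mpr ⟨y₀, hyT⟩
  -- the complexity of `y₀`
  set N := Nat.clog 2 T.card with hN
  have hN1 : (nbr T 0).card ≤ 2 ^ N := by rw [hT0]; exact Nat.le_pow_clog (by norm_num) _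
  have hN2 := NL_clog_le hposT
  rw [← hN] at hN2
  have hC : C U (List.ofFn y₀) ≤ N + 8 * s + c₁ :=
    hc₁ n r 0 t s N T hn (by omega) (Nat.pos_of_ne_zero (by positivity)) hm
      (fun x' => by rw [hT, mem_filter]; simp) hN1 y₀ (by rw [hT0]; exact hyT)
  have hm1 : (M U x d₁ : ℝ) ≤ N + 8 * s + c₁ := by rw [← hy₀']; exact_mod_cast hC
  -- the neighbourhood of `T`
  have hup : (nbr T r).card < 2 ^ (t + 1) := by
    apply card_lt_of_C hU
    intro y hy
    obtain ⟨z, hz, hzy⟩ := mem_nbr.mp hy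
    rw [hT, mem_filter] at hz
    exact Nat.lt_succ_of_le (hz.2 y (mem_ball.mpr hzy))
  -- the critical radius
  set σ := Nat.findGreatest (fun s => vol n s ≤ T.card) n with hσ
  have hσ1 : vol n σ ≤ T.card := by
    have := Nat.findGreatest_spec (P := fun s => vol n s ≤ T.card) (m := 0) (n := n)
      (Nat.zero_le _) (by rw [vol_zero]; exact hposT)
    exact this
  have hσ2 : vol n (σ + r) < 2 ^ (t + 1) := (harper T σ r hσ1).trans_lt hup
  have hσ3 : L n (σ + r) ≤ t + 1 := NL_logb_lt (vol_pos n _) hσ2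
  have hlog0 : 0 ≤ Real.logb 2 ((n : ℝ) + 1) :=
    Real.logb_nonneg (by norm_num) (by have : (0 : ℝ) ≤ n := by positivity
                                       linarith)
  have hs0 : (0 : ℝ) ≤ 8 * s + c₁ := by positivity
  rcases le_or_gt ρ σ with hρσ | hρσ
  · have := L_mono n (show ρ + r ≤ σ + r by omega)
    linarith
  · rcases le_or_gt n σ with hnσ | hnσ
    · have h1 := L_eq (show n ≤ σ + r by omega)
      have h2 := NL_le n (ρ + r)
      linarith
    · have hσ4 : T.card < vol n (σ + 1) := by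
        by_contra hcon
        push Not at hcon
        have := Nat.le_findGreatest (P := fun s => vol n s ≤ T.card) (m := σ + 1) (n := n)
          (by omega) hcon
        omega
      have h1 := L_logconcave n (show σ + 1 ≤ ρ by omega) r
      have h2 := L_succ n (σ + r)
      have h3 : L n (σ + 1 + r) = L n (σ + r + 1) := by congr 1; ring
      have h4 : Real.logb 2 (T.card : ℝ) ≤ L n (σ + 1) :=
        Real.logb_le_logb_of_le (by norm_num) (by exact_mod_cast hposT) (by exact_mod_cast hσ4.le)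
      linarith

theorem necessary {U : List Bool →. List Bool} (hU : Optimal U) :
    ∃ c : ℝ, ∀ (n : ℕ) (x : Fin n → Bool) (d₁ d₂ : ℕ), 2 ≤ n → d₁ ≤ d₂ → d₂ ≤ n →
      Admissible n d₁ d₂ (M U x d₁) (M U x d₂) (c * Real.log n) := by
  obtain ⟨c₀, hc₀⟩ := C_le_length hU
  obtain ⟨c₁, hc₁⟩ := descr_nbr hU
  obtain ⟨cs, hcs0, hcs⟩ := NL_exists_s c₀
  refine ⟨10 + 8 * cs + 2 * c₁ + 2 * c₀, ?_⟩
  intro n x d₁ d₂ hn h12 h2
  obtain ⟨s, hs, hs'⟩ := hcs n hn
  have hl := one_le_log hn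
  have hl0 : 0 ≤ Real.log n := by linarith
  have hMle : ∀ d, M U x d ≤ n + c₀ := by
    intro d
    apply M_le
    intro y _
    simpa using hc₀ (List.ofFn y)
  have hc0l : (c₀ : ℝ) ≤ 2 * c₀ * Real.log n := by
    have : (0 : ℝ) ≤ c₀ := by positivity
    nlinarith
  have hc1l : (c₁ : ℝ) ≤ 2 * c₁ * Real.log n := by
    have : (0 : ℝ) ≤ c₁ := by positivity
    nlinarith
  have hc0' : 0 ≤ 2 * (c₀ : ℝ) * Real.log n := by positivity
  have hc1' : 0 ≤ 2 * (c₁ : ℝ) * Real.log n := by positivity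
  have hcs' : 0 ≤ 8 * cs * Real.log n := by positivity
  have hexp : (10 + 8 * cs + 2 * c₁ + 2 * c₀) * Real.log n =
      10 * Real.log n + 8 * cs * Real.log n + 2 * c₁ * Real.log n + 2 * c₀ * Real.log n := by ring
  refine ⟨?_, ?_, ?_, ?_, ?_⟩
  · -- the ball is contained in the set of strings of complexity at most `M`
    have h1 : (ball x d₁).card < 2 ^ (M U x d₁ + 1) := by
      apply card_lt_of_C hU
      intro y hy
      exact Nat.lt_succ_of_le (le_M (mem_ball.mp hy))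
    rw [card_ball] at h1
    have h2 : L n d₁ ≤ M U x d₁ + 1 := NL_logb_lt (vol_pos n _) h1
    rw [hexp]; linarith
  · have : (M U x d₁ : ℝ) ≤ M U x d₂ := by exact_mod_cast M_mono U x h12
    rw [hexp]; linarith
  · have : (M U x d₂ : ℝ) ≤ n + c₀ := by exact_mod_cast hMle d₂
    rw [hexp]; linarith
  · have := nec_upper hU hc₁ (s := s) h12 x (by omega) (by omega)
      (lt_of_le_of_lt (hMle d₁) hs)
    rw [hexp]; linarith
  · intro ρ hρ
    have := nec_lower hU hc₁ (s := s) h12 x (by omega) (by omega)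
      (lt_of_le_of_lt (hMle d₂) hs) ρ hρ
    have h3 := logb_le hn
    rw [hexp]; linarith

end Pool.Agent.Lib.MP_f4f1a8_lc
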