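import Pool.Agent.Lib.MP_f4f1a8_lc.LLem
import Pool.Agent.Lib.MP_f4f1a8_lc.Center
import Pool.Agent.Lib.MP_f4f1a8_lc.PCode

namespace Pool.Agent.Lib.MP_f4f1a8_lc

open Finset SelectAux

lemma real_half (n : ℕ) {r : ℕ} (h : n / 2 ≤ r) : (n : ℝ) - 1 ≤ L n r := by
  have h1 : (2 : ℝ) ^ n ≤ 2 * vol n (n / 2) := by exact_mod_cast two_pow_le_vol_half n
  have h2 := Real.logb_le_logb_of_le (b := 2) (by norm_num) (by positivity) h1
  rw [Real.logb_mul (by norm_num) (NL_pos n _).ne', Real.logb_pow,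
    Real.logb_self_eq_one (by norm_num)] at h2
  have h3 := L_mono n h
  have h4 : L n (n / 2) = Real.logb 2 (vol n (n / 2)) := rfl
  linarith

lemma real_exists_random {U : List Bool →. List Bool} (hU : Optimal U) (n : ℕ) :
    ∃ x : Fin n → Bool, n ≤ C U (List.ofFn x) := by
  classical
  by_contra hcon
  push Not at hcon
  have := card_lt_of_C hU (n := n) univ n (fun y _ => hcon y)
  rw [card_univ] at this
  simp at this

lemma real_card_nbr {n l : ℕ} (T : Fin (2 ^ l) → (Fin n → Bool)) (j : ℕ) :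
    (nbr (univ.image T) j).card ≤ 2 ^ l * vol n j := by
  classical
  have hsub : nbr (univ.image T) j ⊆ univ.biUnion (fun i => ball (T i) j) := by
    intro y hy
    obtain ⟨x, hx, hxy⟩ := mem_nbr.mp hy
    obtain ⟨i, _, rfl⟩ := mem_image.mp hx
    exact mem_biUnion.mpr ⟨i, mem_univ _, mem_ball.mpr hxy⟩
  refine (card_le_card hsub).trans (card_biUnion_le.trans ?_)
  rw [sum_congr rfl (fun i _ => card_ball (T i) j)]
  simp

theorem realize {U : List Bool →. List Bool} (hU : Optimal U) :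
    ∃ c : ℝ, ∀ n l t : ℕ, 2 ≤ n → l ≤ n → t ≤ n → ∃ x : Fin n → Bool, ∀ d ≤ n,
      |(M U x d : ℝ) - min (n : ℝ) (l + L n (t + d))| ≤ c * Real.log n := by
  classical
  obtain ⟨c₀, hc₀⟩ := C_le_length hU
  obtain ⟨c₁, hc₁⟩ := descr_code hU
  obtain ⟨cs, hcs0, hcs⟩ := NL_exists_s 0
  refine ⟨2 * c₀ + 2 * c₁ + 8 * cs + 30, ?_⟩
  intro n l t hn hl ht
  obtain ⟨s, hs, hs'⟩ := hcs n hn
  have hl1 := one_le_log hn
  have hl0 : 0 ≤ Real.log n := by linarith
  have hc0l : (c₀ : ℝ) ≤ 2 * c₀ * Real.log n := by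
    have : (0 : ℝ) ≤ c₀ := by positivity
    nlinarith
  have hc1l : (c₁ : ℝ) ≤ 2 * c₁ * Real.log n := by
    have : (0 : ℝ) ≤ c₁ := by positivity
    nlinarith
  have hc0' : 0 ≤ 2 * (c₀ : ℝ) * Real.log n := by positivity
  have hc1' : 0 ≤ 2 * (c₁ : ℝ) * Real.log n := by positivity
  have hcs' : 0 ≤ 8 * cs * Real.log n := by positivity
  have hexp : (2 * c₀ + 2 * c₁ + 8 * cs + 30) * Real.log n =
      2 * c₀ * Real.log n + 2 * c₁ * Real.log n + 8 * cs * Real.log n + 30 * Real.log n := by ring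
  rcases lt_or_ge n (2 * t) with hcase | hcase
  · -- large `t`
    obtain ⟨x, hx⟩ := real_exists_random hU n
    refine ⟨x, fun d hd => ?_⟩
    have h1 : (n : ℝ) ≤ M U x d := by
      have : C U (List.ofFn x) ≤ M U x d := le_M (by simp)
      exact_mod_cast hx.trans this
    have h2 : (M U x d : ℝ) ≤ n + c₀ := by
      have : M U x d ≤ n + c₀ := by
        apply M_le
        intro y _
        simpa using hc₀ (List.ofFn y)
      exact_mod_cast this
    have h3 : (n : ℝ) - 1 ≤ min (n : ℝ) (l + L n (t + d)) := by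
      have h4 := real_half n (show n / 2 ≤ t + d by omega)
      have : (0 : ℝ) ≤ l := by positivity
      apply le_min <;> linarith
    have h5 : min (n : ℝ) (l + L n (t + d)) ≤ n := min_le_left _ _
    rw [hexp, abs_le]
    constructor <;> linarith
  · -- the code construction
    obtain ⟨T, hT, hTd⟩ := hc₁ n l
    set A : ℕ → ℝ := fun ρ => min (n : ℝ) (l + L n ρ) with hA
    set m : ℕ → ℕ := fun ρ => ⌊A ρ - Real.logb 2 (8 * ((n : ℝ) + 1) ^ 3)⌋₊ with hm
    set Bad : ℕ → Finset (Fin n → Bool) :=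
      fun ρ => univ.filter (fun y => C U (List.ofFn y) < m ρ) with hBad
    have h8 : (0 : ℝ) < 8 * ((n : ℝ) + 1) ^ 3 := by positivity
    have hcard : ∀ ρ, (Bad ρ).card < 2 ^ m ρ := by
      intro ρ
      apply card_lt_of_C hU
      intro y hy
      exact (mem_filter.mp hy).2
    have hpow : ∀ ρ, (2 : ℝ) ^ (A ρ) ≤ min ((2 : ℝ) ^ l * vol n ρ) ((2 : ℝ) ^ n) := by
      intro ρ
      apply le_min
      · have h1 : (2 : ℝ) ^ (A ρ) ≤ (2 : ℝ) ^ ((l : ℝ) + L n ρ) :=
          Real.rpow_le_rpow_of_exponent_le (by norm_num) (min_le_right _ _)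
        refine h1.trans (le_of_eq ?_)
        rw [Real.rpow_add (by norm_num), Real.rpow_natCast]
        congr 1
        unfold L
        rw [Real.rpow_logb (by norm_num) (by norm_num) (NL_pos n ρ)]
      · have h1 : (2 : ℝ) ^ (A ρ) ≤ (2 : ℝ) ^ (n : ℝ) :=
          Real.rpow_le_rpow_of_exponent_le (by norm_num) (min_le_left _ _)
        rwa [Real.rpow_natCast] at h1
    have hB : ∀ ρ, t ≤ ρ → 2 * ρ ≤ n →
        (Bad ρ).card * (8 * (n + 1) ^ 3) ≤ min (2 ^ l * vol n ρ) (2 ^ n) := by
      intro ρ _ _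
      rcases Nat.eq_zero_or_pos (m ρ) with h0 | h0
      · have := hcard ρ
        rw [h0, pow_zero, Nat.lt_one_iff] at this
        rw [this]; simp
      · have h1 : (m ρ : ℝ) ≤ A ρ - Real.logb 2 (8 * ((n : ℝ) + 1) ^ 3) :=
          Nat.floor_le (le_of_lt (Nat.pos_of_floor_pos h0))
        have h2 : ((Bad ρ).card : ℝ) ≤ (2 : ℝ) ^ (m ρ : ℝ) := by
          rw [Real.rpow_natCast]; exact_mod_cast (hcard ρ).le
        have h3 : ((Bad ρ).card : ℝ) * (8 * ((n : ℝ) + 1) ^ 3) ≤ (2 : ℝ) ^ (A ρ) := by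
          calc ((Bad ρ).card : ℝ) * (8 * ((n : ℝ) + 1) ^ 3)
              ≤ (2 : ℝ) ^ (m ρ : ℝ) * (8 * ((n : ℝ) + 1) ^ 3) :=
                mul_le_mul_of_nonneg_right h2 h8.le
            _ = (2 : ℝ) ^ (m ρ : ℝ) * (2 : ℝ) ^ (Real.logb 2 (8 * ((n : ℝ) + 1) ^ 3)) := by
                rw [Real.rpow_logb (by norm_num) (by norm_num) h8]
            _ = (2 : ℝ) ^ ((m ρ : ℝ) + Real.logb 2 (8 * ((n : ℝ) + 1) ^ 3)) := by
                rw [Real.rpow_add (by norm_num)]
            _ ≤ (2 : ℝ) ^ (A ρ) :=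
                Real.rpow_le_rpow_of_exponent_le (by norm_num) (by linarith)
        have h4 := h3.trans (hpow ρ)
        have h5 : (((Bad ρ).card * (8 * (n + 1) ^ 3) : ℕ) : ℝ) ≤
            ((min (2 ^ l * vol n ρ) (2 ^ n) : ℕ) : ℝ) := by
          push_cast
          exact h4
        exact_mod_cast h5
    obtain ⟨x, ⟨i, hi⟩, hx⟩ := exists_center hcase T hT Bad hB
    refine ⟨x, fun d hd => ?_⟩
    -- upper bound
    have hup : (M U x d : ℝ) ≤ A (t + d) + 1 + 8 * (s + 1) + c₁ := by
      set j := t + d with hj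
      have hpos : 0 < (nbr (univ.image T) j).card :=
        Finset.card_pos.mpr ⟨T i, mem_nbr.mpr ⟨T i, mem_image_of_mem _ (mem_univ _), by simp⟩⟩
      set N := Nat.clog 2 (nbr (univ.image T) j).card with hN
      have hN1 : (nbr (univ.image T) j).card ≤ 2 ^ N := Nat.le_pow_clog (by norm_num) _
      have hN2 := NL_clog_le hpos
      rw [← hN] at hN2
      have hN3 : Real.logb 2 (nbr (univ.image T) j).card ≤ A j := by
        apply le_min
        · have : (nbr (univ.image T) j).card ≤ 2 ^ n := by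
            refine (card_le_univ _).trans ?_
            simp
          have h1 := Real.logb_le_logb_of_le (b := 2) (x := ((nbr (univ.image T) j).card : ℝ))
            (y := (2 : ℝ) ^ n) (by norm_num) (by exact_mod_cast hpos) (by exact_mod_cast this)
          rwa [Real.logb_pow, Real.logb_self_eq_one (by norm_num), mul_one] at h1
        · have h1 := Real.logb_le_logb_of_le (b := 2) (x := ((nbr (univ.image T) j).card : ℝ))
            (y := (2 : ℝ) ^ l * vol n j) (by norm_num) (by exact_mod_cast hpos)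
            (by exact_mod_cast real_card_nbr T j)
          rwa [Real.logb_mul (by positivity) (NL_pos n j).ne', Real.logb_pow,
            Real.logb_self_eq_one (by norm_num), mul_one] at h1
      have h2s : (2 : ℕ) ^ (s + 1) = 2 * 2 ^ s := by ring
      have hM : M U x d ≤ N + 8 * (s + 1) + c₁ := by
        apply M_le
        intro y hy
        apply hTd j (s + 1) N (by omega) (by omega) (by omega) hN1 y
        refine mem_nbr.mpr ⟨T i, mem_image_of_mem _ (mem_univ _), ?_⟩
        have := hammingDist_triangle (T i) x y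
        omega
      have hM' : (M U x d : ℝ) ≤ N + 8 * (s + 1) + c₁ := by exact_mod_cast hM
      linarith
    -- lower bound
    set ρ := min (t + d) (n / 2) with hρ
    have hρ1 : t ≤ ρ := by omega
    have hρ2 : 2 * ρ ≤ n := by omega
    obtain ⟨y, hy, hyB⟩ := hx ρ hρ1 hρ2
    have hyC : m ρ ≤ C U (List.ofFn y) := by
      by_contra hcon
      exact hyB (mem_filter.mpr ⟨mem_univ _, not_le.mp hcon⟩)
    have hMy : (m ρ : ℝ) ≤ M U x d := by
      have : C U (List.ofFn y) ≤ M U x d := le_M (by omega)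
      exact_mod_cast hyC.trans this
    have hfl : A ρ - Real.logb 2 (8 * ((n : ℝ) + 1) ^ 3) < m ρ + 1 := Nat.lt_floor_add_one _
    have hlog8 : Real.logb 2 (8 * ((n : ℝ) + 1) ^ 3) ≤ 15 * Real.log n := by
      have h1 : Real.logb 2 (8 * ((n : ℝ) + 1) ^ 3) = 3 + 3 * Real.logb 2 ((n : ℝ) + 1) := by
        rw [Real.logb_mul (by norm_num) (by positivity), Real.logb_pow]
        have : Real.logb 2 (8 : ℝ) = 3 := by
          rw [show (8 : ℝ) = 2 ^ 3 by norm_num, Real.logb_pow,
            Real.logb_self_eq_one (by norm_num)]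
          norm_num
        rw [this]; norm_num
      have h2 := logb_le hn
      rw [h1]; linarith
    have hAρ : A (t + d) - 1 ≤ A ρ := by
      rcases le_total (t + d) (n / 2) with h | h
      · rw [hρ, min_eq_left h]; linarith
      · rw [hρ, min_eq_right h]
        have h1 := real_half n (le_refl (n / 2))
        have h2 : A (t + d) ≤ n := min_le_left _ _
        have h3 : (0 : ℝ) ≤ l := by positivity
        apply le_min <;> linarith
    rw [hexp, abs_le]
    have hAeq : min (n : ℝ) (l + L n (t + d)) = A (t + d) := rfl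
    rw [hAeq]
    constructor <;> linarith

end Pool.Agent.Lib.MP_f4f1a8_lc
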